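import Pool.Agent.Lib.MP_464db4_gt.YV.WirtB

/-!
# YV-Geo: geometry of the total space
`bas`, `fib`, `pt` are the (continuous, linear) coordinate maps of `ℂ^(ι ⊕ κ)`; derivatives of functions of the base coordinates; the Jacobian of
`T.F g` at `x ∈ tot κ D` is the block matrix `[[f', 0],[τ', A]]`.  (`bas`, `pt · 0` are ℂ-linear maps, use `dz_comp` or `fderiv_comp`;
the components of `T.F g` are `inl i ↦ T.f g (bas x) i` and `inr k ↦ ∑ l, A k l * x (inr l) + τ (bas x) k`.)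
-/

namespace YV

open Complex Matrix MeasureTheory
open scoped ContDiff ComplexConjugate ComplexOrder

variable {ι κ : Type} [Fintype ι] [DecidableEq ι] [Fintype κ] [DecidableEq κ] {D : Set (ι → ℂ)} {G : Type}

@[simp] theorem bas_pt (b : ι → ℂ) (z : κ → ℂ) : bas (pt b z) = b := by rfl

@[simp] theorem fib_pt (b : ι → ℂ) (z : κ → ℂ) : fib (pt b z) = z := by rfl

@[simp] theorem pt_bas_fib (x : ι ⊕ κ → ℂ) : pt (bas x) (fib x) = x := by
  funext k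
  rcases k with k | k <;> rfl

theorem pt_add (b b' : ι → ℂ) (z z' : κ → ℂ) : pt (b + b') (z + z') = pt b z + pt b' z' := by
  funext k
  rcases k with k | k <;> rfl

theorem bas_add_pt (x : ι ⊕ κ → ℂ) (a : κ → ℂ) : bas (x + pt 0 a) = bas x := by
  funext i
  show x (Sum.inl i) + 0 = x (Sum.inl i)
  rw [add_zero]

theorem fib_add_pt (x : ι ⊕ κ → ℂ) (a : κ → ℂ) : fib (x + pt 0 a) = fib x + a := by rfl

theorem smul_pt (s : ℝ) (a : κ → ℂ) : s • (pt 0 a : ι ⊕ κ → ℂ) = pt 0 (s • a) := by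
  funext k
  rcases k with k | k
  · show s • (0 : ℂ) = 0
    rw [smul_zero]
  · rfl

/-- The base projection as a continuous linear map. -/
noncomputable def geo_basL (ι κ : Type) : (ι ⊕ κ → ℂ) →L[ℂ] (ι → ℂ) :=
  ContinuousLinearMap.pi (fun i => ContinuousLinearMap.proj (R := ℂ) (φ := fun _ : ι ⊕ κ => ℂ) (Sum.inl i))

/-- The zero section as a continuous linear map. -/
noncomputable def geo_ptL (ι κ : Type) : (ι → ℂ) →L[ℂ] (ι ⊕ κ → ℂ) :=
  ContinuousLinearMap.pi (Sum.rec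
    (fun i => ContinuousLinearMap.proj (R := ℂ) (φ := fun _ : ι => ℂ) i) (fun _ => 0))

theorem geo_basL_apply (x : ι ⊕ κ → ℂ) : geo_basL ι κ x = bas x := by rfl

theorem geo_ptL_apply (b : ι → ℂ) : geo_ptL ι κ b = pt b 0 := by
  funext k
  rcases k with k | k <;> rfl

theorem isOpen_tot (hD : IsOpen D) : IsOpen (tot κ D) := by
  exact hD.preimage (geo_basL ι κ).continuous

theorem add_mem_tot {x : ι ⊕ κ → ℂ} (hx : x ∈ tot κ D) (a : κ → ℂ) : x + pt 0 a ∈ tot κ D := by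
  show bas (x + pt 0 a) ∈ D
  rw [bas_add_pt]
  exact hx

theorem pt_mem_tot {b : ι → ℂ} (hb : b ∈ D) (z : κ → ℂ) : pt b z ∈ tot κ D := by exact hb

theorem continuous_pt0 : Continuous (fun a : κ → ℂ => (pt 0 a : ι ⊕ κ → ℂ)) := by
  refine continuous_pi (fun k => ?_)
  rcases k with k | k
  · exact continuous_const
  · exact continuous_apply k

theorem norm_pt0 (a : κ → ℂ) : ‖(pt 0 a : ι ⊕ κ → ℂ)‖ = ‖a‖ := by
  apply le_antisymm
  · rw [pi_norm_le_iff_of_nonneg (norm_nonneg _)]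
    rintro (k | k)
    · show ‖(0 : ℂ)‖ ≤ ‖a‖
      rw [norm_zero]
      exact norm_nonneg _
    · exact norm_le_pi_norm a k
  · rw [pi_norm_le_iff_of_nonneg (norm_nonneg _)]
    intro k
    exact norm_le_pi_norm (pt 0 a : ι ⊕ κ → ℂ) (Sum.inr k)

theorem contDiffOn_bas {f : (ι → ℂ) → ℂ} (hf : ContDiffOn ℝ ∞ f D) : ContDiffOn ℝ ∞ (fun x : ι ⊕ κ → ℂ => f (bas x)) (tot κ D) := by
  have h := hf.comp (((geo_basL ι κ).restrictScalars ℝ).contDiff.contDiffOn (s := tot κ D)) (fun x hx => hx)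
  exact h

theorem contDiffOn_pt {f : (ι ⊕ κ → ℂ) → ℂ} (hf : ContDiffOn ℝ ∞ f (tot κ D)) : ContDiffOn ℝ ∞ (fun b => f (pt b 0)) D := by
  have h := hf.comp (((geo_ptL ι κ).restrictScalars ℝ).contDiff.contDiffOn (s := D)) (fun b hb => by
    show bas (geo_ptL ι κ b) ∈ D
    rw [geo_ptL_apply, bas_pt]
    exact hb)
  refine h.congr (fun b _ => ?_)
  show f (pt b 0) = f (geo_ptL ι κ b)
  rw [geo_ptL_apply]

theorem geo_fderiv_bas {f : (ι → ℂ) → ℂ} {x : ι ⊕ κ → ℂ} (hf : DifferentiableAt ℝ f (bas x)) (v : ι ⊕ κ → ℂ) :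
    fderiv ℝ (fun y : ι ⊕ κ → ℂ => f (bas y)) x v = fderiv ℝ f (bas x) (bas v) := by
  have h1 : HasFDerivAt (fun y : ι ⊕ κ → ℂ => f (bas y))
      ((fderiv ℝ f (bas x)).comp ((geo_basL ι κ).restrictScalars ℝ)) x :=
    HasFDerivAt.comp x (g := f) (f := fun y : ι ⊕ κ → ℂ => bas y) hf.hasFDerivAt
      (((geo_basL ι κ).restrictScalars ℝ).hasFDerivAt)
  rw [h1.fderiv]
  rfl

theorem geo_fderiv_pt {f : (ι ⊕ κ → ℂ) → ℂ} {b : ι → ℂ} (hf : DifferentiableAt ℝ f (pt b 0)) (v : ι → ℂ) :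
    fderiv ℝ (fun b : ι → ℂ => f (pt b 0)) b v = fderiv ℝ f (pt b 0) (pt v 0) := by
  have e : (fun b : ι → ℂ => (pt b 0 : ι ⊕ κ → ℂ)) = fun b => ((geo_ptL ι κ).restrictScalars ℝ) b := by
    funext b
    exact (geo_ptL_apply b).symm
  have h0 : HasFDerivAt (fun b : ι → ℂ => (pt b 0 : ι ⊕ κ → ℂ)) ((geo_ptL ι κ).restrictScalars ℝ) b := by
    rw [e]
    exact ((geo_ptL ι κ).restrictScalars ℝ).hasFDerivAt
  have h1 : HasFDerivAt (fun b : ι → ℂ => f (pt b 0))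
      ((fderiv ℝ f (pt b 0)).comp ((geo_ptL ι κ).restrictScalars ℝ)) b :=
    HasFDerivAt.comp b (g := f) (f := fun b : ι → ℂ => (pt b 0 : ι ⊕ κ → ℂ)) hf.hasFDerivAt h0
  rw [h1.fderiv]
  show fderiv ℝ f (pt b 0) (geo_ptL ι κ v) = _
  rw [geo_ptL_apply]

theorem geo_bas_single_inl (i : ι) (c : ℂ) : bas (Pi.single (Sum.inl i) c : ι ⊕ κ → ℂ) = Pi.single i c := by
  funext j
  show (Pi.single (Sum.inl i) c : ι ⊕ κ → ℂ) (Sum.inl j) = _
  by_cases h : j = i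
  · subst h
    rw [Pi.single_eq_same, Pi.single_eq_same]
  · rw [Pi.single_eq_of_ne h, Pi.single_eq_of_ne (fun h' => h (Sum.inl.inj h'))]

theorem geo_bas_single_inr (k : κ) (c : ℂ) : bas (Pi.single (Sum.inr k) c : ι ⊕ κ → ℂ) = 0 := by
  funext j
  show (Pi.single (Sum.inr k) c : ι ⊕ κ → ℂ) (Sum.inl j) = _
  rw [Pi.single_eq_of_ne (by simp)]
  rfl

theorem geo_pt_single (i : ι) (c : ℂ) : (pt (Pi.single i c) 0 : ι ⊕ κ → ℂ) = Pi.single (Sum.inl i) c := by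
  funext j
  rcases j with j | k
  · show (Pi.single i c : ι → ℂ) j = _
    by_cases h : j = i
    · subst h
      rw [Pi.single_eq_same, Pi.single_eq_same]
    · rw [Pi.single_eq_of_ne h, Pi.single_eq_of_ne (fun h' => h (Sum.inl.inj h'))]
  · show (0 : ℂ) = _
    rw [Pi.single_eq_of_ne (by simp)]

theorem dz_bas_inl {f : (ι → ℂ) → ℂ} {x : ι ⊕ κ → ℂ} (hf : DifferentiableAt ℝ f (bas x)) (i : ι) :
    dz (Sum.inl i) (fun y : ι ⊕ κ → ℂ => f (bas y)) x = dz i f (bas x) := by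
  unfold dz
  rw [geo_fderiv_bas hf, geo_fderiv_bas hf, geo_bas_single_inl, geo_bas_single_inl]

theorem dz_bas_inr {f : (ι → ℂ) → ℂ} {x : ι ⊕ κ → ℂ} (hf : DifferentiableAt ℝ f (bas x)) (k : κ) :
    dz (Sum.inr k) (fun y : ι ⊕ κ → ℂ => f (bas y)) x = 0 := by
  unfold dz
  rw [geo_fderiv_bas hf, geo_fderiv_bas hf, geo_bas_single_inr, geo_bas_single_inr, map_zero]
  simp

theorem dzbar_bas_inl {f : (ι → ℂ) → ℂ} {x : ι ⊕ κ → ℂ} (hf : DifferentiableAt ℝ f (bas x)) (i : ι) :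
    dzbar (Sum.inl i) (fun y : ι ⊕ κ → ℂ => f (bas y)) x = dzbar i f (bas x) := by
  unfold dzbar
  rw [geo_fderiv_bas hf, geo_fderiv_bas hf, geo_bas_single_inl, geo_bas_single_inl]

theorem dzbar_bas_inr {f : (ι → ℂ) → ℂ} {x : ι ⊕ κ → ℂ} (hf : DifferentiableAt ℝ f (bas x)) (k : κ) :
    dzbar (Sum.inr k) (fun y : ι ⊕ κ → ℂ => f (bas y)) x = 0 := by
  unfold dzbar
  rw [geo_fderiv_bas hf, geo_fderiv_bas hf, geo_bas_single_inr, geo_bas_single_inr, map_zero]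
  simp

theorem dz_pt {f : (ι ⊕ κ → ℂ) → ℂ} {b : ι → ℂ} (hf : DifferentiableAt ℝ f (pt b 0)) (i : ι) :
    dz i (fun b => f (pt b 0)) b = dz (Sum.inl i) f (pt b 0) := by
  unfold dz
  rw [geo_fderiv_pt hf, geo_fderiv_pt hf, geo_pt_single, geo_pt_single]

theorem dzbar_pt {f : (ι ⊕ κ → ℂ) → ℂ} {b : ι → ℂ} (hf : DifferentiableAt ℝ f (pt b 0)) (i : ι) :
    dzbar i (fun b => f (pt b 0)) b = dzbar (Sum.inl i) f (pt b 0) := by
  unfold dzbar
  rw [geo_fderiv_pt hf, geo_fderiv_pt hf, geo_pt_single, geo_pt_single]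

theorem mem_tot_of_dom (T : TorusData ι κ D G) (g : G) {x : ι ⊕ κ → ℂ} (hx : x ∈ tot κ (T.dom g)) : x ∈ tot κ D :=
  T.dom_sub g hx

theorem F_mem_tot (T : TorusData ι κ D G) (g : G) {x : ι ⊕ κ → ℂ} (hx : x ∈ tot κ (T.dom g)) : T.F g x ∈ tot κ D := by
  exact T.f_maps g _ hx

theorem geo_F_inr (T : TorusData ι κ D G) (g : G) (x : ι ⊕ κ → ℂ) (k : κ) :
    T.F g x (Sum.inr k) = (∑ l, T.A g k l * x (Sum.inr l)) + T.τ g (bas x) k := by rfl

theorem geo_F_inl (T : TorusData ι κ D G) (g : G) (x : ι ⊕ κ → ℂ) (i : ι) :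
    T.F g x (Sum.inl i) = T.f g (bas x) i := by rfl

theorem F_hol (T : TorusData ι κ D G) (g : G) : DifferentiableOn ℂ (T.F g) (tot κ (T.dom g)) := by
  rw [differentiableOn_pi]
  have hb : DifferentiableOn ℂ (fun x : ι ⊕ κ → ℂ => bas x) (tot κ (T.dom g)) := (geo_basL ι κ).differentiable.differentiableOn
  rintro (i | k)
  · have h := (differentiableOn_pi.mp (T.f_hol g) i).comp hb (fun x hx => hx)
    exact h
  · have h := (differentiableOn_pi.mp (T.τ_hol g) k).comp hb (fun x hx => hx)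
    have h2 : DifferentiableOn ℂ (fun x : ι ⊕ κ → ℂ => ∑ l, T.A g k l * x (Sum.inr l)) (tot κ (T.dom g)) := by
      apply DifferentiableOn.fun_sum
      intro l _
      exact ((differentiable_apply (𝕜 := ℂ) (Sum.inr l : ι ⊕ κ)).const_mul (T.A g k l)).differentiableOn
    exact h2.add h

theorem bas_F (T : TorusData ι κ D G) (g : G) (x : ι ⊕ κ → ℂ) : bas (T.F g x) = T.f g (bas x) := by rfl

theorem F_add (T : TorusData ι κ D G) (g : G) (x : ι ⊕ κ → ℂ) (a : κ → ℂ) :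
    T.F g (x + pt 0 a) = T.F g x + pt 0 (T.A g *ᵥ a) := by
  unfold TorusData.F
  rw [bas_add_pt, fib_add_pt, Matrix.mulVec_add]
  funext k
  rcases k with k | k
  · show T.f g (bas x) k = T.f g (bas x) k + 0
    rw [add_zero]
  · show (T.A g *ᵥ fib x) k + (T.A g *ᵥ a) k + T.τ g (bas x) k = (T.A g *ᵥ fib x) k + T.τ g (bas x) k + (T.A g *ᵥ a) k
    ring

theorem geo_dz_coord {ν : Type} [Fintype ν] [DecidableEq ν] (i j : ν) (x : ν → ℂ) :
    dz i (fun y : ν → ℂ => y j) x = if j = i then 1 else 0 := by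
  have h1 : HasFDerivAt (fun y : ν → ℂ => y j) (ContinuousLinearMap.proj (R := ℝ) (φ := fun _ : ν => ℂ) j) x :=
    (ContinuousLinearMap.proj (R := ℝ) (φ := fun _ : ν => ℂ) j).hasFDerivAt
  unfold dz
  rw [h1.fderiv]
  simp only [ContinuousLinearMap.proj_apply]
  by_cases h : j = i
  · subst h
    rw [Pi.single_eq_same, Pi.single_eq_same, I_mul_I, if_pos rfl]
    norm_num
  · rw [Pi.single_eq_of_ne h, Pi.single_eq_of_ne h, if_neg h]
    simp

theorem geo_dz_lin {ν μ : Type} [Fintype ν] [DecidableEq ν] [Fintype μ] (i : ν) (c : μ → ℂ) (e : μ → ν) (x : ν → ℂ) :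
    dz i (fun y : ν → ℂ => ∑ l, c l * y (e l)) x = ∑ l, c l * (if e l = i then 1 else 0) := by
  rw [dz_sum]
  · refine Finset.sum_congr rfl (fun l _ => ?_)
    rw [dz_const_mul i (c l) (by fun_prop), geo_dz_coord]
  · intro l _
    fun_prop

theorem jac_F (T : TorusData ι κ D G) (g : G) {x : ι ⊕ κ → ℂ} (hx : x ∈ tot κ (T.dom g)) :
    jac (T.F g) x = fromBlocks (jac (T.f g) (bas x)) 0 (jac (T.τ g) (bas x)) (T.A g) := by
  have hxD : T.dom g ∈ nhds (bas x) := (T.dom_open g).mem_nhds hx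
  have hf : ∀ i, DifferentiableAt ℝ (fun b => T.f g b i) (bas x) := fun i =>
    ((differentiableOn_pi.mp (T.f_hol g) i).differentiableAt hxD).restrictScalars ℝ
  have hτ : ∀ k, DifferentiableAt ℝ (fun b => T.τ g b k) (bas x) := fun k =>
    ((differentiableOn_pi.mp (T.τ_hol g) k).differentiableAt hxD).restrictScalars ℝ
  have hb : DifferentiableAt ℝ (fun y : ι ⊕ κ → ℂ => bas y) x := ((geo_basL ι κ).restrictScalars ℝ).differentiableAt
  have hlin : ∀ k, DifferentiableAt ℝ (fun y : ι ⊕ κ → ℂ => ∑ l, T.A g k l * y (Sum.inr l)) x := by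
    intro k
    fun_prop
  have hτb : ∀ k, DifferentiableAt ℝ (fun y : ι ⊕ κ → ℂ => T.τ g (bas y) k) x := fun k =>
    DifferentiableAt.comp x (g := fun b => T.τ g b k) (f := fun y : ι ⊕ κ → ℂ => bas y) (hτ k) hb
  ext k i
  show dz i (fun y => T.F g y k) x = _
  rcases k with k | k
  · rcases i with i | i
    · rw [Matrix.fromBlocks_apply₁₁]
      exact dz_bas_inl (hf k) i
    · rw [Matrix.fromBlocks_apply₁₂]
      exact dz_bas_inr (hf k) i
  · have e : (fun y => T.F g y (Sum.inr k))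
        = fun y : ι ⊕ κ → ℂ => (∑ l, T.A g k l * y (Sum.inr l)) + T.τ g (bas y) k := by
      funext y
      exact geo_F_inr T g y k
    rw [e, dz_add _ (hlin k) (hτb k), geo_dz_lin]
    rcases i with i | i
    · rw [Matrix.fromBlocks_apply₂₁, dz_bas_inl (f := fun b => T.τ g b k) (hτ k) i]
      simp [jac]
    · rw [Matrix.fromBlocks_apply₂₂, dz_bas_inr (f := fun b => T.τ g b k) (hτ k) i]
      simp

theorem jac_shift (v : κ → ℂ) (x : ι ⊕ κ → ℂ) : jac (shift v) x = 1 := by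
  ext k i
  show dz i (fun y : ι ⊕ κ → ℂ => y k + (pt 0 v : ι ⊕ κ → ℂ) k) x = _
  rw [dz_add i (by fun_prop) (by fun_prop), dz_const, geo_dz_coord, add_zero, Matrix.one_apply]

theorem mconj_one' {α : Type} [Fintype α] [DecidableEq α] : mconj (1 : Matrix α α ℂ) = 1 := by
  unfold mconj
  exact Matrix.map_one _ (map_zero _) (map_one _)

theorem kahler_inv_F {T : TorusData ι κ D G} {g : (ι ⊕ κ → ℂ) → Matrix (ι ⊕ κ) (ι ⊕ κ) ℂ} (hg : IsKahler (tot κ D) T.total g) (γ : G)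
    {x : ι ⊕ κ → ℂ} (hx : x ∈ tot κ (T.dom γ)) : (jac (T.F γ) x)ᵀ * g (T.F γ x) * mconj (jac (T.F γ) x) = g x :=
  hg.inv (T.F γ, tot κ (T.dom γ)) (Or.inl ⟨γ, rfl⟩) x hx

theorem kahler_inv_shift {T : TorusData ι κ D G} {g : (ι ⊕ κ → ℂ) → Matrix (ι ⊕ κ) (ι ⊕ κ) ℂ} (hg : IsKahler (tot κ D) T.total g)
    {v : κ → ℂ} (hv : v ∈ T.Λ) {x : ι ⊕ κ → ℂ} (hx : x ∈ tot κ D) : g (x + pt 0 v) = g x := by
  have h1 := hg.inv (shift v, tot κ D) (Or.inr ⟨v, hv, rfl⟩) x hx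
  have h3 : (jac (shift v) x)ᵀ * g (shift v x) * mconj (jac (shift v) x) = g x := h1
  rw [jac_shift, mconj_one', Matrix.transpose_one, Matrix.one_mul, Matrix.mul_one] at h3
  exact h3

theorem prim_inv_F {T : TorusData ι κ D G} {g g' : (ι ⊕ κ → ℂ) → Matrix (ι ⊕ κ) (ι ⊕ κ) ℂ} {e : (ι ⊕ κ → ℂ) → (ι ⊕ κ → ℂ)}
    (he : IsPrimitive (tot κ D) T.total g g' e) (γ : G) {x : ι ⊕ κ → ℂ} (hx : x ∈ tot κ (T.dom γ)) (i : ι ⊕ κ) :
    ∑ k, e (T.F γ x) k * jac (T.F γ) x k i = e x i :=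
  he.inv (T.F γ, tot κ (T.dom γ)) (Or.inl ⟨γ, rfl⟩) x hx i

theorem prim_inv_shift {T : TorusData ι κ D G} {g g' : (ι ⊕ κ → ℂ) → Matrix (ι ⊕ κ) (ι ⊕ κ) ℂ} {e : (ι ⊕ κ → ℂ) → (ι ⊕ κ → ℂ)}
    (he : IsPrimitive (tot κ D) T.total g g' e) {v : κ → ℂ} (hv : v ∈ T.Λ) {x : ι ⊕ κ → ℂ} (hx : x ∈ tot κ D) :
    e (x + pt 0 v) = e x := by
  funext i
  have h1 : ∑ k, e (shift v x) k * jac (shift v) x k i = e x i := he.inv (shift v, tot κ D) (Or.inr ⟨v, hv, rfl⟩) x hx i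
  rw [jac_shift] at h1
  simp only [Matrix.one_apply, mul_ite, mul_one, mul_zero, Finset.sum_ite_eq', Finset.mem_univ, if_true] at h1
  exact h1

/-- Membership in the set of maps of the total space. -/
theorem total_cases {T : TorusData ι κ D G} {F : LMap (ι ⊕ κ)} (hF : F ∈ T.total) :
    (∃ γ, F = (T.F γ, tot κ (T.dom γ))) ∨ (∃ v ∈ T.Λ, F = (shift v, tot κ D)) := hF

end YV
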