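import Pool.Agent.Lib.MP_464db4_gt.YV.AvgA

/-!
# YV-AvgB: the average is constant along the fibres and invariant
For `x ∈ tot κ D` the function `a ↦ g (x + pt 0 a) i j` is continuous (`continuous_fibre`) and `Λ`-periodic: `g (shift v y) = g y` for `v ∈ Λ`, from `hg.inv (shift v)`
with `jac_shift` (`jac = 1`).  So `IsMean.mean` gives `avg_fibre`, and `isMean_unique` gives `avg_eq`.
Invariance under `T.F g`: with `J = jac (T.F g) x`, `A = T.A g`: `jac (T.F g) (x + pt 0 a) = J` (`jac_F`, it depends on `bas x` only),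
`T.F g (x + pt 0 a) = T.F g x + pt 0 (A a)`, so
`Jᵀ (avg μ g (F x)) J̄ = Jᵀ (∫ g(F x + pt 0 a) dμ) J̄ = Jᵀ (∫ g(F x + pt 0 (A a)) dμ) J̄` (`isMean_unique` for `μ` and `μ.map A`, `isMean_map`, `integral_map`)
`= ∫ Jᵀ g(F (x + pt 0 a)) J̄ dμ = ∫ g (x + pt 0 a) dμ`.
(Entrywise: `(Jᵀ M J̄) i j = ∑ k, ∑ l, J k i * M k l * conj (J l j)`, `integral_finsetSum`, `integral_const_mul`.)
-/

namespace YV

open Complex Matrix MeasureTheory
open scoped ContDiff ComplexConjugate ComplexOrder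

variable {ι κ : Type} [Fintype ι] [DecidableEq ι] [Fintype κ] [DecidableEq κ] {D : Set (ι → ℂ)} {G : Type}
  {T : TorusData ι κ D G} {μ : Measure (κ → ℂ)} {g : (ι ⊕ κ → ℂ) → Matrix (ι ⊕ κ) (ι ⊕ κ) ℂ}

theorem conj_entry {α β : Type} [Fintype α] [Fintype β] (J : Matrix α β ℂ) (M : Matrix α α ℂ) (i j : β) :
    (Jᵀ * M * mconj J) i j = ∑ k, ∑ l, J k i * M k l * conj (J l j) := by
  simp only [Matrix.mul_apply, Matrix.transpose_apply, mconj, Matrix.map_apply, Finset.sum_mul]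
  exact Finset.sum_comm

theorem periodic (hg : IsKahler (tot κ D) T.total g) {x : ι ⊕ κ → ℂ} (hx : x ∈ tot κ D) {v : κ → ℂ} (hv : v ∈ T.Λ) (a : κ → ℂ) :
    g (x + pt 0 (a + v)) = g (x + pt 0 a) := by
  have hy : x + pt 0 a ∈ tot κ D := add_mem_tot hx a
  have h3 : (x + pt 0 a) + pt 0 v = x + pt 0 (a + v) := by
    have h4 : (pt 0 (a + v) : ι ⊕ κ → ℂ) = pt 0 a + pt 0 v := by
      have h5 := pt_add (0 : ι → ℂ) 0 a v
      rwa [add_zero] at h5
    rw [h4, add_assoc]
  rw [← h3]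
  exact kahler_inv_shift hg hv hy

theorem avg_fibre (hD : IsOpen D) (hμ : IsMean T.Λ μ) (hg : IsKahler (tot κ D) T.total g) {x : ι ⊕ κ → ℂ} (hx : x ∈ tot κ D)
    (a : κ → ℂ) : avg μ g (x + pt 0 a) = avg μ g x := by
  ext i j
  have hu : Continuous (fun b : κ → ℂ => g (x + pt 0 b) i j) :=
    continuous_fibre (hg.smooth i j).continuousOn hx
  have hp : ∀ v ∈ T.Λ, ∀ b, g (x + pt 0 (b + v)) i j = g (x + pt 0 b) i j := by
    intro v hv b
    rw [periodic hg hx hv b]
  have h1 := hμ.mean (fun b => g (x + pt 0 b) i j) hu hp a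
  show ∫ b, g (x + pt 0 a + pt 0 b) i j ∂μ = ∫ b, g (x + pt 0 b) i j ∂μ
  rw [← h1]
  refine integral_congr_ae (Filter.Eventually.of_forall fun b => ?_)
  have h4 : (pt 0 (a + b) : ι ⊕ κ → ℂ) = pt 0 a + pt 0 b := by
    have h5 := pt_add (0 : ι → ℂ) 0 a b
    rwa [add_zero] at h5
  show g (x + pt 0 a + pt 0 b) i j = g (x + pt 0 (a + b)) i j
  rw [h4, add_assoc]

theorem avg_inv (hD : IsOpen D) (hμ : IsMean T.Λ μ) (hg : IsKahler (tot κ D) T.total g) :
    ∀ F ∈ T.total, ∀ x ∈ F.2, (jac F.1 x)ᵀ * avg μ g (F.1 x) * mconj (jac F.1 x) = avg μ g x := by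
  intro F hF x hx
  rcases hF with ⟨h, rfl⟩ | ⟨v, hv, rfl⟩
  · replace hx : x ∈ tot κ (T.dom h) := hx
    show (jac (T.F h) x)ᵀ * avg μ g (T.F h x) * mconj (jac (T.F h) x) = avg μ g x
    obtain ⟨J, hJ⟩ : ∃ J, J = jac (T.F h) x := ⟨_, rfl⟩
    rw [← hJ]
    have hFx : T.F h x ∈ tot κ D := F_mem_tot T h hx
    have hJa : ∀ a : κ → ℂ, jac (T.F h) (x + pt 0 a) = J := by
      intro a
      rw [hJ, jac_F T h (add_mem_tot hx a), jac_F T h hx, bas_add_pt]
    have hcont : ∀ k l, Continuous (fun a : κ → ℂ => g (T.F h x + pt 0 a) k l) := fun k l =>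
      continuous_fibre (hg.smooth k l).continuousOn hFx
    have hA : Continuous (fun a : κ → ℂ => T.A h *ᵥ a) := by
      exact Continuous.matrix_mulVec continuous_const continuous_id
    have hcontA : ∀ k l, Continuous (fun a : κ → ℂ => g (T.F h x + pt 0 (T.A h *ᵥ a)) k l) :=
      fun k l => (hcont k l).comp hA
    have hav : ∀ k l, avg μ g (T.F h x) k l = ∫ a, g (T.F h x + pt 0 (T.A h *ᵥ a)) k l ∂μ := by
      intro k l
      have h1 := isMean_unique hμ (isMean_map hμ T.span (T.A_pres h)) (hcont k l) (by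
        intro v hv a
        rw [periodic hg hFx hv a])
      rw [integral_map hA.aemeasurable (hcont k l).aestronglyMeasurable] at h1
      exact h1
    ext i j
    rw [conj_entry]
    have hint : ∀ k l, Integrable (fun a : κ → ℂ =>
        J k i * g (T.F h x + pt 0 (T.A h *ᵥ a)) k l * conj (J l j)) μ := fun k l =>
      ((hμ.integrable (hcontA k l)).const_mul _).mul_const _
    have h2 : ∀ k l, J k i * avg μ g (T.F h x) k l * conj (J l j) =
        ∫ a, J k i * g (T.F h x + pt 0 (T.A h *ᵥ a)) k l * conj (J l j) ∂μ := by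
      intro k l
      rw [hav, integral_mul_const, integral_const_mul]
    simp only [h2]
    have h3 : ∑ k, ∑ l, ∫ a, J k i * g (T.F h x + pt 0 (T.A h *ᵥ a)) k l * conj (J l j) ∂μ =
        ∫ a, ∑ k, ∑ l, J k i * g (T.F h x + pt 0 (T.A h *ᵥ a)) k l * conj (J l j) ∂μ := by
      rw [integral_finsetSum _ fun k _ => integrable_finsetSum _ fun l _ => hint k l]
      refine Finset.sum_congr rfl fun k _ => ?_
      rw [integral_finsetSum _ fun l _ => hint k l]
    rw [h3]
    show _ = ∫ a, g (x + pt 0 a) i j ∂μ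
    refine integral_congr_ae (Filter.Eventually.of_forall fun a => ?_)
    show ∑ k, ∑ l, J k i * g (T.F h x + pt 0 (T.A h *ᵥ a)) k l * conj (J l j) =
      g (x + pt 0 a) i j
    have h4 := kahler_inv_F hg h (add_mem_tot hx a)
    rw [hJa a, F_add] at h4
    rw [← conj_entry, h4]
  · replace hx : x ∈ tot κ D := hx
    show (jac (shift v) x)ᵀ * avg μ g (shift v x) * mconj (jac (shift v) x) = avg μ g x
    have h2 : mconj (1 : Matrix (ι ⊕ κ) (ι ⊕ κ) ℂ) = 1 := by
      unfold mconj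
      exact Matrix.map_one _ (map_zero _) (map_one _)
    rw [jac_shift, h2, Matrix.transpose_one, Matrix.one_mul, Matrix.mul_one]
    exact avg_fibre hD hμ hg hx v

theorem avg_isKahler (hD : IsOpen D) (hμ : IsMean T.Λ μ) (hg : IsKahler (tot κ D) T.total g) :
    IsKahler (tot κ D) T.total (avg μ g) := by
  exact ⟨avg_smooth hD hμ hg, fun x hx => avg_pos hD hμ hg hx,
    fun x hx i j k => avg_closed hD hμ hg hx i j k, avg_inv hD hμ hg⟩

end YV
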