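import Pool.Agent.Lib.MP_464db4_gt.YV.Blk

/-!
# YV-AvgE: the fibrewise average of a primitive
`avgE μ e x i = ∫ e (x + (0,a)) i dμ(a)`: an integral of ParB with `ν = μ`, `w = 1`, `v a = pt 0 a` (as in AvgA: `avg_smooth`, `avg_dz`; there the entries `g · i j`, here the components `e · i`;
only smoothness on `tot κ D` is used).  `e (x + pt 0 v) = e x` for `v ∈ Λ` (`he.inv (shift v)`, `jac_shift`), so `a ↦ e (x + pt 0 a) i` is continuous and `Λ`-periodic: `avgE_fibre` by `IsMean.mean`.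
* `sym`: `dz_mulTrans` and `he.sym` pointwise.
* `eq`: `dz i (conj avgE_j) = conj (dzbar i avgE_j) = conj ∫ dzbar i e_j (x + pt 0 a) = ∫ dz i (conj e_j) (x + pt 0 a)` (`integral_conj`), so the right side is
  `∫ (g' - g) (x + pt 0 a) i j dμ = (g' - g) x i j` (`FibreConst`, `μ` probability measure).
* `inv`: translations: as above.  `F = T.F γ`, `J = jac F x` (the same matrix at `x + pt 0 a`, `jac_F`), `F x + pt 0 (A a) = F (x + pt 0 a)` (`F_add`):
  `∑ k, (∫ e (F x + pt 0 a) k dμ) * J k i = ∑ k, (∫ e (F x + pt 0 (A a)) k dμ) * J k i` (`μ.map A = μ`, `integral_map`) `= ∫ ∑ k, e (F (x + pt 0 a)) k * J k i dμ = ∫ e (x + pt 0 a) i dμ`.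
-/

namespace YV

open Complex Matrix MeasureTheory
open scoped ContDiff ComplexConjugate ComplexOrder

variable {ι κ : Type} [Fintype ι] [DecidableEq ι] [Fintype κ] [DecidableEq κ] {D : Set (ι → ℂ)} {G : Type}
  {T : TorusData ι κ D G} {μ : Measure (κ → ℂ)} {g g' : (ι ⊕ κ → ℂ) → Matrix (ι ⊕ κ) (ι ⊕ κ) ℂ}
  {e : (ι ⊕ κ → ℂ) → (ι ⊕ κ → ℂ)}

/-- The average of a 1-form over the fibres. -/
noncomputable def avgE (μ : Measure (κ → ℂ)) (e : (ι ⊕ κ → ℂ) → (ι ⊕ κ → ℂ)) (x : ι ⊕ κ → ℂ) (i : ι ⊕ κ) : ℂ :=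
  ∫ a, e (x + pt 0 a) i ∂μ

private theorem avgE_compact (R : ℝ) :
    IsCompact ((fun a : κ → ℂ => (pt 0 a : ι ⊕ κ → ℂ)) '' Metric.closedBall (0 : κ → ℂ) R) :=
  (isCompact_closedBall (0 : κ → ℂ) R).image continuous_pt0

private theorem avgE_add (R : ℝ) : ∀ x ∈ (tot κ D : Set (ι ⊕ κ → ℂ)),
    ∀ c ∈ (fun a : κ → ℂ => (pt 0 a : ι ⊕ κ → ℂ)) '' Metric.closedBall (0 : κ → ℂ) R, x + c ∈ tot κ D := by
  rintro x hx _ ⟨a, _, rfl⟩
  exact add_mem_tot hx a

private theorem avgE_ae {R : ℝ} (hR : ∀ᵐ a ∂μ, ‖a‖ ≤ R) :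
    ∀ᵐ a ∂μ, (pt 0 a : ι ⊕ κ → ℂ) ∈ (fun a : κ → ℂ => (pt 0 a : ι ⊕ κ → ℂ)) '' Metric.closedBall (0 : κ → ℂ) R := by
  filter_upwards [hR] with a ha
  exact ⟨a, by simpa using ha, rfl⟩

private theorem avgE_meas : AEStronglyMeasurable (fun a : κ → ℂ => (pt 0 a : ι ⊕ κ → ℂ)) μ :=
  (continuous_pt0 (ι := ι)).aestronglyMeasurable

private theorem avgE_one {Λ : Submodule ℤ (κ → ℂ)} (hμ : IsMean Λ μ) : Integrable (fun _ : κ → ℂ => (1 : ℂ)) μ := by
  have := hμ.prob
  exact integrable_const _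

private theorem avgE_smooth (hD : IsOpen D) (hμ : IsMean T.Λ μ) (he : IsPrimitive (tot κ D) T.total g g' e) (i : ι ⊕ κ) :
    ContDiffOn ℝ ∞ (fun x => avgE μ e x i) (tot κ D) := by
  obtain ⟨R, hR⟩ := hμ.bdd
  have h := contDiffOn_mulTrans μ (isOpen_tot hD) (avgE_compact R) (avgE_add R) (avgE_meas (ι := ι)) (avgE_ae hR)
    (avgE_one hμ) (he.smooth i)
  simpa only [one_mul, avgE] using h

private theorem avgE_dz (hD : IsOpen D) (hμ : IsMean T.Λ μ) (he : IsPrimitive (tot κ D) T.total g g' e) {x : ι ⊕ κ → ℂ}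
    (hx : x ∈ tot κ D) (i k : ι ⊕ κ) :
    dz k (fun y => avgE μ e y i) x = ∫ a, dz k (fun y => e y i) (x + pt 0 a) ∂μ := by
  obtain ⟨R, hR⟩ := hμ.bdd
  have h := dz_mulTrans μ (isOpen_tot hD) (avgE_compact R) (avgE_add R) (avgE_meas (ι := ι)) (avgE_ae hR)
    (avgE_one hμ) (he.smooth i) hx k
  simpa only [one_mul, avgE] using h

private theorem avgE_dzbar (hD : IsOpen D) (hμ : IsMean T.Λ μ) (he : IsPrimitive (tot κ D) T.total g g' e) {x : ι ⊕ κ → ℂ}
    (hx : x ∈ tot κ D) (i k : ι ⊕ κ) :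
    dzbar k (fun y => avgE μ e y i) x = ∫ a, dzbar k (fun y => e y i) (x + pt 0 a) ∂μ := by
  obtain ⟨R, hR⟩ := hμ.bdd
  have h := dzbar_mulTrans μ (isOpen_tot hD) (avgE_compact R) (avgE_add R) (avgE_meas (ι := ι)) (avgE_ae hR)
    (avgE_one hμ) (he.smooth i) hx k
  simpa only [one_mul, avgE] using h

private theorem avgE_pt (a b : κ → ℂ) : (pt 0 (a + b) : ι ⊕ κ → ℂ) = pt 0 a + pt 0 b := by
  have h5 := pt_add (0 : ι → ℂ) 0 a b
  rwa [add_zero] at h5

private theorem avgE_per (he : IsPrimitive (tot κ D) T.total g g' e) {x : ι ⊕ κ → ℂ} (hx : x ∈ tot κ D) {v : κ → ℂ}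
    (hv : v ∈ T.Λ) (a : κ → ℂ) (i : ι ⊕ κ) : e (x + pt 0 (a + v)) i = e (x + pt 0 a) i := by
  have hy : x + pt 0 a ∈ tot κ D := add_mem_tot hx a
  rw [avgE_pt, ← add_assoc, prim_inv_shift he hv hy]

theorem avgE_fibre (hD : IsOpen D) (hμ : IsMean T.Λ μ) (he : IsPrimitive (tot κ D) T.total g g' e) {x : ι ⊕ κ → ℂ}
    (hx : x ∈ tot κ D) (a : κ → ℂ) : avgE μ e (x + pt 0 a) = avgE μ e x := by
  funext i
  have hu : Continuous (fun b : κ → ℂ => e (x + pt 0 b) i) :=
    continuous_fibre (f := fun y => e y i) (he.smooth i).continuousOn hx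
  have h1 := hμ.mean (fun b => e (x + pt 0 b) i) hu (fun v hv b => avgE_per he hx hv b i) a
  show ∫ b, e (x + pt 0 a + pt 0 b) i ∂μ = ∫ b, e (x + pt 0 b) i ∂μ
  rw [← h1]
  refine integral_congr_ae (Filter.Eventually.of_forall fun b => ?_)
  show e (x + pt 0 a + pt 0 b) i = e (x + pt 0 (a + b)) i
  rw [avgE_pt, add_assoc]

private theorem avgE_inv (hD : IsOpen D) (hμ : IsMean T.Λ μ)
    (he : IsPrimitive (tot κ D) T.total g g' e) :
    ∀ F ∈ T.total, ∀ x ∈ F.2, ∀ i, ∑ k, avgE μ e (F.1 x) k * jac F.1 x k i = avgE μ e x i := by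
  intro F hF x hx i
  rcases hF with ⟨h, rfl⟩ | ⟨v, hv, rfl⟩
  · replace hx : x ∈ tot κ (T.dom h) := hx
    show ∑ k, avgE μ e (T.F h x) k * jac (T.F h) x k i = avgE μ e x i
    obtain ⟨J, hJ⟩ : ∃ J, J = jac (T.F h) x := ⟨_, rfl⟩
    rw [← hJ]
    have hFx : T.F h x ∈ tot κ D := F_mem_tot T h hx
    have hJa : ∀ a : κ → ℂ, jac (T.F h) (x + pt 0 a) = J := by
      intro a
      rw [hJ, jac_F T h (add_mem_tot hx a), jac_F T h hx, bas_add_pt]
    have hcont : ∀ k, Continuous (fun a : κ → ℂ => e (T.F h x + pt 0 a) k) := fun k =>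
      continuous_fibre (f := fun y => e y k) (he.smooth k).continuousOn hFx
    have hAc : Continuous (fun a : κ → ℂ => T.A h *ᵥ a) :=
      Continuous.matrix_mulVec continuous_const continuous_id
    have hcontA : ∀ k, Continuous (fun a : κ → ℂ => e (T.F h x + pt 0 (T.A h *ᵥ a)) k) :=
      fun k => (hcont k).comp hAc
    have hav : ∀ k, avgE μ e (T.F h x) k = ∫ a, e (T.F h x + pt 0 (T.A h *ᵥ a)) k ∂μ := by
      intro k
      have h1 := isMean_unique hμ (isMean_map hμ T.span (T.A_pres h)) (hcont k) (by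
        intro v hv a
        exact avgE_per he hFx hv a k)
      rw [integral_map hAc.aemeasurable (hcont k).aestronglyMeasurable] at h1
      exact h1
    have hint : ∀ k, Integrable (fun a : κ → ℂ => e (T.F h x + pt 0 (T.A h *ᵥ a)) k * J k i) μ := fun k =>
      (hμ.integrable (hcontA k)).mul_const _
    have h2 : ∀ k, avgE μ e (T.F h x) k * J k i =
        ∫ a, e (T.F h x + pt 0 (T.A h *ᵥ a)) k * J k i ∂μ := by
      intro k
      rw [hav, integral_mul_const]
    simp only [h2]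
    rw [← integral_finsetSum _ fun k _ => hint k]
    show _ = ∫ a, e (x + pt 0 a) i ∂μ
    refine integral_congr_ae (Filter.Eventually.of_forall fun a => ?_)
    have h4 := prim_inv_F he h (add_mem_tot hx a) i
    rw [hJa a, F_add] at h4
    exact h4
  · replace hx : x ∈ tot κ D := hx
    show ∑ k, avgE μ e (shift v x) k * jac (shift v) x k i = avgE μ e x i
    rw [jac_shift]
    simp only [Matrix.one_apply, mul_ite, mul_one, mul_zero, Finset.sum_ite_eq', Finset.mem_univ, if_true]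
    exact congrFun (avgE_fibre hD hμ he hx v) i

theorem avgE_isPrimitive (hD : IsOpen D) (hμ : IsMean T.Λ μ)
    (hc : FibreConst D g) (hc' : FibreConst D g') (he : IsPrimitive (tot κ D) T.total g g' e) :
    IsPrimitive (tot κ D) T.total g g' (avgE μ e) := by
  have hprob := hμ.prob
  refine ⟨avgE_smooth hD hμ he, avgE_inv hD hμ he, ?_, ?_⟩
  · intro x hx i j
    rw [avgE_dz hD hμ he hx j i, avgE_dz hD hμ he hx i j]
    exact integral_congr_ae (Filter.Eventually.of_forall fun a => he.sym _ (add_mem_tot hx a) i j)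
  · intro x hx i j
    have hc1 : Continuous (fun a : κ → ℂ => dz i (fun y => conj (e y j)) (x + pt 0 a)) :=
      continuous_fibre (f := fun y => dz i (fun y => conj (e y j)) y)
        (dz_contDiffOn (isOpen_tot hD) (conj_contDiffOn (he.smooth j)) i).continuousOn hx
    have hc2 : Continuous (fun a : κ → ℂ => dzbar j (fun y => e y i) (x + pt 0 a)) :=
      continuous_fibre (f := fun y => dzbar j (fun y => e y i) y)
        (dzbar_contDiffOn (isOpen_tot hD) (he.smooth i) j).continuousOn hx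
    have h1 : dz i (fun y => conj (avgE μ e y j)) x = ∫ a, dz i (fun y => conj (e y j)) (x + pt 0 a) ∂μ := by
      rw [dz_conj i (fun y => avgE μ e y j) x, avgE_dzbar hD hμ he hx j i, ← integral_conj]
      refine integral_congr_ae (Filter.Eventually.of_forall fun a => ?_)
      exact (dz_conj i (fun y => e y j) (x + pt 0 a)).symm
    rw [h1, avgE_dzbar hD hμ he hx i j, ← integral_sub (hμ.integrable hc1) (hμ.integrable hc2),
      ← integral_const_mul]
    have h2 : ∀ a : κ → ℂ, -I * (dz i (fun y => conj (e y j)) (x + pt 0 a) - dzbar j (fun y => e y i) (x + pt 0 a)) =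
        g' x i j - g x i j := by
      intro a
      rw [← he.eq _ (add_mem_tot hx a) i j, hc' x hx a, hc x hx a]
    rw [integral_congr_ae (Filter.Eventually.of_forall h2), integral_const]
    simp

end YV
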