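import Pool.Agent.Lib.MP_464db4_gt.YV.ExB
import Pool.Agent.Lib.MP_464db4_gt.YV.AvgB

/-!
# YV-Blk: block structure of a form which is constant along the fibres
`gm` Kaehler on `tot κ D` with `gm (x + pt 0 a) = gm x`.  So `gm x = gm (pt (bas x) 0)` (`x = pt (bas x) 0 + pt 0 (fib x)`), every entry is a function of `bas x`, and
`dz (inr k) (gm · i j) x = 0`, `dzbar (inr k) (gm · i j) x = 0` (`dz_bas_inr` or directly: the function is constant in these directions).
* `vert_dz`: `dz k (gm · (inr l) (inr m)) = dz (inr l) (gm · k (inr m)) = 0` for all `k` (closedness), `dzbar k (gm · (inr l) (inr m)) = dzbar (inr m) (gm · (inr l) k) = 0` (`closed_bar`),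
  so `fderiv = 0` on the open set (`fderiv_eq_zero`), and on the connected open `D` (apply to `b ↦ gm (pt b 0) (inr l) (inr m)`) the function is constant:
  `IsOpen.is_const_of_fderiv_eq_zero` (or `IsPreconnected`, `IsOpen.exists_is_const_of_fderiv_eq_zero`).
* mixed block `Θ i l = gm (pt b 0) (inl i) (inr l)`: `dzbar (inl j) (gm · (inl i) (inr l)) = dzbar (inr l) (gm · (inl i) (inl j)) = 0`; closedness gives `mixed_closed`.
* `vert_inv`: lower right block of `Jᵀ gm(F x) J̄ = gm x` with `J = fromBlocks f' 0 τ' A` (`jac_F`): `Aᵀ h Ā = h` (`fromBlocks_transpose`, `fromBlocks_multiply`, `fromBlocks_toBlocks`).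
-/

namespace YV

open Complex Matrix MeasureTheory
open scoped ContDiff ComplexConjugate ComplexOrder

variable {ι κ : Type} [Fintype ι] [DecidableEq ι] [Fintype κ] [DecidableEq κ] {D : Set (ι → ℂ)} {G : Type}
  {T : TorusData ι κ D G} {gm : (ι ⊕ κ → ℂ) → Matrix (ι ⊕ κ) (ι ⊕ κ) ℂ}

theorem FibreConst.eq_pt (hc : FibreConst D gm) {x : ι ⊕ κ → ℂ} (hx : x ∈ tot κ D) : gm x = gm (pt (bas x) 0) := by
  have hx' : bas x ∈ D := hx
  have hx2 : (pt (bas x) 0 : ι ⊕ κ → ℂ) ∈ tot κ D := pt_mem_tot hx' (0 : κ → ℂ)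
  have h := hc (pt (bas x) 0) hx2 (fib x)
  rw [← pt_add, add_zero, zero_add, pt_bas_fib] at h
  exact h

theorem diff_entry (hD : IsOpen D) {S : Set (LMap (ι ⊕ κ))} (hg : IsKahler (tot κ D) S gm)
    {x : ι ⊕ κ → ℂ} (hx : x ∈ tot κ D) (i j : ι ⊕ κ) : DifferentiableAt ℝ (fun y => gm y i j) x :=
  (((hg.smooth i j).differentiableOn (by simp)) x hx).differentiableAt ((isOpen_tot hD).mem_nhds hx)

theorem diff_base {S : Set (LMap (ι ⊕ κ))} (hg : IsKahler (tot κ D) S gm)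
    (i j : ι ⊕ κ) : DifferentiableOn ℝ (fun b => gm (pt b 0) i j) D :=
  (contDiffOn_pt (f := fun y => gm y i j) (hg.smooth i j)).differentiableOn (by simp)

theorem dz_inr_zero (hD : IsOpen D) {S : Set (LMap (ι ⊕ κ))} (hg : IsKahler (tot κ D) S gm)
    (hc : FibreConst D gm) {x : ι ⊕ κ → ℂ} (hx : x ∈ tot κ D) (i j : ι ⊕ κ) (k : κ) :
    dz (Sum.inr k) (fun y => gm y i j) x = 0 := by
  rw [dz_congr_on (isOpen_tot hD) (h := fun y => (fun b => gm (pt b 0) i j) (bas y))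
    (fun y hy => by rw [hc.eq_pt hy]) hx]
  exact dz_bas_inr (f := fun b => gm (pt b 0) i j)
    (((diff_base hg i j) (bas x) hx).differentiableAt (hD.mem_nhds hx)) k

theorem dzbar_inr_zero (hD : IsOpen D) {S : Set (LMap (ι ⊕ κ))} (hg : IsKahler (tot κ D) S gm)
    (hc : FibreConst D gm) {x : ι ⊕ κ → ℂ} (hx : x ∈ tot κ D) (i j : ι ⊕ κ) (k : κ) :
    dzbar (Sum.inr k) (fun y => gm y i j) x = 0 := by
  rw [dzbar_congr_on (isOpen_tot hD) (h := fun y => (fun b => gm (pt b 0) i j) (bas y))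
    (fun y hy => by rw [hc.eq_pt hy]) hx]
  exact dzbar_bas_inr (f := fun b => gm (pt b 0) i j)
    (((diff_base hg i j) (bas x) hx).differentiableAt (hD.mem_nhds hx)) k

theorem vert_fderiv (hD : IsOpen D) {S : Set (LMap (ι ⊕ κ))} (hg : IsKahler (tot κ D) S gm)
    (hc : FibreConst D gm) {b : ι → ℂ} (hb : b ∈ D) (l m : κ) :
    fderiv ℝ (fun b => gm (pt b 0) (Sum.inr l) (Sum.inr m)) b = 0 := by
  have hx : pt b 0 ∈ tot κ D := pt_mem_tot hb 0
  refine fderiv_eq_zero (fun k => ?_) (fun k => ?_)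
  · rw [dz_pt (f := fun y => gm y (Sum.inr l) (Sum.inr m)) (diff_entry hD hg hx _ _),
      hg.closed _ hx]
    exact dz_inr_zero hD hg hc hx _ _ _
  · rw [dzbar_pt (f := fun y => gm y (Sum.inr l) (Sum.inr m)) (diff_entry hD hg hx _ _),
      closed_bar (isOpen_tot hD) hg hx]
    exact dzbar_inr_zero hD hg hc hx _ _ _

/-- The vertical block is positive definite. -/
theorem vert_pos {S : Set (LMap (ι ⊕ κ))} (hg : IsKahler (tot κ D) S gm) {b : ι → ℂ} (hb : b ∈ D) :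
    ((gm (pt b 0)).toBlocks₂₂).PosDef :=
  (hg.pos _ (pt_mem_tot hb 0)).submatrix Sum.inr_injective

/-- The vertical block is locally constant. -/
theorem vert_loc (hD : IsOpen D) {S : Set (LMap (ι ⊕ κ))} (hg : IsKahler (tot κ D) S gm) (hc : FibreConst D gm) {b : ι → ℂ}
    (hb : b ∈ D) : ∃ V : Set (ι → ℂ), IsOpen V ∧ b ∈ V ∧ V ⊆ D ∧
      ∀ b' ∈ V, (gm (pt b' 0)).toBlocks₂₂ = (gm (pt b 0)).toBlocks₂₂ := by
  obtain ⟨r, hr, hV⟩ := Metric.isOpen_iff.1 hD b hb
  refine ⟨Metric.ball b r, Metric.isOpen_ball, Metric.mem_ball_self hr, hV, fun b' hb' => ?_⟩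
  ext l m
  exact Metric.isOpen_ball.is_const_of_fderiv_eq_zero (convex_ball b r).isPreconnected
    ((diff_base hg (Sum.inr l) (Sum.inr m)).mono hV)
    (fun y hy => vert_fderiv hD hg hc (hV hy) l m) hb' (Metric.mem_ball_self hr)

/-- The transformation of the vertical block. -/
theorem vert_inv (hg : IsKahler (tot κ D) T.total gm) (hc : FibreConst D gm) (γ : G) {b : ι → ℂ} (hb : b ∈ T.dom γ) :
    (T.A γ)ᵀ * (gm (pt (T.f γ b) 0)).toBlocks₂₂ * mconj (T.A γ) = (gm (pt b 0)).toBlocks₂₂ := by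
  have hx0 : (pt b 0 : ι ⊕ κ → ℂ) ∈ tot κ (T.dom γ) := pt_mem_tot hb 0
  have hF : T.F γ (pt b 0) ∈ tot κ D := F_mem_tot T γ hx0
  have hi := kahler_inv_F hg γ hx0
  rw [jac_F T γ hx0] at hi
  have h22 := congrArg Matrix.toBlocks₂₂ hi
  refine Eq.trans ?_ h22
  have e1 : gm (pt (T.f γ b) 0) = gm (T.F γ (pt b 0)) := by
    rw [hc.eq_pt hF, bas_F, bas_pt]
  rw [e1]
  generalize gm (T.F γ (pt b 0)) = M
  conv_rhs => rw [← fromBlocks_toBlocks M]
  rw [mconj, mconj, fromBlocks_map, fromBlocks_transpose, fromBlocks_multiply, fromBlocks_multiply,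
    toBlocks_fromBlocks₂₂]
  simp

/-- The mixed block is holomorphic. -/
theorem mixed_bar (hD : IsOpen D) (hg : IsKahler (tot κ D) T.total gm) (hc : FibreConst D gm) {b : ι → ℂ} (hb : b ∈ D)
    (i j : ι) (l : κ) : dzbar j (fun b => gm (pt b 0) (Sum.inl i) (Sum.inr l)) b = 0 := by
  have hx : pt b 0 ∈ tot κ D := pt_mem_tot hb 0
  rw [dzbar_pt (f := fun y => gm y (Sum.inl i) (Sum.inr l)) (diff_entry hD hg hx _ _),
    closed_bar (isOpen_tot hD) hg hx]
  exact dzbar_inr_zero hD hg hc hx _ _ _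

/-- The columns of the mixed block are closed holomorphic 1-forms. -/
theorem mixed_closed (hD : IsOpen D) (hg : IsKahler (tot κ D) T.total gm) {b : ι → ℂ} (hb : b ∈ D)
    (i k : ι) (l : κ) : dz k (fun b => gm (pt b 0) (Sum.inl i) (Sum.inr l)) b = dz i (fun b => gm (pt b 0) (Sum.inl k) (Sum.inr l)) b := by
  have hx : pt b 0 ∈ tot κ D := pt_mem_tot hb 0
  rw [dz_pt (f := fun y => gm y (Sum.inl i) (Sum.inr l)) (diff_entry hD hg hx _ _),
    dz_pt (f := fun y => gm y (Sum.inl k) (Sum.inr l)) (diff_entry hD hg hx _ _)]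
  exact hg.closed _ hx _ _ _

/-- The base block is closed. -/
theorem base_closed (hD : IsOpen D) (hg : IsKahler (tot κ D) T.total gm) {b : ι → ℂ} (hb : b ∈ D)
    (i j k : ι) : dz k (fun b => gm (pt b 0) (Sum.inl i) (Sum.inl j)) b = dz i (fun b => gm (pt b 0) (Sum.inl k) (Sum.inl j)) b := by
  have hx : pt b 0 ∈ tot κ D := pt_mem_tot hb 0
  rw [dz_pt (f := fun y => gm y (Sum.inl i) (Sum.inl j)) (diff_entry hD hg hx _ _),
    dz_pt (f := fun y => gm y (Sum.inl k) (Sum.inl j)) (diff_entry hD hg hx _ _)]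
  exact hg.closed _ hx _ _ _

end YV
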