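import Pool.Agent.Lib.MP_464db4_gt.YV.PoiA
import Pool.Agent.Lib.MP_464db4_gt.YV.Mob

/-!
# YV-PoiB: transfer to the half plane in `ℂ^1`
`pl (s,t) = fun _ => s + t i` is a real-linear homeomorphism `ℝ × ℝ → (Unit → ℂ)`.  A compact `K ⊆ halfPlane` is contained in `pl '' ([a,b] × [c,d])` with `c > 0` (and `a < b`).  Apply
`poincare_R2` to `F ∘ pl`, `φ (pl s) = p s - q s * I`, i.e. `φ x = p (re x, im x) - q (re x, im x) * I`.  Then
`2 * dzbar () φ = ∂_x φ + I ∂_y φ` has imaginary part `-∂_x q + ∂_y p`, so `-2 * im (dzbar () φ) = ∂_x q - ∂_y p = F`.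
-/

namespace YV

open Complex Matrix MeasureTheory
open scoped ContDiff ComplexConjugate ComplexOrder

/-- Real coordinates of `ℂ^1`. -/
def pl (s : ℝ × ℝ) : Unit → ℂ := fun _ => ⟨s.1, s.2⟩

/-- The real coordinates as a continuous linear map. -/
noncomputable def rcL : (Unit → ℂ) →L[ℝ] ℝ × ℝ :=
  (Complex.reCLM.comp (ContinuousLinearMap.proj (R := ℝ) (φ := fun _ : Unit => ℂ) ())).prod
    (Complex.imCLM.comp (ContinuousLinearMap.proj (R := ℝ) (φ := fun _ : Unit => ℂ) ()))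

theorem rcL_apply (x : Unit → ℂ) : rcL x = ((x ()).re, (x ()).im) := rfl

theorem rcL_pl (s : ℝ × ℝ) : rcL (pl s) = s := rfl

theorem pl_rcL (x : Unit → ℂ) : pl (rcL x) = x := by
  funext u
  cases u
  rfl

theorem contDiff_pl : ContDiff ℝ ∞ pl := by
  rw [contDiff_pi]
  intro _
  exact Complex.equivRealProdCLM.symm.contDiff

theorem exists_rect {K : Set (Unit → ℂ)} (hK : IsCompact K) (hKH : K ⊆ halfPlane) :
    ∃ a b c d : ℝ, a < b ∧ 0 < c ∧ ∀ x ∈ K, rcL x ∈ Set.Icc a b ×ˢ Set.Icc c d := by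
  rcases K.eq_empty_or_nonempty with rfl | hne
  · exact ⟨0, 1, 1, 1, by norm_num, by norm_num, fun x hx => hx.elim⟩
  have c1 : Continuous fun x : Unit → ℂ => (rcL x).1 := continuous_fst.comp rcL.continuous
  have c2 : Continuous fun x : Unit → ℂ => (rcL x).2 := continuous_snd.comp rcL.continuous
  obtain ⟨x1, _, h1⟩ := hK.exists_isMinOn hne c1.continuousOn
  obtain ⟨x2, _, h2⟩ := hK.exists_isMaxOn hne c1.continuousOn
  obtain ⟨x3, hx3, h3⟩ := hK.exists_isMinOn hne c2.continuousOn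
  obtain ⟨x4, _, h4⟩ := hK.exists_isMaxOn hne c2.continuousOn
  refine ⟨(rcL x1).1, (rcL x2).1 + 1, (rcL x3).2, (rcL x4).2, ?_, hKH hx3, fun x hx => ?_⟩
  · obtain ⟨y, hy⟩ := hne
    have e1 := isMinOn_iff.1 h1 y hy
    have e2 := isMaxOn_iff.1 h2 y hy
    linarith
  · have e1 := isMinOn_iff.1 h1 x hx
    have e2 := isMaxOn_iff.1 h2 x hx
    have e3 := isMinOn_iff.1 h3 x hx
    have e4 := isMaxOn_iff.1 h4 x hx
    exact ⟨⟨e1, by linarith⟩, ⟨e3, e4⟩⟩

theorem rcL_single_one : rcL (Pi.single () 1) = (1, 0) := by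
  rw [rcL_apply]; simp

theorem rcL_single_I : rcL (Pi.single () I) = (0, 1) := by
  rw [rcL_apply]; simp

theorem poincare_half {F : (Unit → ℂ) → ℝ} (hF : ContDiff ℝ ∞ F) {K : Set (Unit → ℂ)} (hK : IsCompact K) (hKH : K ⊆ halfPlane)
    (hsupp : ∀ x, x ∉ K → F x = 0) (h0 : ∫ s, F (pl s) = 0) :
    ∃ φ : (Unit → ℂ) → ℂ, ContDiff ℝ ∞ φ ∧ (∃ K' : Set (Unit → ℂ), IsCompact K' ∧ K' ⊆ halfPlane ∧ ∀ x, x ∉ K' → φ x = 0) ∧
      ∀ x, -2 * (dzbar () φ x).im = F x := by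
  obtain ⟨a, b, c, d, hab, hc, hrect⟩ := exists_rect hK hKH
  obtain ⟨p, q, hp, hq, hpq, heq⟩ := poincare_R2 (F := fun s => F (pl s)) (hF.comp contDiff_pl)
    hab (fun s hs => hsupp _ fun h => hs (by have := hrect _ h; rwa [rcL_pl] at this)) h0
  have hφ : ContDiff ℝ ∞ fun x : Unit → ℂ => ((p (rcL x) : ℝ) : ℂ) - ((q (rcL x) : ℝ) : ℂ) * I := by
    apply ContDiff.sub
    · exact Complex.ofRealCLM.contDiff.comp (hp.comp rcL.contDiff)
    · exact (Complex.ofRealCLM.contDiff.comp (hq.comp rcL.contDiff)).mul contDiff_const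
  refine ⟨_, hφ, ⟨pl '' (Set.Icc a b ×ˢ Set.Icc c d),
    (isCompact_Icc.prod isCompact_Icc).image contDiff_pl.continuous, ?_, ?_⟩, ?_⟩
  · rintro _ ⟨s, hs, rfl⟩
    exact hc.trans_le hs.2.1
  · intro x hx
    have h1 : rcL x ∉ Set.Icc a b ×ˢ Set.Icc c d := fun h => hx ⟨rcL x, h, pl_rcL x⟩
    obtain ⟨h2, h3⟩ := hpq _ h1
    simp only [h2, h3]
    simp
  · intro x
    have dp : HasFDerivAt p (fderiv ℝ p (rcL x)) (rcL x) :=
      (hp.differentiable (by simp)).differentiableAt.hasFDerivAt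
    have dq : HasFDerivAt q (fderiv ℝ q (rcL x)) (rcL x) :=
      (hq.differentiable (by simp)).differentiableAt.hasFDerivAt
    have dp2 : HasFDerivAt (fun y : Unit → ℂ => ((p (rcL y) : ℝ) : ℂ))
        (Complex.ofRealCLM.comp ((fderiv ℝ p (rcL x)).comp rcL)) x :=
      Complex.ofRealCLM.hasFDerivAt.comp x (dp.comp x rcL.hasFDerivAt)
    have dq2 : HasFDerivAt (fun y : Unit → ℂ => ((q (rcL y) : ℝ) : ℂ))
        (Complex.ofRealCLM.comp ((fderiv ℝ q (rcL x)).comp rcL)) x :=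
      Complex.ofRealCLM.hasFDerivAt.comp x (dq.comp x rcL.hasFDerivAt)
    have dφ := dp2.sub (dq2.mul_const I)
    have key : ∀ v, fderiv ℝ (fun x : Unit → ℂ => ((p (rcL x) : ℝ) : ℂ) - ((q (rcL x) : ℝ) : ℂ) * I) x v =
        ((fderiv ℝ p (rcL x) (rcL v) : ℝ) : ℂ) - ((fderiv ℝ q (rcL x) (rcL v) : ℝ) : ℂ) * I := by
      intro v
      have e2 : fderiv ℝ (fun x : Unit → ℂ => ((p (rcL x) : ℝ) : ℂ) - ((q (rcL x) : ℝ) : ℂ) * I) x =
        (Complex.ofRealCLM.comp ((fderiv ℝ p (rcL x)).comp rcL)) -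
          I • (Complex.ofRealCLM.comp ((fderiv ℝ q (rcL x)).comp rcL)) := dφ.fderiv
      rw [e2]
      simp [mul_comm]
    rw [dzbar, key, key, rcL_single_one, rcL_single_I]
    have h1 := heq (rcL x)
    simp only [pl_rcL] at h1
    rw [h1]
    simp only [Complex.div_im, Complex.add_im, Complex.sub_im, Complex.mul_im, Complex.ofReal_re, Complex.ofReal_im,
      Complex.I_re, Complex.I_im, Complex.add_re, Complex.sub_re, Complex.mul_re]
    norm_num
    ring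

end YV
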