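import Pool.Agent.Lib.MP_464db4_gt.YV.Part
import Pool.Agent.Lib.MP_464db4_gt.YV.PoiB
import Pool.Agent.Lib.MP_464db4_gt.YV.SumE
import Pool.Agent.Lib.MP_464db4_gt.YV.Hyp

/-!
# YV-Curve: compact hyperbolic curves
-/

namespace YV

open Complex Matrix MeasureTheory
open scoped ContDiff ComplexConjugate ComplexOrder

variable {Γ : Subgroup (Matrix.SpecialLinearGroup (Fin 2) ℝ)} {g : (Unit → ℂ) → Matrix Unit Unit ℂ}

private theorem g_real (hg : IsKahler halfPlane (mobs Γ) g) {x : Unit → ℂ} (hx : x ∈ halfPlane) :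
    (((g x () ()).re : ℝ) : ℂ) = g x () () := by
  have h1 := (hg.pos x hx).isHermitian.apply () ()
  exact Complex.conj_eq_iff_re.mp h1

private theorem g_pos (hg : IsKahler halfPlane (mobs Γ) g) {x : Unit → ℂ} (hx : x ∈ halfPlane) :
    0 < (g x () ()).re := by
  have h1 : 0 < g x () () := (hg.pos x hx).diag_pos
  exact (Complex.pos_iff.mp h1).1

private theorem g_inv (hg : IsKahler halfPlane (mobs Γ) g) {γ : Matrix.SpecialLinearGroup (Fin 2) ℝ} (hγ : γ ∈ Γ)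
    {x : Unit → ℂ} (hx : x ∈ halfPlane) : (g (mob γ x) () ()).re * ‖mj γ x‖ ^ 2 = (g x () ()).re := by
  have h1 : (jac (mob γ) x)ᵀ * g (mob γ x) * mconj (jac (mob γ) x) = g x := hg.inv (mob γ, halfPlane) ⟨γ, hγ, rfl⟩ x hx
  have h2 := congrFun (congrFun h1 ()) ()
  rw [Matrix.mul_apply, Fintype.sum_unique, Matrix.mul_apply, Fintype.sum_unique] at h2
  have h3 : mj γ x * g (mob γ x) () () * conj (mj γ x) = g x () () := by
    rw [← jac_mob γ hx () ()]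
    exact h2
  have h4 : mj γ x * g (mob γ x) () () * conj (mj γ x) =
      g (mob γ x) () () * ((‖mj γ x‖ ^ 2 : ℝ) : ℂ) := by
    have h5 := Complex.mul_conj' (mj γ x)
    push_cast
    rw [← h5]
    ring
  rw [h4] at h3
  rw [← h3, Complex.re_mul_ofReal]

private theorem cut_smooth {χ : (Unit → ℂ) → ℝ} (hχ : ContDiff ℝ ∞ χ) {K : Set (Unit → ℂ)} (hK : IsCompact K)
    (h0 : ∀ x, x ∉ K → χ x = 0) (hKH : K ⊆ halfPlane) {h : (Unit → ℂ) → ℝ} (hh : ContDiffOn ℝ ∞ h halfPlane) :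
    ContDiff ℝ ∞ fun x => χ x * h x := by
  rw [contDiff_iff_contDiffAt]
  intro x
  by_cases hx : x ∈ halfPlane
  · exact hχ.contDiffAt.mul (hh.contDiffAt (isOpen_halfPlane.mem_nhds hx))
  · have hxK : x ∈ Kᶜ := fun h' => hx (hKH h')
    have e : (fun x => χ x * h x) =ᶠ[nhds x] fun _ => (0 : ℝ) := by
      filter_upwards [hK.isClosed.isOpen_compl.mem_nhds hxK] with y hy
      rw [h0 y hy, zero_mul]
    exact contDiffAt_const.congr_of_eventuallyEq e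

private theorem pl_cont : Continuous pl := by
  unfold pl
  refine continuous_pi fun _ => ?_
  exact Complex.equivRealProdCLM.symm.continuous

private theorem pl_surj (x : Unit → ℂ) : pl ((x ()).re, (x ()).im) = x := by
  funext i
  cases i
  exact Complex.eta _

private theorem cut_comp {χ : (Unit → ℂ) → ℝ} {K : Set (Unit → ℂ)} (hK : IsCompact K)
    (h0 : ∀ x, x ∉ K → χ x = 0) (h : (Unit → ℂ) → ℝ) : HasCompactSupport fun s : ℝ × ℝ => χ (pl s) * h (pl s) := by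
  have hq : Continuous fun x : Unit → ℂ => ((x ()).re, (x ()).im) :=
    (Complex.continuous_re.comp (continuous_apply ())).prodMk (Complex.continuous_im.comp (continuous_apply ()))
  refine HasCompactSupport.intro (hK.image hq) fun s hs => ?_
  have h1 : pl s ∉ K := fun h' => hs ⟨pl s, h', rfl⟩
  rw [h0 _ h1, zero_mul]

private theorem cut_pos {χ : (Unit → ℂ) → ℝ} (hχ : ContDiff ℝ ∞ χ) {K : Set (Unit → ℂ)} (hK : IsCompact K)
    (h0 : ∀ x, x ∉ K → χ x = 0) (hKH : K ⊆ halfPlane) (hn : ∀ x, 0 ≤ χ x) {x₀ : Unit → ℂ} (hx₀ : x₀ ∈ halfPlane)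
    (hp : 0 < χ x₀) {h : (Unit → ℂ) → ℝ} (hh : ContDiffOn ℝ ∞ h halfPlane) (hpos : ∀ x ∈ halfPlane, 0 < h x) :
    0 < ∫ s : ℝ × ℝ, χ (pl s) * h (pl s) := by
  have hc : Continuous fun s : ℝ × ℝ => χ (pl s) * h (pl s) :=
    (cut_smooth hχ hK h0 hKH hh).continuous.comp pl_cont
  refine hc.integral_pos_of_hasCompactSupport_nonneg_nonzero (cut_comp hK h0 h) (fun s => ?_)
    (x := ((x₀ ()).re, (x₀ ()).im)) ?_
  · by_cases hs : pl s ∈ K
    · exact mul_nonneg (hn _) (hpos _ (hKH hs)).le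
    · show 0 ≤ χ (pl s) * h (pl s)
      rw [h0 _ hs, zero_mul]
  · show χ (pl _) * h (pl _) ≠ 0
    rw [pl_surj]
    exact (mul_pos hp (hpos _ hx₀)).ne'

private theorem cut_int {χ : (Unit → ℂ) → ℝ} (hχ : ContDiff ℝ ∞ χ) {K : Set (Unit → ℂ)} (hK : IsCompact K)
    (h0 : ∀ x, x ∉ K → χ x = 0) (hKH : K ⊆ halfPlane) {h : (Unit → ℂ) → ℝ} (hh : ContDiffOn ℝ ∞ h halfPlane) :
    Integrable fun s : ℝ × ℝ => χ (pl s) * h (pl s) :=
  ((cut_smooth hχ hK h0 hKH hh).continuous.comp pl_cont).integrable_of_hasCompactSupport (cut_comp hK h0 h)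

private theorem im_smooth : ContDiffOn ℝ ∞ (fun x : Unit → ℂ => 1 / (x ()).im ^ 2) halfPlane := by
  have h1 : ContDiff ℝ ∞ fun x : Unit → ℂ => (x ()).im :=
    Complex.imCLM.contDiff.comp (contDiff_apply ℝ ℂ ())
  exact contDiffOn_const.div (h1.pow 2).contDiffOn fun x hx => pow_ne_zero 2 (ne_of_gt hx)

theorem exists_const (hΓ : CocompactFuchsian Γ) (hg : IsKahler halfPlane (mobs Γ) g) :
    ∃ c : ℝ, 0 < c ∧ ∃ φ : (Unit → ℂ) → ℂ, ContDiff ℝ ∞ φ ∧ (∃ K : Set (Unit → ℂ), IsCompact K ∧ K ⊆ halfPlane ∧ ∀ x, x ∉ K → φ x = 0) ∧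
      ∀ x ∈ halfPlane, ∑ᶠ γ : Γ, (-2 * (dzbar () φ (mob γ x)).im) * ‖mj γ x‖ ^ 2 = c / (x ()).im ^ 2 - (g x () ()).re := by
  obtain ⟨χ, hχ, ⟨K, hK, hKH, h0⟩, hn, ⟨x₀, hx₀, hp⟩, hsum⟩ := exists_partition hΓ
  have hu : ContDiffOn ℝ ∞ (fun x : Unit → ℂ => (g x () ()).re) halfPlane :=
    Complex.reCLM.contDiff.comp_contDiffOn (hg.smooth () ())
  set A := ∫ s : ℝ × ℝ, χ (pl s) * (g (pl s) () ()).re with hA
  set B := ∫ s : ℝ × ℝ, χ (pl s) * (1 / ((pl s) ()).im ^ 2) with hB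
  have hAp : 0 < A := cut_pos hχ hK h0 hKH hn hx₀ hp hu fun x hx => g_pos hg hx
  have hBp : 0 < B := cut_pos hχ hK h0 hKH hn hx₀ hp im_smooth fun x hx => by
    have h1 : 0 < (x ()).im := hx
    positivity
  set c := A / B with hc
  have hF : ContDiff ℝ ∞ fun x : Unit → ℂ => χ x * (c * (1 / (x ()).im ^ 2) - (g x () ()).re) :=
    cut_smooth hχ hK h0 hKH ((contDiffOn_const.mul im_smooth).sub hu)
  have hint : ∫ s : ℝ × ℝ, χ (pl s) * (c * (1 / ((pl s) ()).im ^ 2) - (g (pl s) () ()).re) = 0 := by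
    have e : (fun s : ℝ × ℝ => χ (pl s) * (c * (1 / ((pl s) ()).im ^ 2) - (g (pl s) () ()).re)) =
        fun s => c * (χ (pl s) * (1 / ((pl s) ()).im ^ 2)) - χ (pl s) * (g (pl s) () ()).re := by
      funext s
      ring
    rw [e, integral_sub ((cut_int hχ hK h0 hKH im_smooth).const_mul c) (cut_int hχ hK h0 hKH hu),
      integral_const_mul, ← hA, ← hB, hc, div_mul_cancel₀ _ hBp.ne', sub_self]
  obtain ⟨φ, hφ, hφK, hφF⟩ := poincare_half hF hK hKH (fun x hx => by rw [h0 x hx, zero_mul]) hint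
  refine ⟨c, div_pos hAp hBp, φ, hφ, hφK, fun x hx => ?_⟩
  have hx' : 0 < (x ()).im := hx
  have e : ∀ γ : Γ, (-2 * (dzbar () φ (mob γ x)).im) * ‖mj γ x‖ ^ 2 =
      χ (mob γ x) * (c / (x ()).im ^ 2 - (g x () ()).re) := by
    intro γ
    have hm : 0 < ‖mj γ x‖ := norm_pos_iff.mpr (mj_ne γ hx)
    rw [hφF, im_mob γ hx, ← g_inv hg γ.2 hx]
    field_simp
  rw [finsum_congr e, ← finsum_mul]
  have h1 : ∑ᶠ γ : Γ, χ (mob γ x) = 1 := by
    have h2 := hsum x hx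
    have h3 := Complex.ofRealHom.toAddMonoidHom.map_finsum_of_injective Complex.ofReal_injective
      (fun γ : Γ => χ (mob γ x))
    have h4 : ((∑ᶠ γ : Γ, χ (mob γ x) : ℝ) : ℂ) = ((1 : ℝ) : ℂ) := by
      rw [Complex.ofReal_one, ← h2]
      exact h3
    exact Complex.ofReal_injective h4
  rw [h1, one_mul]

theorem curve (hΓ : CocompactFuchsian Γ) : EveryClassCscK halfPlane (mobs Γ) := by
  intro g hg
  obtain ⟨c, hc, φ, hφ, ⟨K, hK, hKH, h0⟩, hφF⟩ := exists_const hΓ hg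
  refine ⟨hyp c, hyp_isKahler Γ hc, ⟨fun x _ => sumE Γ φ x, ?_, ?_, ?_, ?_⟩, -1 / (2 * c), fun x hx => scal_hyp hc hx⟩
  · intro i
    exact sumE_smooth hΓ hφ hK hKH h0
  · rintro F ⟨δ, hδ, rfl⟩ x hx i
    replace hx : x ∈ halfPlane := hx
    show ∑ k : Unit, sumE Γ φ (mob δ x) * jac (mob δ) x k i = sumE Γ φ x
    rw [Fintype.sum_unique, jac_mob δ hx]
    exact sumE_inv hΓ hK hKH h0 hδ hx
  · intro x hx i j
    rfl
  · intro x hx i j
    have h1 := sumE_dzbar hΓ hφ hK hKH h0 hx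
    rw [hφF x hx] at h1
    cases i
    cases j
    rw [dz_conj]
    have h2 : -I * (conj (dzbar () (sumE Γ φ) x) - dzbar () (sumE Γ φ) x) =
        ((-2 * (dzbar () (sumE Γ φ) x).im : ℝ) : ℂ) := by
      apply Complex.ext <;> simp
      ring
    refine Eq.trans ?_ h2.symm
    rw [h1, ← g_real hg hx]
    simp [hyp]

end YV
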