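import Mathlib

/-!
# Kaehler metrics on an open subset of `ℂ^ι`, invariant under a set of holomorphic maps

A complex manifold is described by an open subset `U` of `ℂ^ι` and a set `S` of holomorphic maps between open subsets of `U`
(either `U` is the disjoint union of the images of the charts and `S` consists of the changes of coordinates, or `U` is a covering
and `S` consists of the covering transformations).  A Kaehler form `ω = i ∑ g_ij dz_i ∧ dz̄_j` is given by its coefficient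
matrix `g`.
-/

namespace YV

open Complex Matrix MeasureTheory
open scoped ContDiff ComplexConjugate ComplexOrder

/-- The Wirtinger derivative `∂f/∂z_i`. -/
noncomputable def dz {ι : Type} [Fintype ι] [DecidableEq ι] (i : ι) (f : (ι → ℂ) → ℂ) (x : ι → ℂ) : ℂ :=
  (fderiv ℝ f x (Pi.single i 1) - I * fderiv ℝ f x (Pi.single i I)) / 2

/-- The Wirtinger derivative `∂f/∂z̄_i`. -/
noncomputable def dzbar {ι : Type} [Fintype ι] [DecidableEq ι] (i : ι) (f : (ι → ℂ) → ℂ) (x : ι → ℂ) : ℂ :=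
  (fderiv ℝ f x (Pi.single i 1) + I * fderiv ℝ f x (Pi.single i I)) / 2

/-- The Jacobian matrix `(∂F_k/∂z_i)` of a (holomorphic) map `F`. -/
noncomputable def jac {ι κ : Type} [Fintype ι] [DecidableEq ι] (F : (ι → ℂ) → (κ → ℂ)) (x : ι → ℂ) : Matrix κ ι ℂ :=
  Matrix.of fun k i => dz i (fun y => F y k) x

/-- The matrix of complex conjugates. -/
noncomputable def mconj {ι κ : Type} (M : Matrix ι κ ℂ) : Matrix ι κ ℂ := M.map (starRingEnd ℂ)

/-- A map together with its domain. -/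
abbrev LMap (ι : Type) : Type := ((ι → ℂ) → (ι → ℂ)) × Set (ι → ℂ)

/-- `ω = i ∑ g_ij dz_i ∧ dz̄_j` is a Kaehler form on `U`, invariant under the maps of `S`: the coefficients are smooth,
the matrix is positive definite, `dω = 0`, and `F^* ω = ω` for `F ∈ S`. -/
structure IsKahler {ι : Type} [Fintype ι] [DecidableEq ι] (U : Set (ι → ℂ)) (S : Set (LMap ι))
    (g : (ι → ℂ) → Matrix ι ι ℂ) : Prop where
  smooth : ∀ i j, ContDiffOn ℝ ∞ (fun x => g x i j) U
  pos : ∀ x ∈ U, (g x).PosDef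
  closed : ∀ x ∈ U, ∀ i j k, dz k (fun y => g y i j) x = dz i (fun y => g y k j) x
  inv : ∀ F ∈ S, ∀ x ∈ F.2, (jac F.1 x)ᵀ * g (F.1 x) * mconj (jac F.1 x) = g x

/-- The real 1-form `η = ∑ (e_i dz_i + ē_i dz̄_i)` on `U` is smooth, invariant under the maps of `S`, and `dη = ω' - ω`, where
`ω = i ∑ g_ij dz_i ∧ dz̄_j` and `ω' = i ∑ g'_ij dz_i ∧ dz̄_j`. -/
structure IsPrimitive {ι : Type} [Fintype ι] [DecidableEq ι] (U : Set (ι → ℂ)) (S : Set (LMap ι))
    (g g' : (ι → ℂ) → Matrix ι ι ℂ) (e : (ι → ℂ) → (ι → ℂ)) : Prop where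
  smooth : ∀ i, ContDiffOn ℝ ∞ (fun x => e x i) U
  inv : ∀ F ∈ S, ∀ x ∈ F.2, ∀ i, ∑ k, e (F.1 x) k * jac F.1 x k i = e x i
  sym : ∀ x ∈ U, ∀ i j, dz i (fun y => e y j) x = dz j (fun y => e y i) x
  eq : ∀ x ∈ U, ∀ i j,
    g' x i j - g x i j = -I * (dz i (fun y => conj (e y j)) x - dzbar j (fun y => e y i) x)

/-- The two invariant forms are cohomologous: their difference is the differential of a smooth invariant real 1-form. -/
def Cohomologous {ι : Type} [Fintype ι] [DecidableEq ι] (U : Set (ι → ℂ)) (S : Set (LMap ι))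
    (g g' : (ι → ℂ) → Matrix ι ι ℂ) : Prop :=
  ∃ e : (ι → ℂ) → (ι → ℂ), IsPrimitive U S g g' e

/-- The function `log det g`. -/
noncomputable def logdet {ι : Type} [Fintype ι] [DecidableEq ι] (g : (ι → ℂ) → Matrix ι ι ℂ) (x : ι → ℂ) : ℂ :=
  ((Real.log (g x).det.re : ℝ) : ℂ)

/-- The scalar curvature `tr_ω Ric(ω)`, where `Ric(ω) = -i∂∂̄ log det g`. -/
noncomputable def scal {ι : Type} [Fintype ι] [DecidableEq ι] (g : (ι → ℂ) → Matrix ι ι ℂ) (x : ι → ℂ) : ℂ :=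
  -∑ i, ∑ j, (g x)⁻¹ j i * dz i (fun y => dzbar j (logdet g) y) x

/-- Every invariant Kaehler form is cohomologous to an invariant Kaehler form of constant scalar curvature. -/
def EveryClassCscK {ι : Type} [Fintype ι] [DecidableEq ι] (U : Set (ι → ℂ)) (S : Set (LMap ι)) : Prop :=
  ∀ g, IsKahler U S g → ∃ g', IsKahler U S g' ∧ Cohomologous U S g g' ∧ ∃ c : ℝ, ∀ x ∈ U, scal g' x = c

/-- Data of a (locally trivial, holomorphic) torus bundle with fibre `ℂ^κ/Λ` over the manifold given by `D` and the maps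
`f g : dom g → D`: the total space is given by `D × ℂ^κ`, the translations of `Λ` and the maps `(b,z) ↦ (f_g b, A_g z + τ_g(b))`. -/
structure TorusData (ι κ : Type) [Fintype ι] [DecidableEq ι] [Fintype κ] [DecidableEq κ] (D : Set (ι → ℂ)) (G : Type) where
  dom : G → Set (ι → ℂ)
  f : G → (ι → ℂ) → (ι → ℂ)
  τ : G → (ι → ℂ) → (κ → ℂ)
  A : G → Matrix κ κ ℂ
  Λ : Submodule ℤ (κ → ℂ)
  disc : DiscreteTopology Λ
  span : Submodule.span ℝ (Λ : Set (κ → ℂ)) = ⊤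
  dom_open : ∀ g, IsOpen (dom g)
  dom_sub : ∀ g, dom g ⊆ D
  f_maps : ∀ g, ∀ b ∈ dom g, f g b ∈ D
  f_hol : ∀ g, DifferentiableOn ℂ (f g) (dom g)
  τ_hol : ∀ g, DifferentiableOn ℂ (τ g) (dom g)
  A_pres : ∀ g, (fun v => A g *ᵥ v) '' (Λ : Set (κ → ℂ)) = Λ

section total

variable {ι κ : Type} [Fintype ι] [DecidableEq ι] [Fintype κ] [DecidableEq κ] {D : Set (ι → ℂ)} {G : Type}

/-- The base coordinates of a point of `ℂ^ι × ℂ^κ`. -/
def bas (x : ι ⊕ κ → ℂ) : ι → ℂ := fun i => x (Sum.inl i)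

/-- The fibre coordinates of a point of `ℂ^ι × ℂ^κ`. -/
def fib (x : ι ⊕ κ → ℂ) : κ → ℂ := fun i => x (Sum.inr i)

/-- The point `(b, z)` of `ℂ^ι × ℂ^κ`. -/
def pt (b : ι → ℂ) (z : κ → ℂ) : ι ⊕ κ → ℂ := Sum.elim b z

/-- The domain `D × ℂ^κ`. -/
def tot (κ : Type) (D : Set (ι → ℂ)) : Set (ι ⊕ κ → ℂ) := {x | bas x ∈ D}

/-- The map `(b,z) ↦ (f_g b, A_g z + τ_g(b))`. -/
def TorusData.F (T : TorusData ι κ D G) (g : G) (x : ι ⊕ κ → ℂ) : ι ⊕ κ → ℂ :=
  pt (T.f g (bas x)) (T.A g *ᵥ fib x + T.τ g (bas x))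

/-- The translation `(b,z) ↦ (b,z+v)`. -/
def shift (v : κ → ℂ) (x : ι ⊕ κ → ℂ) : ι ⊕ κ → ℂ := x + pt 0 v

/-- The maps defining the base. -/
def TorusData.base (T : TorusData ι κ D G) : Set (LMap ι) := {F | ∃ g, F = (T.f g, T.dom g)}

/-- The maps defining the total space. -/
def TorusData.total (T : TorusData ι κ D G) : Set (LMap (ι ⊕ κ)) :=
  {F | ∃ g, F = (T.F g, tot κ (T.dom g))} ∪ {F | ∃ v ∈ T.Λ, F = (shift v, tot κ D)}

/-- The form `gm` on the total space is constant along the fibres (invariant under all translations of the fibres). -/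
def FibreConst (D : Set (ι → ℂ)) (gm : (ι ⊕ κ → ℂ) → Matrix (ι ⊕ κ) (ι ⊕ κ) ℂ) : Prop :=
  ∀ x ∈ tot κ D, ∀ a : κ → ℂ, gm (x + pt 0 a) = gm x

/-- The form induced on the base by a form `gm = [[P, Q], [Q^*, h]]` which is constant along the fibres: the Schur complement
`P - Q h⁻¹ Q^*`, i.e. the restriction of `gm` to the orthogonal complement of the fibres. -/
noncomputable def schur (gm : (ι ⊕ κ → ℂ) → Matrix (ι ⊕ κ) (ι ⊕ κ) ℂ) (b : ι → ℂ) : Matrix ι ι ℂ :=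
  (gm (pt b 0)).toBlocks₁₁ - (gm (pt b 0)).toBlocks₁₂ * ((gm (pt b 0)).toBlocks₂₂)⁻¹ * ((gm (pt b 0)).toBlocks₁₂)ᴴ

end total

/-- The upper half plane as a subset of `ℂ^1`. -/
def halfPlane : Set (Unit → ℂ) := {x | 0 < (x ()).im}

/-- The Moebius transformation of `γ ∈ SL(2,ℝ)`. -/
noncomputable def mob (γ : Matrix.SpecialLinearGroup (Fin 2) ℝ) (x : Unit → ℂ) : Unit → ℂ :=
  fun _ => (((γ 0 0 : ℝ) : ℂ) * x () + ((γ 0 1 : ℝ) : ℂ)) / (((γ 1 0 : ℝ) : ℂ) * x () + ((γ 1 1 : ℝ) : ℂ))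

/-- The maps of a subgroup of `SL(2,ℝ)`. -/
def mobs (Γ : Subgroup (Matrix.SpecialLinearGroup (Fin 2) ℝ)) : Set (LMap Unit) :=
  {F | ∃ γ ∈ Γ, F = (mob γ, halfPlane)}

/-- `Γ` acts properly discontinuously on the upper half plane, with compact quotient. -/
structure CocompactFuchsian (Γ : Subgroup (Matrix.SpecialLinearGroup (Fin 2) ℝ)) : Prop where
  proper : ∀ K : Set UpperHalfPlane, IsCompact K → {γ : Matrix.SpecialLinearGroup (Fin 2) ℝ | γ ∈ Γ ∧ ∃ z ∈ K, γ • z ∈ K}.Finite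
  cocompact : ∃ K : Set UpperHalfPlane, IsCompact K ∧ ∀ z : UpperHalfPlane, ∃ γ ∈ Γ, γ • z ∈ K

end YV
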