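import Pool.Agent.Lib.MP_464db4_gt.YV.Blk

/-!
# YV-EpsA: a primitive which is constant along the fibres
`gm`, `gm'` Kaehler on `tot κ D`, constant along the fibres, `e` a primitive of `gm' - gm`, constant along the fibres: `e x = e (pt (bas x) 0)`, so all `dz (inr l)`, `dzbar (inr l)` of its components vanish.
* `vert_same`: entry `(inr l, inr m)` of `IsPrimitive.eq`: `gm' - gm = -I * (0 - 0)`.
* `vert_e`: `dz (inl i) (e · (inr l)) = dz (inr l) (e · (inl i)) = 0` (`sym`), pulled back by `b ↦ pt b 0` (`dz_pt`).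
* `mixed_diff`: entry `(inl i, inr l)` of `eq`: `gm' - gm = -I * (dz (inl i) (conj (e · (inr l))) - dzbar (inr l) (e · (inl i))) = -I * dz (inl i) (conj (e · (inr l)))`.
* `base_diff`: entry `(inl i, inl j)`.
-/

namespace YV

open Complex Matrix MeasureTheory
open scoped ContDiff ComplexConjugate ComplexOrder

variable {ι κ : Type} [Fintype ι] [DecidableEq ι] [Fintype κ] [DecidableEq κ] {D : Set (ι → ℂ)} {G : Type}
  {T : TorusData ι κ D G} {gm gm' : (ι ⊕ κ → ℂ) → Matrix (ι ⊕ κ) (ι ⊕ κ) ℂ} {e : (ι ⊕ κ → ℂ) → (ι ⊕ κ → ℂ)}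

private theorem epsa_eq_pt {e : (ι ⊕ κ → ℂ) → (ι ⊕ κ → ℂ)}
    (hec : ∀ x ∈ tot κ D, ∀ a : κ → ℂ, e (x + pt 0 a) = e x) {x : ι ⊕ κ → ℂ} (hx : x ∈ tot κ D) :
    e x = e (pt (bas x) 0) := by
  have hx' : bas x ∈ D := hx
  have hx2 : (pt (bas x) 0 : ι ⊕ κ → ℂ) ∈ tot κ D := pt_mem_tot hx' (0 : κ → ℂ)
  have h := hec (pt (bas x) 0) hx2 (fib x)
  rw [← pt_add, add_zero, zero_add, pt_bas_fib] at h
  exact h

private theorem epsa_diff (hD : IsOpen D) (he : IsPrimitive (tot κ D) T.total gm gm' e)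
    {x : ι ⊕ κ → ℂ} (hx : x ∈ tot κ D) (j : ι ⊕ κ) : DifferentiableAt ℝ (fun y => e y j) x :=
  (((he.smooth j).differentiableOn (by simp)) x hx).differentiableAt ((isOpen_tot hD).mem_nhds hx)

private theorem epsa_base (he : IsPrimitive (tot κ D) T.total gm gm' e)
    (j : ι ⊕ κ) : DifferentiableOn ℝ (fun b => e (pt b 0) j) D :=
  (contDiffOn_pt (f := fun y => e y j) (he.smooth j)).differentiableOn (by simp)

private theorem epsa_dz (hD : IsOpen D) (he : IsPrimitive (tot κ D) T.total gm gm' e)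
    (hec : ∀ x ∈ tot κ D, ∀ a : κ → ℂ, e (x + pt 0 a) = e x) {x : ι ⊕ κ → ℂ} (hx : x ∈ tot κ D)
    (j : ι ⊕ κ) (k : κ) : dz (Sum.inr k) (fun y => e y j) x = 0 := by
  rw [dz_congr_on (isOpen_tot hD) (h := fun y => (fun b => e (pt b 0) j) (bas y))
    (fun y hy => by rw [epsa_eq_pt hec hy]) hx]
  exact dz_bas_inr (f := fun b => e (pt b 0) j)
    (((epsa_base he j) (bas x) hx).differentiableAt (hD.mem_nhds hx)) k

private theorem epsa_dzbar (hD : IsOpen D) (he : IsPrimitive (tot κ D) T.total gm gm' e)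
    (hec : ∀ x ∈ tot κ D, ∀ a : κ → ℂ, e (x + pt 0 a) = e x) {x : ι ⊕ κ → ℂ} (hx : x ∈ tot κ D)
    (j : ι ⊕ κ) (k : κ) : dzbar (Sum.inr k) (fun y => e y j) x = 0 := by
  rw [dzbar_congr_on (isOpen_tot hD) (h := fun y => (fun b => e (pt b 0) j) (bas y))
    (fun y hy => by rw [epsa_eq_pt hec hy]) hx]
  exact dzbar_bas_inr (f := fun b => e (pt b 0) j)
    (((epsa_base he j) (bas x) hx).differentiableAt (hD.mem_nhds hx)) k

theorem vert_same (hD : IsOpen D) (he : IsPrimitive (tot κ D) T.total gm gm' e) (hec : ∀ x ∈ tot κ D, ∀ a : κ → ℂ, e (x + pt 0 a) = e x)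
    {x : ι ⊕ κ → ℂ} (hx : x ∈ tot κ D) : (gm' x).toBlocks₂₂ = (gm x).toBlocks₂₂ := by
  ext l m
  have h := he.eq x hx (Sum.inr l) (Sum.inr m)
  rw [dz_conj (Sum.inr l) (fun y => e y (Sum.inr m)), epsa_dzbar hD he hec hx, epsa_dzbar hD he hec hx,
    map_zero, sub_zero, mul_zero, sub_eq_zero] at h
  exact h

theorem vert_e (hD : IsOpen D) (he : IsPrimitive (tot κ D) T.total gm gm' e) (hec : ∀ x ∈ tot κ D, ∀ a : κ → ℂ, e (x + pt 0 a) = e x)
    {b : ι → ℂ} (hb : b ∈ D) (i : ι) (l : κ) : dz i (fun b => e (pt b 0) (Sum.inr l)) b = 0 := by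
  have hx : pt b 0 ∈ tot κ D := pt_mem_tot hb 0
  rw [dz_pt (f := fun y => e y (Sum.inr l)) (epsa_diff hD he hx _), he.sym _ hx]
  exact epsa_dz hD he hec hx _ _

theorem mixed_diff (hD : IsOpen D) (he : IsPrimitive (tot κ D) T.total gm gm' e) (hec : ∀ x ∈ tot κ D, ∀ a : κ → ℂ, e (x + pt 0 a) = e x)
    {b : ι → ℂ} (hb : b ∈ D) (i : ι) (l : κ) : gm' (pt b 0) (Sum.inl i) (Sum.inr l) - gm (pt b 0) (Sum.inl i) (Sum.inr l) =
      -I * conj (dzbar i (fun b => e (pt b 0) (Sum.inr l)) b) := by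
  have hx : pt b 0 ∈ tot κ D := pt_mem_tot hb 0
  have h := he.eq _ hx (Sum.inl i) (Sum.inr l)
  rw [dz_conj (Sum.inl i) (fun y => e y (Sum.inr l)), epsa_dzbar hD he hec hx, sub_zero,
    ← dzbar_pt (f := fun y => e y (Sum.inr l)) (epsa_diff hD he hx _)] at h
  exact h

theorem base_diff (hD : IsOpen D) (he : IsPrimitive (tot κ D) T.total gm gm' e)
    {b : ι → ℂ} (hb : b ∈ D) (i j : ι) : gm' (pt b 0) (Sum.inl i) (Sum.inl j) - gm (pt b 0) (Sum.inl i) (Sum.inl j) =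
      -I * (conj (dzbar i (fun b => e (pt b 0) (Sum.inl j)) b) - dzbar j (fun b => e (pt b 0) (Sum.inl i)) b) := by
  have hx : pt b 0 ∈ tot κ D := pt_mem_tot hb 0
  have h := he.eq _ hx (Sum.inl i) (Sum.inl j)
  rw [dz_conj (Sum.inl i) (fun y => e y (Sum.inl j)),
    ← dzbar_pt (f := fun y => e y (Sum.inl j)) (epsa_diff hD he hx _),
    ← dzbar_pt (f := fun y => e y (Sum.inl i)) (epsa_diff hD he hx _)] at h
  exact h

theorem base_sym (hD : IsOpen D) (he : IsPrimitive (tot κ D) T.total gm gm' e) {b : ι → ℂ} (hb : b ∈ D) (i j : ι) :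
    dz i (fun b => e (pt b 0) (Sum.inl j)) b = dz j (fun b => e (pt b 0) (Sum.inl i)) b := by
  have hx : pt b 0 ∈ tot κ D := pt_mem_tot hb 0
  rw [dz_pt (f := fun y => e y (Sum.inl j)) (epsa_diff hD he hx _),
    dz_pt (f := fun y => e y (Sum.inl i)) (epsa_diff hD he hx _)]
  exact he.sym _ hx _ _

/-- Invariance of the components of `e` (base and fibre part). -/
theorem e_inv (hD : IsOpen D) (he : IsPrimitive (tot κ D) T.total gm gm' e) (hec : ∀ x ∈ tot κ D, ∀ a : κ → ℂ, e (x + pt 0 a) = e x)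
    (γ : G) {b : ι → ℂ} (hb : b ∈ T.dom γ) :
    (∀ i, ∑ k, e (pt (T.f γ b) 0) (Sum.inl k) * jac (T.f γ) b k i + ∑ l, e (pt (T.f γ b) 0) (Sum.inr l) * jac (T.τ γ) b l i =
      e (pt b 0) (Sum.inl i)) ∧
    (∀ m, ∑ l, e (pt (T.f γ b) 0) (Sum.inr l) * T.A γ l m = e (pt b 0) (Sum.inr m)) := by
  have hx : pt b 0 ∈ tot κ (T.dom γ) := pt_mem_tot hb 0
  have hF : T.F γ (pt b 0) ∈ tot κ D := F_mem_tot T γ hx
  have hi := prim_inv_F he γ hx
  have hFe : e (T.F γ (pt b 0)) = e (pt (T.f γ b) 0) := by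
    rw [epsa_eq_pt hec hF, bas_F, bas_pt]
  rw [jac_F T γ hx, hFe, bas_pt] at hi
  refine ⟨fun i => ?_, fun m => ?_⟩
  · have h := hi (Sum.inl i)
    rw [Fintype.sum_sum_type] at h
    simpa only [fromBlocks_apply₁₁, fromBlocks_apply₂₁] using h
  · have h := hi (Sum.inr m)
    rw [Fintype.sum_sum_type] at h
    simpa only [fromBlocks_apply₁₂, fromBlocks_apply₂₂, Matrix.zero_apply, mul_zero,
      Finset.sum_const_zero, zero_add] using h

end YV
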