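import Pool.Agent.Lib.MP_464db4_gt.YV.SchA

/-!
# YV-SchB: the form induced on the base
`schur gm b = G - Θ h⁻¹ Θᴴ` with the blocks of `gm (pt b 0)`; `h` is a constant matrix (`vert_loc`).
* smooth: entries of `gm (pt b 0)` are smooth (`contDiffOn_pt`), `h⁻¹` is constant on `D`: `schur gm b i j = gm.. (inl i)(inl j) - ∑ l m, Θ i l * h⁻¹ l m * conj (Θ j m)` on `D`.
* positive definite: `schur_posDef` with `eq_fromBlocks`.
* closed: `dz k` of `∑ Θ i l * h⁻¹ l m * conj (Θ j m)` is `∑ dz k (Θ i l) * h⁻¹ l m * conj (Θ j m)`, since `dz k (conj Θ) = conj (dzbar k Θ) = 0` (`mixed_bar`), symmetric in `(i,k)` by `mixed_closed`;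
  and `base_closed`.
* invariance under `T.f γ`: `schur_cov` applied to `hg.inv (T.F γ)` at `pt b 0`, with `jac_F` and `gm (T.F γ (pt b 0)) = gm (pt (T.f γ b) 0)` (`FibreConst.eq_pt`, `bas_F`).
-/

namespace YV

open Complex Matrix MeasureTheory
open scoped ContDiff ComplexConjugate ComplexOrder

variable {ι κ : Type} [Fintype ι] [DecidableEq ι] [Fintype κ] [DecidableEq κ] {D : Set (ι → ℂ)} {G : Type}
  {T : TorusData ι κ D G} {gm : (ι ⊕ κ → ℂ) → Matrix (ι ⊕ κ) (ι ⊕ κ) ℂ}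

theorem schB_eq {h : Matrix κ κ ℂ} {b : ι → ℂ} (hh : (gm (pt b 0)).toBlocks₂₂ = h) :
    schur gm b = (gm (pt b 0)).toBlocks₁₁ - (gm (pt b 0)).toBlocks₁₂ * h⁻¹ * ((gm (pt b 0)).toBlocks₁₂)ᴴ := by
  unfold schur
  rw [hh]

theorem schB_apply {h : Matrix κ κ ℂ} {b : ι → ℂ} (hh : (gm (pt b 0)).toBlocks₂₂ = h) (i j : ι) :
    schur gm b i j = gm (pt b 0) (Sum.inl i) (Sum.inl j) -
      ∑ m, ∑ l, gm (pt b 0) (Sum.inl i) (Sum.inr l) * h⁻¹ l m * conj (gm (pt b 0) (Sum.inl j) (Sum.inr m)) := by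
  rw [schB_eq hh, Matrix.sub_apply, Matrix.mul_apply]
  congr 1
  refine Finset.sum_congr rfl fun m _ => ?_
  rw [Matrix.mul_apply, Finset.sum_mul]
  rfl

theorem schB_smooth {S : Set (LMap (ι ⊕ κ))} (hg : IsKahler (tot κ D) S gm) (i j : ι ⊕ κ) :
    ContDiffOn ℝ ∞ (fun b => gm (pt b 0) i j) D :=
  contDiffOn_pt (f := fun y => gm y i j) (hg.smooth i j)

theorem schB_diff (hD : IsOpen D) {S : Set (LMap (ι ⊕ κ))} (hg : IsKahler (tot κ D) S gm) (i j : ι ⊕ κ)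
    {b : ι → ℂ} (hb : b ∈ D) : DifferentiableAt ℝ (fun b => gm (pt b 0) i j) b :=
  (((schB_smooth hg i j).differentiableOn (by simp)) b hb).differentiableAt (hD.mem_nhds hb)

theorem schB_diff_conj (hD : IsOpen D) {S : Set (LMap (ι ⊕ κ))} (hg : IsKahler (tot κ D) S gm) (i j : ι ⊕ κ)
    {b : ι → ℂ} (hb : b ∈ D) : DifferentiableAt ℝ (fun b => conj (gm (pt b 0) i j)) b :=
  (((conj_contDiffOn (schB_smooth hg i j)).differentiableOn (by simp)) b hb).differentiableAt (hD.mem_nhds hb)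

theorem schur_smooth (hD : IsOpen D) (hg : IsKahler (tot κ D) T.total gm) (hc : FibreConst D gm) (i j : ι) :
    ContDiffOn ℝ ∞ (fun b => schur gm b i j) D := by
  refine contDiffOn_of_locally_contDiffOn fun b hb => ?_
  obtain ⟨V, hV, hbV, hVD, hh⟩ := vert_loc hD hg hc hb
  refine ⟨V, hV, hbV, ?_⟩
  obtain ⟨h, hdef⟩ : ∃ h, h = (gm (pt b 0)).toBlocks₂₂ := ⟨_, rfl⟩
  rw [← hdef] at hh
  have key : ContDiffOn ℝ ∞ (fun b => gm (pt b 0) (Sum.inl i) (Sum.inl j) -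
      ∑ m, ∑ l, gm (pt b 0) (Sum.inl i) (Sum.inr l) * h⁻¹ l m * conj (gm (pt b 0) (Sum.inl j) (Sum.inr m))) D := by
    refine (schB_smooth hg _ _).sub (ContDiffOn.sum fun m _ => ContDiffOn.sum fun l _ => ?_)
    exact ((schB_smooth hg _ _).mul contDiffOn_const).mul (conj_contDiffOn (schB_smooth hg _ _))
  exact (key.mono Set.inter_subset_left).congr fun y hy => schB_apply (hh y hy.2) i j

theorem schur_closed (hD : IsOpen D) (hg : IsKahler (tot κ D) T.total gm) (hc : FibreConst D gm)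
    {b : ι → ℂ} (hb : b ∈ D) (i j k : ι) : dz k (fun b => schur gm b i j) b = dz i (fun b => schur gm b k j) b := by
  obtain ⟨V, hV, hbV, hVD, hh⟩ := vert_loc hD hg hc hb
  obtain ⟨h, hdef⟩ : ∃ h, h = (gm (pt b 0)).toBlocks₂₂ := ⟨_, rfl⟩
  rw [← hdef] at hh
  have key : ∀ i k : ι, dz k (fun b => schur gm b i j) b =
      dz k (fun b => gm (pt b 0) (Sum.inl i) (Sum.inl j)) b -
        ∑ m, ∑ l, dz k (fun b => gm (pt b 0) (Sum.inl i) (Sum.inr l)) b * h⁻¹ l m *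
          conj (gm (pt b 0) (Sum.inl j) (Sum.inr m)) := by
    intro i k
    have d1 : ∀ l m, DifferentiableAt ℝ (fun b => gm (pt b 0) (Sum.inl i) (Sum.inr l) * h⁻¹ l m) b := fun l m =>
      (schB_diff hD hg _ _ hb).mul (differentiableAt_const _)
    have d2 : ∀ m l, DifferentiableAt ℝ (fun b => gm (pt b 0) (Sum.inl i) (Sum.inr l) * h⁻¹ l m *
        conj (gm (pt b 0) (Sum.inl j) (Sum.inr m))) b := fun m l =>
      (d1 l m).mul (schB_diff_conj hD hg _ _ hb)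
    have d3 : ∀ m, DifferentiableAt ℝ (fun b => ∑ l, gm (pt b 0) (Sum.inl i) (Sum.inr l) * h⁻¹ l m *
        conj (gm (pt b 0) (Sum.inl j) (Sum.inr m))) b := fun m =>
      DifferentiableAt.fun_sum fun l _ => d2 m l
    rw [dz_congr_on hV (fun y hy => schB_apply (hh y hy) i j) hbV,
      dz_sub k (schB_diff hD hg _ _ hb) (DifferentiableAt.fun_sum fun m _ => d3 m),
      dz_sum Finset.univ _ k (fun m _ => d3 m)]
    congr 1
    refine Finset.sum_congr rfl fun m _ => ?_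
    rw [dz_sum Finset.univ _ k (fun l _ => d2 m l)]
    refine Finset.sum_congr rfl fun l _ => ?_
    rw [dz_mul k (d1 l m) (schB_diff_conj hD hg _ _ hb), dz_mul_const k _ (schB_diff hD hg _ _ hb), dz_conj,
      mixed_bar hD hg hc hb, map_zero, mul_zero, add_zero]
  rw [key i k, key k i, base_closed hD hg hb]
  congr 1
  refine Finset.sum_congr rfl fun m _ => Finset.sum_congr rfl fun l _ => ?_
  rw [mixed_closed hD hg hb]

theorem schur_inv (hg : IsKahler (tot κ D) T.total gm) (hc : FibreConst D gm) :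
    ∀ F ∈ T.base, ∀ b ∈ F.2, (jac F.1 b)ᵀ * schur gm (F.1 b) * mconj (jac F.1 b) = schur gm b := by
  rintro F ⟨γ, rfl⟩ b hb
  replace hb : b ∈ T.dom γ := hb
  show (jac (T.f γ) b)ᵀ * schur gm (T.f γ b) * mconj (jac (T.f γ) b) = schur gm b
  have hbD : b ∈ D := T.dom_sub γ hb
  have hx : (pt b 0 : ι ⊕ κ → ℂ) ∈ tot κ (T.dom γ) := pt_mem_tot hb 0
  have hx1 : (pt b 0 : ι ⊕ κ → ℂ) ∈ tot κ D := pt_mem_tot hbD 0
  have hx' : T.F γ (pt b 0) ∈ tot κ D := F_mem_tot T γ hx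
  have hy : (pt (T.f γ b) 0 : ι ⊕ κ → ℂ) ∈ tot κ D := pt_mem_tot (T.f_maps γ b hb) 0
  have hi := kahler_inv_F hg γ hx
  rw [jac_F T γ hx, hc.eq_pt hx', bas_F, bas_pt, eq_fromBlocks (hg.pos _ hy).isHermitian,
    eq_fromBlocks (hg.pos _ hx1).isHermitian] at hi
  exact schur_cov (vert_pos hg hbD) (vert_pos hg (T.f_maps γ b hb)) hi

theorem schur_isKahler (hD : IsOpen D) (hg : IsKahler (tot κ D) T.total gm) (hc : FibreConst D gm) :
    IsKahler D T.base (schur gm) := by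
  refine ⟨schur_smooth hD hg hc, fun b hb => ?_, fun b hb i j k => schur_closed hD hg hc hb i j k,
    schur_inv hg hc⟩
  have hp := hg.pos _ (pt_mem_tot hb (0 : κ → ℂ))
  have e := eq_fromBlocks hp.isHermitian
  rw [e] at hp
  exact schur_posDef hp

end YV
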