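import Pool.Agent.Lib.MP_464db4_gt.YV.AvgA

/-!
# YV-ExA: the primitive of `avg μ g - g`
`prim μ g x i = -I * ∑ l, ∫ p, conj (p.2 l) * g (x + pt 0 (p.1 • p.2)) i (inr l) d(λ × μ)(p)` with `λ = volume.restrict (Icc 0 1)` on `ℝ`.
Each summand is an integral of ParB with `P = ℝ × (κ → ℂ)`, `ν = λ.prod μ` (finite), `w p = conj (p.2 l)` (integrable: `‖p.2 l‖ ≤ R` a.e., measurable), `v p = pt 0 (p.1 • p.2)`
(continuous), `C = {pt 0 a | ‖a‖ ≤ R}` (compact), and `v p ∈ C` a.e. (`p.1 ∈ Icc 0 1` and `‖p.2‖ ≤ R` a.e. for the product measure: `Measure.ae_prod_mk...`,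
or `(ae_prod_iff ...)`, `Measure.quasiMeasurePreserving_fst/snd` `.ae`).
* `prim_sym`: `dz i (prim j) = -I ∑ l ∫ conj(p.2 l) * dz i (g · j (inr l))`, symmetric in `i, j` by closedness `dz i (g j l) = dz j (g i l)`.
-/

namespace YV

open Complex Matrix MeasureTheory
open scoped ContDiff ComplexConjugate ComplexOrder

variable {ι κ : Type} [Fintype ι] [DecidableEq ι] [Fintype κ] [DecidableEq κ] {D : Set (ι → ℂ)}

/-- The product measure on `[0,1] × ℂ^κ`. -/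
noncomputable def muI (μ : Measure (κ → ℂ)) : Measure (ℝ × (κ → ℂ)) := (volume.restrict (Set.Icc (0 : ℝ) 1)).prod μ

/-- The components of the primitive. -/
noncomputable def prim (μ : Measure (κ → ℂ)) (g : (ι ⊕ κ → ℂ) → Matrix (ι ⊕ κ) (ι ⊕ κ) ℂ) (x : ι ⊕ κ → ℂ) (i : ι ⊕ κ) : ℂ :=
  -I * ∑ l : κ, ∫ p, conj (p.2 l) * g (x + pt 0 (p.1 • p.2)) i (Sum.inr l) ∂(muI μ)

variable {Λ : Submodule ℤ (κ → ℂ)} {μ : Measure (κ → ℂ)} {S : Set (LMap (ι ⊕ κ))}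
  {g : (ι ⊕ κ → ℂ) → Matrix (ι ⊕ κ) (ι ⊕ κ) ℂ}

omit [DecidableEq κ] in
private theorem exA_snd {R : ℝ} (hμ : IsMean Λ μ) (hR : ∀ᵐ a ∂μ, ‖a‖ ≤ R) : ∀ᵐ p ∂(muI μ), ‖p.2‖ ≤ R := by
  have := hμ.prob
  exact (Measure.quasiMeasurePreserving_snd (μ := volume.restrict (Set.Icc (0 : ℝ) 1)) (ν := μ)).ae hR

/-- The hypotheses of ParB for the measure `muI μ`. -/
theorem muI_facts (hμ : IsMean Λ μ) : ∃ C : Set (ι ⊕ κ → ℂ), IsCompact C ∧ (∀ D : Set (ι → ℂ), ∀ x ∈ tot κ D, ∀ c ∈ C, x + c ∈ tot κ D) ∧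
    AEStronglyMeasurable (fun p : ℝ × (κ → ℂ) => (pt 0 (p.1 • p.2) : ι ⊕ κ → ℂ)) (muI μ) ∧
    (∀ᵐ p ∂(muI μ), (pt 0 (p.1 • p.2) : ι ⊕ κ → ℂ) ∈ C) := by
  have hprob := hμ.prob
  obtain ⟨R, hR⟩ := hμ.bdd
  refine ⟨(fun a : κ → ℂ => (pt 0 a : ι ⊕ κ → ℂ)) '' Metric.closedBall (0 : κ → ℂ) R,
    (isCompact_closedBall (0 : κ → ℂ) R).image continuous_pt0, ?_, ?_, ?_⟩
  · rintro D x hx _ ⟨a, _, rfl⟩
    exact add_mem_tot hx a
  · exact ((continuous_pt0 (ι := ι)).comp (continuous_fst.smul continuous_snd)).aestronglyMeasurable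
  · have h1 : ∀ᵐ p ∂(muI μ), p.1 ∈ Set.Icc (0 : ℝ) 1 :=
      (Measure.quasiMeasurePreserving_fst (μ := volume.restrict (Set.Icc (0 : ℝ) 1)) (ν := μ)).ae
        (ae_restrict_mem measurableSet_Icc)
    filter_upwards [h1, exA_snd hμ hR] with p hp1 hp2
    refine ⟨p.1 • p.2, ?_, rfl⟩
    rw [mem_closedBall_zero_iff, norm_smul, Real.norm_of_nonneg hp1.1]
    calc p.1 * ‖p.2‖ ≤ 1 * ‖p.2‖ := mul_le_mul_of_nonneg_right hp1.2 (norm_nonneg _)
      _ ≤ R := by rw [one_mul]; exact hp2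

theorem integrable_weight (hμ : IsMean Λ μ) (l : κ) : Integrable (fun p : ℝ × (κ → ℂ) => conj (p.2 l)) (muI μ) := by
  have hprob := hμ.prob
  obtain ⟨R, hR⟩ := hμ.bdd
  have hfin : IsFiniteMeasure (muI μ) := by unfold muI; infer_instance
  refine Integrable.of_bound (Continuous.aestronglyMeasurable ?_) R ?_
  · exact continuous_conj.comp ((continuous_apply l).comp continuous_snd)
  · filter_upwards [exA_snd hμ hR] with p hp
    rw [RCLike.norm_conj]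
    exact (norm_le_pi_norm p.2 l).trans hp

private theorem exA_smooth (hD : IsOpen D) (hμ : IsMean Λ μ) (hg : IsKahler (tot κ D) S g) (i : ι ⊕ κ) (l : κ) :
    ContDiffOn ℝ ∞ (fun x => ∫ p, conj (p.2 l) * g (x + pt 0 (p.1 • p.2)) i (Sum.inr l) ∂(muI μ)) (tot κ D) := by
  obtain ⟨C, hC, hCD, hm, hae⟩ := muI_facts (ι := ι) hμ
  exact contDiffOn_mulTrans (muI μ) (isOpen_tot hD) hC (hCD D) hm hae (integrable_weight hμ l)
    (hg.smooth i (Sum.inr l))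

private theorem exA_diff (hD : IsOpen D) (hμ : IsMean Λ μ) (hg : IsKahler (tot κ D) S g) (i : ι ⊕ κ) (l : κ)
    {x : ι ⊕ κ → ℂ} (hx : x ∈ tot κ D) :
    DifferentiableAt ℝ (fun x => ∫ p, conj (p.2 l) * g (x + pt 0 (p.1 • p.2)) i (Sum.inr l) ∂(muI μ)) x :=
  ((exA_smooth hD hμ hg i l).contDiffAt ((isOpen_tot hD).mem_nhds hx)).differentiableAt (by simp)

theorem prim_smooth (hD : IsOpen D) (hμ : IsMean Λ μ) (hg : IsKahler (tot κ D) S g) (i : ι ⊕ κ) :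
    ContDiffOn ℝ ∞ (fun x => prim μ g x i) (tot κ D) := by
  unfold prim
  exact contDiffOn_const.mul (ContDiffOn.sum fun l _ => exA_smooth hD hμ hg i l)

theorem dz_prim (hD : IsOpen D) (hμ : IsMean Λ μ) (hg : IsKahler (tot κ D) S g) {x : ι ⊕ κ → ℂ} (hx : x ∈ tot κ D) (i j : ι ⊕ κ) :
    dz i (fun y => prim μ g y j) x =
      -I * ∑ l : κ, ∫ p, conj (p.2 l) * dz i (fun y => g y j (Sum.inr l)) (x + pt 0 (p.1 • p.2)) ∂(muI μ) := by
  obtain ⟨C, hC, hCD, hm, hae⟩ := muI_facts (ι := ι) hμ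
  unfold prim
  rw [dz_const_mul i (-I) (DifferentiableAt.fun_sum fun l _ => exA_diff hD hμ hg j l hx),
    dz_sum Finset.univ _ i (fun l _ => exA_diff hD hμ hg j l hx)]
  congr 1
  refine Finset.sum_congr rfl fun l _ => ?_
  exact dz_mulTrans (muI μ) (isOpen_tot hD) hC (hCD D) hm hae (integrable_weight hμ l)
    (hg.smooth j (Sum.inr l)) hx i

theorem dzbar_prim (hD : IsOpen D) (hμ : IsMean Λ μ) (hg : IsKahler (tot κ D) S g) {x : ι ⊕ κ → ℂ} (hx : x ∈ tot κ D) (i j : ι ⊕ κ) :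
    dzbar i (fun y => prim μ g y j) x =
      -I * ∑ l : κ, ∫ p, conj (p.2 l) * dzbar i (fun y => g y j (Sum.inr l)) (x + pt 0 (p.1 • p.2)) ∂(muI μ) := by
  obtain ⟨C, hC, hCD, hm, hae⟩ := muI_facts (ι := ι) hμ
  unfold prim
  rw [dzbar_const_mul i (-I) (DifferentiableAt.fun_sum fun l _ => exA_diff hD hμ hg j l hx),
    dzbar_sum Finset.univ _ i (fun l _ => exA_diff hD hμ hg j l hx)]
  congr 1
  refine Finset.sum_congr rfl fun l _ => ?_
  exact dzbar_mulTrans (muI μ) (isOpen_tot hD) hC (hCD D) hm hae (integrable_weight hμ l)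
    (hg.smooth j (Sum.inr l)) hx i

theorem prim_sym (hD : IsOpen D) (hμ : IsMean Λ μ) (hg : IsKahler (tot κ D) S g) {x : ι ⊕ κ → ℂ} (hx : x ∈ tot κ D) (i j : ι ⊕ κ) :
    dz i (fun y => prim μ g y j) x = dz j (fun y => prim μ g y i) x := by
  rw [dz_prim hD hμ hg hx i j, dz_prim hD hμ hg hx j i]
  congr 1
  refine Finset.sum_congr rfl fun l _ => ?_
  refine integral_congr_ae (Filter.Eventually.of_forall fun p => ?_)
  simp only
  rw [hg.closed _ (add_mem_tot hx _) j (Sum.inr l) i]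

end YV
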