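import Pool.Agent.Lib.MP_464db4_gt.YV.MeanC

/-!
# YV-MeanD: a natural choice of means
For every positive definite `h` a mean `M h`, such that every isometry `A : (Λ, h) → (Λ, k)` maps `M h` to `M k`.
-/

namespace YV

open Complex Matrix MeasureTheory
open scoped ContDiff ComplexConjugate ComplexOrder

variable {κ : Type} [Fintype κ] [DecidableEq κ] {Λ : Submodule ℤ (κ → ℂ)}

/-- Isometries from `(Λ, h)` to `(Λ, k)`. -/
def IsoTo (Λ : Submodule ℤ (κ → ℂ)) (h k A : Matrix κ κ ℂ) : Prop :=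
  (fun v => A *ᵥ v) '' (Λ : Set (κ → ℂ)) = Λ ∧ Aᵀ * k * mconj A = h

theorem mconj_mul' (A B : Matrix κ κ ℂ) : mconj (A * B) = mconj A * mconj B := by
  unfold mconj
  exact Matrix.map_mul

theorem mconj_one'' : mconj (1 : Matrix κ κ ℂ) = 1 := by
  unfold mconj
  exact Matrix.map_one _ (map_zero _) (map_one _)

theorem isoTo_refl (h : Matrix κ κ ℂ) : IsoTo Λ h h 1 := by
  refine ⟨?_, ?_⟩
  · simp
  · rw [mconj_one'', Matrix.transpose_one, Matrix.one_mul, Matrix.mul_one]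

theorem isoTo_mul {h k l A B : Matrix κ κ ℂ} (hA : IsoTo Λ h k A) (hB : IsoTo Λ k l B) : IsoTo Λ h l (B * A) := by
  refine ⟨?_, ?_⟩
  · have e : (fun v => (B * A) *ᵥ v) = (fun v => B *ᵥ v) ∘ (fun v => A *ᵥ v) := by
      funext v
      simp [Matrix.mulVec_mulVec]
    rw [e, Set.image_comp, hA.1, hB.1]
  · rw [mconj_mul', Matrix.transpose_mul]
    calc Aᵀ * Bᵀ * l * (mconj B * mconj A) = Aᵀ * (Bᵀ * l * mconj B) * mconj A := by simp only [Matrix.mul_assoc]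
      _ = h := by rw [hB.2, hA.2]

theorem isoTo_inv (h2 : Submodule.span ℝ (Λ : Set (κ → ℂ)) = ⊤) {h k A : Matrix κ κ ℂ} (hA : IsoTo Λ h k A) :
    IsoTo Λ k h A⁻¹ := by
  have hu : IsUnit A.det := isUnit_of_pres h2 hA.1
  have e1 : A⁻¹ * A = 1 := nonsing_inv_mul A hu
  have e2 : A * A⁻¹ = 1 := mul_nonsing_inv A hu
  refine ⟨?_, ?_⟩
  · have e : (fun v => A⁻¹ *ᵥ v) ∘ (fun v => A *ᵥ v) = id := by
      funext v
      simp [Matrix.mulVec_mulVec, e1]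
    conv_lhs => rw [← hA.1]
    rw [← Set.image_comp, e, Set.image_id]
  · rw [← hA.2]
    have e3 : (A⁻¹)ᵀ * Aᵀ = 1 := by rw [← Matrix.transpose_mul, e2, Matrix.transpose_one]
    have e4 : mconj A * mconj A⁻¹ = 1 := by rw [← mconj_mul', e2, mconj_one'']
    calc (A⁻¹)ᵀ * (Aᵀ * k * mconj A) * mconj A⁻¹ = ((A⁻¹)ᵀ * Aᵀ) * k * (mconj A * mconj A⁻¹) := by
          simp only [Matrix.mul_assoc]
      _ = k := by rw [e3, e4, Matrix.one_mul, Matrix.mul_one]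

theorem exists_natural_mean (h1 : DiscreteTopology Λ) (h2 : Submodule.span ℝ (Λ : Set (κ → ℂ)) = ⊤) :
    ∃ M : Matrix κ κ ℂ → Measure (κ → ℂ), (∀ h, h.PosDef → IsMean Λ (M h)) ∧
      ∀ h k A : Matrix κ κ ℂ, h.PosDef → k.PosDef → (fun v => A *ᵥ v) '' (Λ : Set (κ → ℂ)) = Λ → Aᵀ * k * mconj A = h →
        (M h).map (fun v => A *ᵥ v) = M k := by
  classical
  let P := {h : Matrix κ κ ℂ // h.PosDef}
  let s : Setoid P :=
    { r := fun h k => ∃ A, IsoTo Λ h.1 k.1 A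
      iseqv := ⟨fun h => ⟨1, isoTo_refl h.1⟩, fun ⟨A, hA⟩ => ⟨A⁻¹, isoTo_inv h2 hA⟩,
        fun ⟨A, hA⟩ ⟨B, hB⟩ => ⟨B * A, isoTo_mul hA hB⟩⟩ }
  let r : P → P := fun h => (Quotient.mk s h).out
  have hr : ∀ h : P, ∃ A, IsoTo Λ (r h).1 h.1 A := fun h => Quotient.mk_out (s := s) h
  have hrr : ∀ h k : P, (∃ A, IsoTo Λ h.1 k.1 A) → r h = r k := by
    intro h k hk
    have : Quotient.mk s h = Quotient.mk s k := Quotient.sound hk
    show (Quotient.mk s h).out = (Quotient.mk s k).out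
    rw [this]
  choose Aof hAof using hr
  have hμ0 : ∀ h : P, ∃ μ : Measure (κ → ℂ), IsMean Λ μ ∧ ∀ A ∈ isoSet Λ h.1, μ.map (fun v => A *ᵥ v) = μ :=
    fun h => exists_invariant_mean h1 h2 h.2
  choose μ0 hμ0 using hμ0
  have hmeas : ∀ A : Matrix κ κ ℂ, Measurable (fun v : κ → ℂ => A *ᵥ v) := fun A =>
    (Continuous.matrix_mulVec continuous_const continuous_id).measurable
  let M' : P → Measure (κ → ℂ) := fun h => (μ0 (r h)).map (fun v => Aof h *ᵥ v)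
  refine ⟨fun h => if hh : h.PosDef then M' ⟨h, hh⟩ else 0, ?_, ?_⟩
  · intro h hh
    simp only [hh, dif_pos]
    exact isMean_map (hμ0 _).1 h2 (hAof _).1
  · intro h k A hh hk hA1 hA2
    simp only [hh, hk, dif_pos]
    show ((μ0 (r ⟨h, hh⟩)).map (fun v => Aof ⟨h, hh⟩ *ᵥ v)).map (fun v => A *ᵥ v) =
      (μ0 (r ⟨k, hk⟩)).map (fun v => Aof ⟨k, hk⟩ *ᵥ v)
    have e : r ⟨h, hh⟩ = r ⟨k, hk⟩ := hrr _ _ ⟨A, hA1, hA2⟩
    have f1 := hAof ⟨h, hh⟩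
    have f2 := hAof ⟨k, hk⟩
    rw [e] at f1 ⊢
    have f3 : IsoTo Λ (r ⟨k, hk⟩).1 k (A * Aof ⟨h, hh⟩) := isoTo_mul f1 ⟨hA1, hA2⟩
    have f4 : IsoTo Λ (r ⟨k, hk⟩).1 (r ⟨k, hk⟩).1 ((Aof ⟨k, hk⟩)⁻¹ * (A * Aof ⟨h, hh⟩)) :=
      isoTo_mul f3 (isoTo_inv h2 f2)
    have f5 := (hμ0 (r ⟨k, hk⟩)).2 _ (show (Aof ⟨k, hk⟩)⁻¹ * (A * Aof ⟨h, hh⟩) ∈ isoSet Λ (r ⟨k, hk⟩).1 from f4)
    have hu : IsUnit (Aof ⟨k, hk⟩).det := isUnit_of_pres h2 f2.1
    rw [Measure.map_map (hmeas _) (hmeas _)]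
    conv_rhs => rw [← f5]
    rw [Measure.map_map (hmeas _) (hmeas _)]
    congr 1
    funext v
    simp only [Function.comp_apply, Matrix.mulVec_mulVec]
    rw [← Matrix.mul_assoc (Aof ⟨k, hk⟩), mul_nonsing_inv _ hu, Matrix.one_mul]

end YV
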