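import Pool.Agent.Lib.MP_464db4_gt.YV.ExB
import Pool.Agent.Lib.MP_464db4_gt.YV.AvgB
import Pool.Agent.Lib.MP_464db4_gt.YV.Blk
import Pool.Agent.Lib.MP_464db4_gt.YV.MeanD

/-!
# YV-ExC: the primitive with the natural means, invariance
-/

namespace YV

open Complex Matrix MeasureTheory
open scoped ContDiff ComplexConjugate ComplexOrder

variable {ι κ : Type} [Fintype ι] [DecidableEq ι] [Fintype κ] [DecidableEq κ] {D : Set (ι → ℂ)} {G : Type}
  {T : TorusData ι κ D G} {μ μ' : Measure (κ → ℂ)} {g : (ι ⊕ κ → ℂ) → Matrix (ι ⊕ κ) (ι ⊕ κ) ℂ}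

/-- Images of the product measure. -/
theorem muI_map (hμ : IsMean T.Λ μ) (A : Matrix κ κ ℂ) (hA : μ.map (fun v => A *ᵥ v) = μ') :
    (muI μ).map (fun p : ℝ × (κ → ℂ) => (p.1, A *ᵥ p.2)) = muI μ' := by
  have hprob := hμ.prob
  have hm : Measurable (fun v : κ → ℂ => A *ᵥ v) :=
    (Continuous.matrix_mulVec continuous_const continuous_id).measurable
  have h := Measure.map_prod_map (volume.restrict (Set.Icc (0 : ℝ) 1)) μ measurable_id hm
  rw [Measure.map_id, hA] at h
  exact h.symm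

/-- The pointwise identity behind the invariance of the primitive. -/
theorem exC_point (hg : IsKahler (tot κ D) T.total g) (γ : G) {y : ι ⊕ κ → ℂ} (hy : y ∈ tot κ (T.dom γ)) (a : κ → ℂ)
    (i : ι ⊕ κ) :
    ∑ k, (∑ l, conj ((T.A γ *ᵥ a) l) * g (T.F γ y) k (Sum.inr l)) * jac (T.F γ) y k i =
      ∑ l, conj (a l) * g y i (Sum.inr l) := by
  have h1 : ∀ l : κ, g y i (Sum.inr l) = ∑ k, ∑ m, jac (T.F γ) y k i * g (T.F γ y) k (Sum.inr m) * conj (T.A γ m l) := by
    intro l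
    rw [← kahler_inv_F hg γ hy, conj_entry]
    refine Finset.sum_congr rfl fun k _ => ?_
    rw [Fintype.sum_sum_type]
    have z : ∀ m : ι, jac (T.F γ) y (Sum.inl m) (Sum.inr l) = 0 := by
      intro m
      rw [jac_F T γ hy]
      rfl
    have z2 : ∀ m : κ, jac (T.F γ) y (Sum.inr m) (Sum.inr l) = T.A γ m l := by
      intro m
      rw [jac_F T γ hy]
      rfl
    simp only [z, z2, map_zero, mul_zero, Finset.sum_const_zero, zero_add]
  have hL : ∀ k, (∑ l, conj ((T.A γ *ᵥ a) l) * g (T.F γ y) k (Sum.inr l)) * jac (T.F γ) y k i =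
      ∑ m, ∑ l, jac (T.F γ) y k i * g (T.F γ y) k (Sum.inr m) * conj (T.A γ m l) * conj (a l) := by
    intro k
    rw [Finset.sum_mul]
    refine Finset.sum_congr rfl fun m _ => ?_
    have e : conj ((T.A γ *ᵥ a) m) = ∑ l, conj (T.A γ m l) * conj (a l) := by
      simp only [Matrix.mulVec, dotProduct, map_sum, map_mul]
    rw [e, Finset.sum_mul, Finset.sum_mul]
    refine Finset.sum_congr rfl fun l _ => ?_
    ring
  have hR : ∀ l, conj (a l) * g y i (Sum.inr l) =
      ∑ k, ∑ m, jac (T.F γ) y k i * g (T.F γ y) k (Sum.inr m) * conj (T.A γ m l) * conj (a l) := by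
    intro l
    rw [h1 l, Finset.mul_sum]
    refine Finset.sum_congr rfl fun k _ => ?_
    rw [Finset.mul_sum]
    refine Finset.sum_congr rfl fun m _ => ?_
    ring
  simp only [hL, hR]
  rw [Finset.sum_comm (s := (Finset.univ : Finset κ)) (t := (Finset.univ : Finset (ι ⊕ κ)))]
  refine Finset.sum_congr rfl fun k _ => ?_
  exact Finset.sum_comm

/-- The primitives for two means related by the isometry. -/
theorem prim_F (hμ : IsMean T.Λ μ) (hg : IsKahler (tot κ D) T.total g) (γ : G)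
    (hA : μ.map (fun v => T.A γ *ᵥ v) = μ') {x : ι ⊕ κ → ℂ} (hx : x ∈ tot κ (T.dom γ)) (i : ι ⊕ κ) :
    ∑ k, prim μ' g (T.F γ x) k * jac (T.F γ) x k i = prim μ g x i := by
  have hFx : T.F γ x ∈ tot κ D := F_mem_tot T γ hx
  have hxD : x ∈ tot κ D := mem_tot_of_dom T γ hx
  have hJa : ∀ a : κ → ℂ, jac (T.F γ) (x + pt 0 a) = jac (T.F γ) x := by
    intro a
    rw [jac_F T γ (add_mem_tot hx a), jac_F T γ hx, bas_add_pt]
  have hAm : Continuous (fun p : ℝ × (κ → ℂ) => (p.1, T.A γ *ᵥ p.2)) :=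
    continuous_fst.prodMk (Continuous.matrix_mulVec continuous_const continuous_snd)
  have hw : ∀ l : κ, Continuous (fun p : ℝ × (κ → ℂ) => conj (p.2 l)) := fun l =>
    continuous_conj.comp ((continuous_apply l).comp continuous_snd)
  have hc : ∀ k (l : κ), Continuous (fun p : ℝ × (κ → ℂ) => conj (p.2 l) * g (T.F γ x + pt 0 (p.1 • p.2)) k (Sum.inr l)) :=
    fun k l => (hw l).mul (cont_seg (hg.smooth k (Sum.inr l)).continuousOn hFx)
  have hcx : ∀ k (l : κ), Continuous (fun p : ℝ × (κ → ℂ) => conj (p.2 l) * g (x + pt 0 (p.1 • p.2)) k (Sum.inr l)) :=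
    fun k l => (hw l).mul (cont_seg (hg.smooth k (Sum.inr l)).continuousOn hxD)
  have e1 : ∀ k (l : κ), ∫ p, conj (p.2 l) * g (T.F γ x + pt 0 (p.1 • p.2)) k (Sum.inr l) ∂(muI μ') =
      ∫ p, conj ((T.A γ *ᵥ p.2) l) * g (T.F γ (x + pt 0 (p.1 • p.2))) k (Sum.inr l) ∂(muI μ) := by
    intro k l
    rw [← muI_map hμ (T.A γ) hA, integral_map hAm.aemeasurable (hc k l).aestronglyMeasurable]
    refine integral_congr_ae (Filter.Eventually.of_forall fun p => ?_)
    simp only
    rw [F_add, Matrix.mulVec_smul]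
  have hi : ∀ k (l : κ), Integrable (fun p : ℝ × (κ → ℂ) =>
      conj ((T.A γ *ᵥ p.2) l) * g (T.F γ (x + pt 0 (p.1 • p.2))) k (Sum.inr l)) (muI μ) := by
    intro k l
    have h := (hc k l).comp hAm
    refine (muI_integrable hμ h).congr (Filter.Eventually.of_forall fun p => ?_)
    simp only [Function.comp_apply]
    rw [F_add, Matrix.mulVec_smul]
  unfold prim
  simp only [e1]
  have e2 : ∀ k, -I * (∑ l : κ, ∫ p, conj ((T.A γ *ᵥ p.2) l) * g (T.F γ (x + pt 0 (p.1 • p.2))) k (Sum.inr l) ∂(muI μ)) *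
      jac (T.F γ) x k i = -I * ∫ p, (∑ l : κ, conj ((T.A γ *ᵥ p.2) l) * g (T.F γ (x + pt 0 (p.1 • p.2))) k (Sum.inr l)) *
        jac (T.F γ) x k i ∂(muI μ) := by
    intro k
    rw [integral_mul_const, integral_finsetSum _ fun l _ => hi k l]
    ring
  simp only [e2]
  rw [← Finset.mul_sum, ← integral_finsetSum _ fun k _ => (integrable_finsetSum _ fun l _ => hi k l).mul_const _,
    ← integral_finsetSum _ fun l _ => muI_integrable hμ (hcx i l)]
  congr 1
  refine integral_congr_ae (Filter.Eventually.of_forall fun p => ?_)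
  have h := exC_point hg γ (y := x + pt 0 (p.1 • p.2)) (add_mem_tot hx _) p.2 i
  rw [hJa] at h
  exact h

theorem prim_shift (hg : IsKahler (tot κ D) T.total g) {v : κ → ℂ} (hv : v ∈ T.Λ)
    {x : ι ⊕ κ → ℂ} (hx : x ∈ tot κ D) (i : ι ⊕ κ) : prim μ g (x + pt 0 v) i = prim μ g x i := by
  unfold prim
  congr 1
  refine Finset.sum_congr rfl fun l _ => ?_
  refine integral_congr_ae (Filter.Eventually.of_forall fun p => ?_)
  have e : x + pt 0 v + pt 0 (p.1 • p.2) = (x + pt 0 (p.1 • p.2)) + pt 0 v := by abel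
  simp only
  rw [e, kahler_inv_shift hg hv (add_mem_tot hx _)]

/-- The average does not depend on the mean. -/
theorem avg_eq (hμ : IsMean T.Λ μ) (hμ' : IsMean T.Λ μ') (hg : IsKahler (tot κ D) T.total g) {x : ι ⊕ κ → ℂ}
    (hx : x ∈ tot κ D) : avg μ g x = avg μ' g x := by
  ext i j
  exact isMean_unique hμ hμ' (continuous_fibre (f := fun y => g y i j) (hg.smooth i j).continuousOn hx)
    (fun v hv a => by rw [periodic hg hx hv a])

/-- The primitive for a choice of means depending on the vertical block. -/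
noncomputable def primM (M : Matrix κ κ ℂ → Measure (κ → ℂ)) (gm g : (ι ⊕ κ → ℂ) → Matrix (ι ⊕ κ) (ι ⊕ κ) ℂ)
    (x : ι ⊕ κ → ℂ) (i : ι ⊕ κ) : ℂ :=
  prim (M ((gm (pt (bas x) 0)).toBlocks₂₂)) g x i

theorem primM_isPrimitive (hD : IsOpen D) {M : Matrix κ κ ℂ → Measure (κ → ℂ)} (hM : ∀ h, h.PosDef → IsMean T.Λ (M h))
    (hnat : ∀ h k A : Matrix κ κ ℂ, h.PosDef → k.PosDef → (fun v => A *ᵥ v) '' (T.Λ : Set (κ → ℂ)) = T.Λ →
      Aᵀ * k * mconj A = h → (M h).map (fun v => A *ᵥ v) = M k)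
    (hμ : IsMean T.Λ μ) (hg : IsKahler (tot κ D) T.total g) :
    IsPrimitive (tot κ D) T.total g (avg μ g) (primM M (avg μ g) g) := by
  have hgm : IsKahler (tot κ D) T.total (avg μ g) := avg_isKahler hD hμ hg
  have hc : FibreConst D (avg μ g) := fun x hx a => avg_fibre hD hμ hg hx a
  have hloc : ∀ x ∈ tot κ D, ∃ V : Set (ι → ℂ), IsOpen V ∧ x ∈ tot κ V ∧ V ⊆ D ∧ ∃ h : Matrix κ κ ℂ, h.PosDef ∧
      ∀ y ∈ tot κ V, ∀ i, primM M (avg μ g) g y i = prim (M h) g y i := by
    intro x hx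
    have hb : bas x ∈ D := hx
    obtain ⟨V, hV, hbV, hVD, hcon⟩ := vert_loc hD hgm hc hb
    refine ⟨V, hV, hbV, hVD, _, vert_pos hgm hb, fun y hy i => ?_⟩
    unfold primM
    rw [hcon _ hy]
  refine ⟨fun i => ?_, ?_, fun x hx i j => ?_, fun x hx i j => ?_⟩
  · refine contDiffOn_of_locally_contDiffOn fun x hx => ?_
    obtain ⟨V, hV, hxV, hVD, h, hh, heq⟩ := hloc x hx
    refine ⟨tot κ V, isOpen_tot hV, hxV, ?_⟩
    exact ((prim_smooth hD (hM h hh) hg i).mono Set.inter_subset_left).congr fun y hy => heq y hy.2 i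
  · intro F hF x hx i
    rcases hF with ⟨γ, rfl⟩ | ⟨v, hv, rfl⟩
    · replace hx : x ∈ tot κ (T.dom γ) := hx
      show ∑ k, primM M (avg μ g) g (T.F γ x) k * jac (T.F γ) x k i = primM M (avg μ g) g x i
      have hb : bas x ∈ T.dom γ := hx
      unfold primM
      rw [bas_F]
      exact prim_F (hM _ (vert_pos hgm (T.dom_sub γ hb))) hg γ
        (hnat _ _ _ (vert_pos hgm (T.dom_sub γ hb)) (vert_pos hgm (T.f_maps γ _ hb)) (T.A_pres γ)
          (vert_inv hgm hc γ hb)) hx i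
    · replace hx : x ∈ tot κ D := hx
      show ∑ k, primM M (avg μ g) g (shift v x) k * jac (shift v) x k i = primM M (avg μ g) g x i
      rw [jac_shift]
      simp only [Matrix.one_apply, mul_ite, mul_one, mul_zero, Finset.sum_ite_eq', Finset.mem_univ, if_true]
      show primM M (avg μ g) g (x + pt 0 v) i = primM M (avg μ g) g x i
      unfold primM
      rw [bas_add_pt]
      exact prim_shift hg hv hx i
  · obtain ⟨V, hV, hxV, hVD, h, hh, heq⟩ := hloc x hx
    rw [dz_congr_on (isOpen_tot hV) (fun y hy => heq y hy j) hxV,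
      dz_congr_on (isOpen_tot hV) (fun y hy => heq y hy i) hxV]
    exact prim_sym hD (hM h hh) hg hx i j
  · obtain ⟨V, hV, hxV, hVD, h, hh, heq⟩ := hloc x hx
    rw [dz_congr_on (isOpen_tot hV) (h := fun y => conj (prim (M h) g y j)) (fun y hy => by rw [heq y hy j]) hxV,
      dzbar_congr_on (isOpen_tot hV) (fun y hy => heq y hy i) hxV]
    have e := prim_eq hD (hM h hh) hg hx i j
    rw [avg_eq (hM h hh) hμ hg hx] at e
    exact e

end YV
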