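import Pool.Agent.Lib.MP_464db4_gt.YV.ScalM
import Pool.Agent.Lib.MP_464db4_gt.YV.MeanD
import Pool.Agent.Lib.MP_464db4_gt.YV.ExC
import Pool.Agent.Lib.MP_464db4_gt.YV.AvgE
import Pool.Agent.Lib.MP_464db4_gt.YV.EpsC

/-!
# YV-Iff: the equivalence
The class of `g` contains a form of constant scalar curvature `c` which is invariant under the translations of the fibres if and only if
the class of `schur gm` on the base contains a form of constant scalar curvature `c`.
-/

namespace YV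

open Complex Matrix MeasureTheory
open scoped ContDiff ComplexConjugate ComplexOrder

variable {ι κ : Type} [Fintype ι] [DecidableEq ι] [Fintype κ] [DecidableEq κ] {D : Set (ι → ℂ)} {G : Type}
  {T : TorusData ι κ D G}

theorem IsPrimitive.trans {U : Set (ι → ℂ)} (hU : IsOpen U) {S : Set (LMap ι)} {g g' g'' : (ι → ℂ) → Matrix ι ι ℂ}
    {e e' : (ι → ℂ) → (ι → ℂ)} (h : IsPrimitive U S g g' e) (h' : IsPrimitive U S g' g'' e') :
    IsPrimitive U S g g'' (fun x => e x + e' x) := by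
  have d1 : ∀ x ∈ U, ∀ i, DifferentiableAt ℝ (fun y => e y i) x := fun x hx i =>
    (((h.smooth i).differentiableOn (by simp)) x hx).differentiableAt (hU.mem_nhds hx)
  have d2 : ∀ x ∈ U, ∀ i, DifferentiableAt ℝ (fun y => e' y i) x := fun x hx i =>
    (((h'.smooth i).differentiableOn (by simp)) x hx).differentiableAt (hU.mem_nhds hx)
  have c1 : ∀ x ∈ U, ∀ i, DifferentiableAt ℝ (fun y => conj (e y i)) x := fun x hx i =>
    Complex.conjCLE.differentiableAt.comp x (d1 x hx i)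
  have c2 : ∀ x ∈ U, ∀ i, DifferentiableAt ℝ (fun y => conj (e' y i)) x := fun x hx i =>
    Complex.conjCLE.differentiableAt.comp x (d2 x hx i)
  refine ⟨?_, ?_, ?_, ?_⟩
  · intro i
    exact (h.smooth i).add (h'.smooth i)
  · intro F hF x hx i
    simp only [Pi.add_apply, add_mul, Finset.sum_add_distrib]
    rw [h.inv F hF x hx i, h'.inv F hF x hx i]
  · intro x hx i j
    simp only [Pi.add_apply]
    rw [dz_add i (d1 x hx j) (d2 x hx j), dz_add j (d1 x hx i) (d2 x hx i), h.sym x hx i j, h'.sym x hx i j]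
  · intro x hx i j
    have e1 := h.eq x hx i j
    have e2 := h'.eq x hx i j
    simp only [Pi.add_apply, map_add]
    rw [dz_add i (c1 x hx j) (c2 x hx j), dzbar_add j (d1 x hx i) (d2 x hx i)]
    linear_combination e1 + e2

theorem IsPrimitive.symm {U : Set (ι → ℂ)} (hU : IsOpen U) {S : Set (LMap ι)} {g g' : (ι → ℂ) → Matrix ι ι ℂ}
    {e : (ι → ℂ) → (ι → ℂ)} (h : IsPrimitive U S g g' e) : IsPrimitive U S g' g (fun x => -e x) := by
  have hd : ∀ x ∈ U, ∀ i, DifferentiableAt ℝ (fun y => e y i) x := fun x hx i =>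
    ((h.smooth i).contDiffAt (hU.mem_nhds hx)).differentiableAt (by simp)
  have hdc : ∀ x ∈ U, ∀ i, DifferentiableAt ℝ (fun y => conj (e y i)) x := fun x hx i =>
    ((conj_contDiffOn (h.smooth i)).contDiffAt (hU.mem_nhds hx)).differentiableAt (by simp)
  have e1 : ∀ i, (fun y => (-e y) i) = fun y => (-1 : ℂ) * e y i := by
    intro i
    funext y
    rw [Pi.neg_apply, neg_one_mul]
  have e2 : ∀ i, (fun y => conj ((-e y) i)) = fun y => (-1 : ℂ) * conj (e y i) := by
    intro i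
    funext y
    rw [Pi.neg_apply, map_neg, neg_one_mul]
  refine ⟨fun i => ?_, fun F hF x hx i => ?_, fun x hx i j => ?_, fun x hx i j => ?_⟩
  · exact (h.smooth i).neg
  · have h1 := h.inv F hF x hx i
    simp only [Pi.neg_apply, neg_mul, Finset.sum_neg_distrib]
    rw [h1]
  · rw [e1, e1, dz_const_mul _ _ (hd x hx j), dz_const_mul _ _ (hd x hx i), h.sym x hx]
  · have h1 := h.eq x hx i j
    rw [e1, e2, dz_const_mul _ _ (hdc x hx j), dzbar_const_mul _ _ (hd x hx i)]
    linear_combination -h1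

theorem scal_congr_on {U : Set (ι → ℂ)} (hU : IsOpen U) {g g' : (ι → ℂ) → Matrix ι ι ℂ} (h : ∀ x ∈ U, g x = g' x) {x : ι → ℂ}
    (hx : x ∈ U) : scal g x = scal g' x := by
  have h1 : ∀ y ∈ U, logdet g y = logdet g' y := by
    intro y hy
    unfold logdet
    rw [h y hy]
  unfold scal
  rw [h x hx]
  congr 1
  refine Finset.sum_congr rfl fun i _ => Finset.sum_congr rfl fun j _ => ?_
  congr 1
  exact dz_congr_on hU (fun y hy => dzbar_congr_on hU h1 hy j) hx i

theorem schur_scal (hD : IsOpen D) {g' : (ι ⊕ κ → ℂ) → Matrix (ι ⊕ κ) (ι ⊕ κ) ℂ}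
    (hg : IsKahler (tot κ D) T.total g') (hc : FibreConst D g') {x : ι ⊕ κ → ℂ} (hx : x ∈ tot κ D) :
    scal g' x = scal (schur g') (bas x) := by
  have h1 : ∀ y ∈ tot κ D, g' y = glue g' (schur g') y := by
    intro y hy
    rw [glue_eq hg hc hy, sub_self, fromBlocks_zero, add_zero]
  rw [scal_congr_on (isOpen_tot hD) h1 hx]
  exact scal_glue hD hg hc (schur_isKahler hD hg hc) hx

/-- Every class contains a form which is constant along the fibres. -/
theorem exists_fibreConst (hD : IsOpen D) {g : (ι ⊕ κ → ℂ) → Matrix (ι ⊕ κ) (ι ⊕ κ) ℂ} (hg : IsKahler (tot κ D) T.total g) :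
    ∃ gm, IsKahler (tot κ D) T.total gm ∧ FibreConst D gm ∧ Cohomologous (tot κ D) T.total g gm := by
  obtain ⟨μ0, hμ0⟩ := exists_isMean T.Λ T.disc T.span
  obtain ⟨M, hM, hnat⟩ := exists_natural_mean T.disc T.span
  exact ⟨avg μ0 g, avg_isKahler hD hμ0 hg, fun x hx a => avg_fibre hD hμ0 hg hx a,
    ⟨_, primM_isPrimitive hD hM hnat hμ0 hg⟩⟩

theorem Cohomologous.trans {U : Set (ι → ℂ)} (hU : IsOpen U) {S : Set (LMap ι)} {g g' g'' : (ι → ℂ) → Matrix ι ι ℂ}
    (h : Cohomologous U S g g') (h' : Cohomologous U S g' g'') : Cohomologous U S g g'' := by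
  obtain ⟨e, he⟩ := h
  obtain ⟨e', he'⟩ := h'
  exact ⟨_, he.trans hU he'⟩

theorem Cohomologous.symm {U : Set (ι → ℂ)} (hU : IsOpen U) {S : Set (LMap ι)} {g g' : (ι → ℂ) → Matrix ι ι ℂ}
    (h : Cohomologous U S g g') : Cohomologous U S g' g := by
  obtain ⟨e, he⟩ := h
  exact ⟨_, he.symm hU⟩

theorem glue_fibreConst (gm : (ι ⊕ κ → ℂ) → Matrix (ι ⊕ κ) (ι ⊕ κ) ℂ) (β' : (ι → ℂ) → Matrix ι ι ℂ) : FibreConst D (glue gm β') := by
  intro x _ a
  unfold glue
  rw [bas_add_pt]

/-- The class of the form induced on the base depends only on the class of the form. -/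
theorem schur_cohomologous (hD : IsOpen D) {gm g' : (ι ⊕ κ → ℂ) → Matrix (ι ⊕ κ) (ι ⊕ κ) ℂ}
    (hgm : IsKahler (tot κ D) T.total gm) (hc : FibreConst D gm) (hg' : IsKahler (tot κ D) T.total g') (hc' : FibreConst D g')
    (h : Cohomologous (tot κ D) T.total gm g') : Cohomologous D T.base (schur gm) (schur g') := by
  obtain ⟨e, he⟩ := h
  obtain ⟨μ0, hμ0⟩ := exists_isMean T.Λ T.disc T.span
  exact ⟨_, epsB_isPrimitive hD hgm hc hg' hc' (avgE_isPrimitive hD hμ0 hc hc' he)
    (fun x hx a => avgE_fibre hD hμ0 he hx a)⟩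

/-- The equivalence, for every form of the class which is constant along the fibres. -/
theorem fibreConst_iff (hD : IsOpen D) {g gm : (ι ⊕ κ → ℂ) → Matrix (ι ⊕ κ) (ι ⊕ κ) ℂ}
    (hgm : IsKahler (tot κ D) T.total gm) (hc : FibreConst D gm) (hcoh : Cohomologous (tot κ D) T.total g gm) (c : ℝ) :
    (∃ β', IsKahler D T.base β' ∧ Cohomologous D T.base (schur gm) β' ∧ ∀ b ∈ D, scal β' b = c) ↔
    (∃ g', IsKahler (tot κ D) T.total g' ∧ FibreConst D g' ∧ Cohomologous (tot κ D) T.total g g' ∧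
      ∀ x ∈ tot κ D, scal g' x = c) := by
  have hU : IsOpen (tot κ D) := isOpen_tot hD
  constructor
  · rintro ⟨β', hβ, ⟨ε, hε⟩, hs⟩
    refine ⟨glue gm β', glue_isKahler hD hgm hc hβ, glue_fibreConst gm β',
      hcoh.trans hU ⟨_, glue_prim hD hgm hc hβ hε⟩, fun x hx => ?_⟩
    rw [scal_glue hD hgm hc hβ hx]
    exact hs _ hx
  · rintro ⟨g', hg', hc', hcoh', hs⟩
    refine ⟨schur g', schur_isKahler hD hg' hc',
      schur_cohomologous hD hgm hc hg' hc' ((hcoh.symm hU).trans hU hcoh'), fun b hb => ?_⟩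
    have hb' : (pt b 0 : ι ⊕ κ → ℂ) ∈ tot κ D := pt_mem_tot hb 0
    have h1 := schur_scal hD hg' hc' hb'
    rw [bas_pt] at h1
    rw [← h1]
    exact hs _ hb'

/-- If every class of the base contains a form of constant scalar curvature, so does every class of the total space. -/
theorem everyClass_total {G : Type} (hD : IsOpen D) (T : TorusData ι κ D G) (h : EveryClassCscK D T.base) :
    EveryClassCscK (tot κ D) T.total := by
  intro g hg
  obtain ⟨gm, hgm, hc, hcoh⟩ := exists_fibreConst hD hg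
  obtain ⟨β', hβ', hcohβ, c, hcβ⟩ := h (schur gm) (schur_isKahler hD hgm hc)
  obtain ⟨g', h1, -, h2, h3⟩ := (fibreConst_iff hD hgm hc hcoh c).1 ⟨β', hβ', hcohβ, hcβ⟩
  exact ⟨g', h1, h2, c, h3⟩

end YV
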