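import Pool.Agent.Lib.MP_464db4_gt.YV.Defs

/-!
# YV-MeanA: means of Λ-periodic functions
* existence: `P = ZSpan.fundamentalDomain (b.ofZLatticeBasis ℝ)` for a `ℤ`-basis `b` of `Λ` (`ZLattice.isAddFundamentalDomain`), bounded
  (`ZSpan.fundamentalDomain_isBounded`), of positive finite volume; `μ = (volume P)⁻¹ • volume.restrict P`.  The mean property: `z +ᵥ P` is again a
  fundamental domain (`IsAddFundamentalDomain.vadd_of_comm`), `IsAddFundamentalDomain.setIntegral_eq`, and translation invariance of `volume`.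
* uniqueness: `∫ u dμ = ∫∫ u(z+a) dμ(a) dμ'(z) = ∫∫ u(z+a) dμ'(z) dμ(a) = ∫ u dμ'` (Fubini: `u` is bounded because it is continuous and
  the supports are bounded: `u(z+a)` is bounded on the product of two balls; `integral_integral_swap`).
-/

namespace YV

open Complex Matrix MeasureTheory
open scoped ContDiff ComplexConjugate ComplexOrder

variable {κ : Type} [Fintype κ] [DecidableEq κ]

/-- `μ` is a probability measure with bounded support which computes the mean value of the continuous `Λ`-periodic functions. -/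
structure IsMean (Λ : Submodule ℤ (κ → ℂ)) (μ : Measure (κ → ℂ)) : Prop where
  prob : IsProbabilityMeasure μ
  bdd : ∃ R : ℝ, ∀ᵐ a ∂μ, ‖a‖ ≤ R
  mean : ∀ u : (κ → ℂ) → ℂ, Continuous u → (∀ v ∈ Λ, ∀ a, u (a + v) = u a) → ∀ z, ∫ a, u (z + a) ∂μ = ∫ a, u a ∂μ

open scoped Pointwise in
theorem exists_isMean (Λ : Submodule ℤ (κ → ℂ)) (h1 : DiscreteTopology Λ) (h2 : Submodule.span ℝ (Λ : Set (κ → ℂ)) = ⊤) :
    ∃ μ : Measure (κ → ℂ), IsMean Λ μ := by
  have hZ : IsZLattice ℝ Λ := ⟨h2⟩
  have hfin : Module.Finite ℤ Λ := ZLattice.module_finite ℝ Λ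
  have hfree : Module.Free ℤ Λ := ZLattice.module_free ℝ Λ
  let b := Module.Free.chooseBasis ℤ Λ
  set P : Set (κ → ℂ) := ZSpan.fundamentalDomain (b.ofZLatticeBasis ℝ Λ) with hP
  have hF : IsAddFundamentalDomain Λ P (volume : Measure (κ → ℂ)) := ZLattice.isAddFundamentalDomain b volume
  have hb : Bornology.IsBounded P := ZSpan.fundamentalDomain_isBounded _
  have hm : MeasurableSet P := ZSpan.fundamentalDomain_measurableSet _
  have h0 : volume P ≠ 0 := ZSpan.measure_fundamentalDomain_ne_zero _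
  have hT : volume P ≠ ⊤ := hb.measure_lt_top.ne
  refine ⟨(volume P)⁻¹ • volume.restrict P, ?_, ?_, ?_⟩
  · refine ⟨?_⟩
    rw [Measure.smul_apply, Measure.restrict_apply_univ, smul_eq_mul]
    exact ENNReal.inv_mul_cancel h0 hT
  · obtain ⟨R, hR⟩ := hb.subset_closedBall 0
    refine ⟨R, ?_⟩
    refine Measure.ae_smul_measure ?_ _
    filter_upwards [ae_restrict_mem hm] with a ha
    have := hR ha
    rwa [mem_closedBall_zero_iff] at this
  · intro u hu hp z
    rw [integral_smul_measure, integral_smul_measure]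
    congr 1
    have hinv : VAddInvariantMeasure Λ (κ → ℂ) (volume : Measure (κ → ℂ)) :=
      ⟨fun c s _ => measure_preimage_add volume (c : κ → ℂ) s⟩
    have h3 : IsAddFundamentalDomain Λ (z +ᵥ P) (volume : Measure (κ → ℂ)) := hF.vadd_of_comm z
    have h4 : ∫ a in z +ᵥ P, u a = ∫ a in P, u a := by
      refine h3.setIntegral_eq hF fun g x => ?_
      have : g +ᵥ x = x + (g : κ → ℂ) := add_comm _ _
      rw [this]
      exact hp _ g.2 x
    rw [← h4]
    have h5 := (measurePreserving_add_left (volume : Measure (κ → ℂ)) z).setIntegral_preimage_emb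
      (measurableEmbedding_addLeft z) u (z +ᵥ P)
    rw [← h5]
    congr 1
    congr 1
    ext a
    simp [Set.mem_vadd_set, vadd_eq_add]

theorem IsMean.integrable {Λ : Submodule ℤ (κ → ℂ)} {μ : Measure (κ → ℂ)} (h : IsMean Λ μ) {u : (κ → ℂ) → ℂ} (hu : Continuous u) :
    Integrable u μ := by
  have := h.prob
  obtain ⟨R, hR⟩ := h.bdd
  obtain ⟨C, hC⟩ := (isCompact_closedBall (0 : κ → ℂ) R).exists_bound_of_continuousOn hu.continuousOn
  refine Integrable.of_bound hu.aestronglyMeasurable C ?_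
  filter_upwards [hR] with a ha
  exact hC a (by rwa [mem_closedBall_zero_iff])

theorem isMean_unique {Λ : Submodule ℤ (κ → ℂ)} {μ μ' : Measure (κ → ℂ)} (h : IsMean Λ μ) (h' : IsMean Λ μ')
    {u : (κ → ℂ) → ℂ} (hu : Continuous u) (hp : ∀ v ∈ Λ, ∀ a, u (a + v) = u a) : ∫ a, u a ∂μ = ∫ a, u a ∂μ' := by
  have := h.prob
  have := h'.prob
  obtain ⟨R, hR⟩ := h.bdd
  obtain ⟨R', hR'⟩ := h'.bdd
  have hint : Integrable (Function.uncurry fun z a : κ → ℂ => u (z + a)) (μ'.prod μ) := by
    obtain ⟨C, hC⟩ := (isCompact_closedBall (0 : κ → ℂ) (R' + R)).exists_bound_of_continuousOn hu.continuousOn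
    have hc : Continuous (Function.uncurry fun z a : κ → ℂ => u (z + a)) :=
      hu.comp (continuous_fst.add continuous_snd)
    refine Integrable.of_bound hc.aestronglyMeasurable C ?_
    filter_upwards [Measure.quasiMeasurePreserving_fst.ae hR', Measure.quasiMeasurePreserving_snd.ae hR] with p hp1 hp2
    refine hC (p.1 + p.2) ?_
    rw [mem_closedBall_zero_iff]
    exact (norm_add_le _ _).trans (add_le_add hp1 hp2)
  calc ∫ a, u a ∂μ = ∫ z, ∫ a, u (z + a) ∂μ ∂μ' := by
        have : ∀ z, ∫ a, u (z + a) ∂μ = ∫ a, u a ∂μ := h.mean u hu hp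
        simp [this]
    _ = ∫ a, ∫ z, u (z + a) ∂μ' ∂μ := integral_integral_swap hint
    _ = ∫ a, u a ∂μ' := by
        have : ∀ a, ∫ z, u (z + a) ∂μ' = ∫ a, u a ∂μ' := by
          intro a
          rw [← h'.mean u hu hp a]
          congr 1
          ext z
          rw [add_comm]
        simp [this]

end YV
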