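import Pool.Agent.Lib.MP_464db4_gt.YV.ParA
import Pool.Agent.Lib.MP_464db4_gt.YV.WirtA

/-!
# YV-ParB: Wirtinger derivatives of integrals of translates
From `hasFDerivAt_intTrans` (module ParA): `fderiv ℝ (fun x => ∫ w p * f (x+v p)) x u = ∫ w p * fderiv ℝ f (x + v p) u`
(`ContinuousLinearMap.integral_apply`, the integrand is integrable by `integrable_intTrans` applied to `fderiv ℝ f`, whose continuity on `U` is
`ContDiffOn.continuousOn_fderiv_of_isOpen`), then the definition of `dz`, `dzbar`, `integral_sub`, `integral_const_mul`.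
-/

namespace YV

open Complex Matrix MeasureTheory
open scoped ContDiff ComplexConjugate ComplexOrder

variable {ι : Type} [Fintype ι] [DecidableEq ι]
  {P : Type} [MeasurableSpace P] (ν : Measure P) {U : Set (ι → ℂ)} (hU : IsOpen U) {C : Set (ι → ℂ)} (hC : IsCompact C)
  (hUC : ∀ x ∈ U, ∀ c ∈ C, x + c ∈ U) {v : P → (ι → ℂ)} (hv : AEStronglyMeasurable v ν) (hvC : ∀ᵐ p ∂ν, v p ∈ C)
  {w : P → ℂ} (hw : Integrable w ν) {f : (ι → ℂ) → ℂ}

include hU hC hUC hv hvC hw

theorem integrable_mulTrans (hf : ContinuousOn f U) {x : ι → ℂ} (hx : x ∈ U) : Integrable (fun p => w p * f (x + v p)) ν := by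
  simpa only [smul_eq_mul] using integrable_intTrans ν hU hC hUC hv hvC hw hf hx

theorem contDiffOn_mulTrans (hf : ContDiffOn ℝ ∞ f U) : ContDiffOn ℝ ∞ (fun x => ∫ p, w p * f (x + v p) ∂ν) U := by
  simpa only [smul_eq_mul] using contDiffOn_intTrans ν hU hC hUC hv hvC hw hf

private theorem integrable_fderivTrans (hf : ContDiffOn ℝ ∞ f U) {x : ι → ℂ} (hx : x ∈ U) :
    Integrable (fun p => w p • fderiv ℝ f (x + v p)) ν :=
  integrable_intTrans ν hU hC hUC hv hvC hw (hf.continuousOn_fderiv_of_isOpen hU (by simp)) hx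

private theorem integrable_fderivTrans_apply (hf : ContDiffOn ℝ ∞ f U) {x : ι → ℂ} (hx : x ∈ U) (u : ι → ℂ) :
    Integrable (fun p => w p * fderiv ℝ f (x + v p) u) ν := by
  have h := (integrable_fderivTrans ν hU hC hUC hv hvC hw hf hx).apply_continuousLinearMap u
  simpa only [ContinuousLinearMap.smul_apply, smul_eq_mul] using h

private theorem fderiv_mulTrans (hf : ContDiffOn ℝ ∞ f U) {x : ι → ℂ} (hx : x ∈ U) (u : ι → ℂ) :
    fderiv ℝ (fun x => ∫ p, w p * f (x + v p) ∂ν) x u = ∫ p, w p * fderiv ℝ f (x + v p) u ∂ν := by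
  have h := (hasFDerivAt_intTrans ν hU hC hUC hv hvC hw hf hx).fderiv
  simp only [smul_eq_mul] at h
  rw [h, ContinuousLinearMap.integral_apply (integrable_fderivTrans ν hU hC hUC hv hvC hw hf hx)]
  simp only [ContinuousLinearMap.smul_apply, smul_eq_mul]

theorem dz_mulTrans (hf : ContDiffOn ℝ ∞ f U) {x : ι → ℂ} (hx : x ∈ U) (i : ι) :
    dz i (fun x => ∫ p, w p * f (x + v p) ∂ν) x = ∫ p, w p * dz i f (x + v p) ∂ν := by
  have h1 := integrable_fderivTrans_apply ν hU hC hUC hv hvC hw hf hx (Pi.single i 1)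
  have h2 := integrable_fderivTrans_apply ν hU hC hUC hv hvC hw hf hx (Pi.single i I)
  have h3 : (fun p => w p * dz i f (x + v p)) = fun p =>
      (1 / 2 : ℂ) * (w p * fderiv ℝ f (x + v p) (Pi.single i 1)) -
        (I / 2 : ℂ) * (w p * fderiv ℝ f (x + v p) (Pi.single i I)) := by
    funext p
    unfold dz
    ring
  rw [h3, integral_sub (h1.const_mul _) (h2.const_mul _), integral_const_mul, integral_const_mul]
  unfold dz
  rw [fderiv_mulTrans ν hU hC hUC hv hvC hw hf hx, fderiv_mulTrans ν hU hC hUC hv hvC hw hf hx]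
  ring

theorem dzbar_mulTrans (hf : ContDiffOn ℝ ∞ f U) {x : ι → ℂ} (hx : x ∈ U) (i : ι) :
    dzbar i (fun x => ∫ p, w p * f (x + v p) ∂ν) x = ∫ p, w p * dzbar i f (x + v p) ∂ν := by
  have h1 := integrable_fderivTrans_apply ν hU hC hUC hv hvC hw hf hx (Pi.single i 1)
  have h2 := integrable_fderivTrans_apply ν hU hC hUC hv hvC hw hf hx (Pi.single i I)
  have h3 : (fun p => w p * dzbar i f (x + v p)) = fun p =>
      (1 / 2 : ℂ) * (w p * fderiv ℝ f (x + v p) (Pi.single i 1)) +
        (I / 2 : ℂ) * (w p * fderiv ℝ f (x + v p) (Pi.single i I)) := by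
    funext p
    unfold dzbar
    ring
  rw [h3, integral_add (h1.const_mul _) (h2.const_mul _), integral_const_mul, integral_const_mul]
  unfold dzbar
  rw [fderiv_mulTrans ν hU hC hUC hv hvC hw hf hx, fderiv_mulTrans ν hU hC hUC hv hvC hw hf hx]
  ring

end YV
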