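import Pool.Agent.Lib.MP_464db4_gt.YV.Disc

/-!
# YV-Part: a smooth compactly supported function with `∑ χ(γ x) = 1`
`K0` from `cocompact_set`; `ψ : (Unit → ℂ) → ℝ` smooth, `0 ≤ ψ`, `ψ = 1` on `K0`, compact support contained in `halfPlane` (`exists_contDiff_tsupport_subset` / `exists_contMDiff_...`,
`IsCompact` and a finite sum of bumps `ContDiffBump`, or `exists_smooth_support...`; e.g. `exists_contDiff_one_nhds_of_subset_interior`-style lemmas).
`Ψ x = ∑ᶠ γ, ψ (mob γ x)` (as complex numbers: use `finsum_smooth` with `K = tsupport ψ`) is smooth, positive on `halfPlane` (`∃ γ, mob γ x ∈ K0`, all terms `≥ 0`, `finite_supp`), invariant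
(`mob_mul`, `finsum_shift`); `χ = ψ/Ψ` on `halfPlane`, `0` outside.  Smooth: on `halfPlane` a quotient; outside of `tsupport ψ` it is `0` near the point.
-/

/-!
# YV-Part: a smooth compactly supported function with `∑ χ(γ x) = 1`
`K0` from `cocompact_set`; `ψ : (Unit → ℂ) → ℝ` smooth, `0 ≤ ψ`, `ψ = 1` on `K0`, compact support contained in `halfPlane` (`exists_contDiff_tsupport_subset` / `exists_contMDiff_...`,
`IsCompact` and a finite sum of bumps `ContDiffBump`, or `exists_smooth_support...`; e.g. `exists_contDiff_one_nhds_of_subset_interior`-style lemmas).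
`Ψ x = ∑ᶠ γ, ψ (mob γ x)` (as complex numbers: use `finsum_smooth` with `K = tsupport ψ`) is smooth, positive on `halfPlane` (`∃ γ, mob γ x ∈ K0`, all terms `≥ 0`, `finite_supp`), invariant
(`mob_mul`, `finsum_shift`); `χ = ψ/Ψ` on `halfPlane`, `0` outside.  Smooth: on `halfPlane` a quotient; outside of `tsupport ψ` it is `0` near the point.
-/

namespace YV

open Complex Matrix MeasureTheory
open scoped ContDiff ComplexConjugate ComplexOrder

theorem exists_partition {Γ : Subgroup (Matrix.SpecialLinearGroup (Fin 2) ℝ)} (hΓ : CocompactFuchsian Γ) :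
    ∃ χ : (Unit → ℂ) → ℝ, ContDiff ℝ ∞ χ ∧ (∃ K : Set (Unit → ℂ), IsCompact K ∧ K ⊆ halfPlane ∧ ∀ x, x ∉ K → χ x = 0) ∧
      (∀ x, 0 ≤ χ x) ∧ (∃ x ∈ halfPlane, 0 < χ x) ∧ ∀ x ∈ halfPlane, ∑ᶠ γ : Γ, ((χ (mob γ x) : ℝ) : ℂ) = 1 := by
  obtain ⟨K0, hK0, hK0H, hcov⟩ := cocompact_set hΓ
  obtain ⟨K, hK, hK0K, hKH⟩ := exists_compact_between hK0 isOpen_halfPlane hK0H
  obtain ⟨ψ, hsupp, hψ, hrange⟩ :=
    (isOpen_interior (s := K)).exists_contDiff_support_eq (n := ⊤)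
  have hψ0 : ∀ x, 0 ≤ ψ x := fun x => (hrange ⟨x, rfl⟩).1
  have hψpos : ∀ x ∈ K0, 0 < ψ x := by
    intro x hx
    refine lt_of_le_of_ne (hψ0 x) (Ne.symm ?_)
    have : x ∈ Function.support ψ := by rw [hsupp]; exact hK0K hx
    exact this
  have hψz : ∀ x, x ∉ K → ψ x = 0 := by
    intro x hx
    by_contra hne
    have : x ∈ Function.support ψ := hne
    rw [hsupp] at this
    exact hx (interior_subset this)
  -- the sum
  set R : (Unit → ℂ) → ℝ := fun x => ∑ᶠ γ : Γ, ψ (mob γ x) with hR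
  have hfin : ∀ x ∈ halfPlane, (Function.support fun γ : Γ => ψ (mob γ x)).Finite := by
    intro x hx
    refine (finite_supp hΓ hK hKH hx).subset ?_
    intro γ hγ
    by_contra hn
    exact hγ (hψz _ hn)
  have hRpos : ∀ x ∈ halfPlane, 0 < R x := by
    intro x hx
    obtain ⟨γ, hγ, hγx⟩ := hcov x hx
    exact finsum_pos (fun γ => hψ0 _) ⟨⟨γ, hγ⟩, hψpos _ hγx⟩ (hfin x hx)
  have hRinv : ∀ δ : Γ, ∀ x ∈ halfPlane, R (mob δ x) = R x := by
    intro δ x hx
    have h1 : ∀ γ : Γ, ψ (mob γ (mob δ x)) = ψ (mob ((γ * δ : Γ) : Matrix.SpecialLinearGroup (Fin 2) ℝ) x) := by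
      intro γ
      rw [Subgroup.coe_mul, mob_mul _ _ hx]
    simp only [hR]
    rw [finsum_congr h1]
    exact finsum_comp_equiv (f := fun γ : Γ => ψ (mob γ x)) (Equiv.mulRight δ)
  have hRc : ∀ x ∈ halfPlane, ((R x : ℝ) : ℂ) = ∑ᶠ γ : Γ, ((ψ (mob γ x) : ℝ) : ℂ) := by
    intro x hx
    exact Complex.ofRealHom.toAddMonoidHom.map_finsum (hfin x hx)
  have hsm : ContDiffOn ℝ ∞ (fun x => ∑ᶠ γ : Γ, ((ψ (mob γ x) : ℝ) : ℂ)) halfPlane := by
    refine finsum_smooth hΓ hK hKH (ψ := fun γ x => ((ψ (mob γ x) : ℝ) : ℂ)) ?_ ?_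
    · intro γ
      have h1 : ContDiffOn ℝ ∞ (mob γ) halfPlane := hol_contDiffOn isOpen_halfPlane (mob_hol γ)
      exact (Complex.ofRealCLM.contDiff.comp hψ).comp_contDiffOn h1
    · intro γ x _ hx
      rw [hψz _ hx, Complex.ofReal_zero]
  have hRs : ContDiffOn ℝ ∞ R halfPlane := by
    have h1 : ContDiffOn ℝ ∞ (fun x => (∑ᶠ γ : Γ, ((ψ (mob γ x) : ℝ) : ℂ)).re) halfPlane :=
      Complex.reCLM.contDiff.comp_contDiffOn hsm
    refine h1.congr ?_
    intro x hx
    rw [← hRc x hx, Complex.ofReal_re]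
  refine ⟨fun x => ψ x / R x, ?_, ⟨K, hK, hKH, ?_⟩, ?_, ?_, ?_⟩
  · rw [contDiff_iff_contDiffAt]
    intro x
    by_cases hx : x ∈ halfPlane
    · exact (hψ.contDiffAt).div (hRs.contDiffAt (isOpen_halfPlane.mem_nhds hx)) (hRpos x hx).ne'
    · have hxK : x ∉ K := fun h => hx (hKH h)
      have h0 : (fun y => ψ y / R y) =ᶠ[nhds x] fun _ => 0 := by
        filter_upwards [hK.isClosed.isOpen_compl.mem_nhds hxK] with y hy
        rw [hψz y hy, zero_div]
      exact contDiffAt_const.congr_of_eventuallyEq h0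
  · intro x hx
    simp only [hψz x hx, zero_div]
  · intro x
    by_cases hx : x ∈ halfPlane
    · exact div_nonneg (hψ0 x) (hRpos x hx).le
    · simp only [hψz x fun h => hx (hKH h), zero_div, le_refl]
  · have hI : (fun _ : Unit => I) ∈ halfPlane := by simp [halfPlane]
    obtain ⟨γ, hγ, hγx⟩ := hcov _ hI
    exact ⟨_, hK0H hγx, div_pos (hψpos _ hγx) (hRpos _ (hK0H hγx))⟩
  · intro x hx
    have h1 : ∀ γ : Γ, ((ψ (mob γ x) / R (mob γ x) : ℝ) : ℂ) = ((ψ (mob γ x) : ℝ) : ℂ) * ((R x : ℝ) : ℂ)⁻¹ := by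
      intro γ
      rw [hRinv γ x hx, Complex.ofReal_div, div_eq_mul_inv]
    rw [finsum_congr h1, ← finsum_mul, ← hRc x hx, mul_inv_cancel₀]
    exact Complex.ofReal_ne_zero.mpr (hRpos x hx).ne'

end YV
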