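import Pool.Agent.Lib.MP_464db4_gt.YV.Iff
import Pool.Agent.Lib.MP_464db4_gt.YV.Curve

/-!
# YV-Res: torus bundles over compact hyperbolic curves
-/

namespace YV

open Complex Matrix MeasureTheory
open scoped ContDiff ComplexConjugate ComplexOrder

theorem curve_total {κ G : Type} [Fintype κ] [DecidableEq κ] {Γ : Subgroup (Matrix.SpecialLinearGroup (Fin 2) ℝ)}
    (hΓ : CocompactFuchsian Γ) (T : TorusData Unit κ halfPlane G) (hT : T.base = mobs Γ) :
    EveryClassCscK (tot κ halfPlane) T.total := by
  refine everyClass_total isOpen_halfPlane T ?_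
  rw [hT]
  exact curve hΓ

end YV
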