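import Pool.Agent.Lib.MP_464db4_gt.YV.Asm

/-!
# YV-ScalM: the scalar curvature of the glued form
On `tot κ D`: `(glue gm β' x).det = h.det * (β' (bas x)).det` (`det_glue`, `h` constant by `vert_loc`), both positive reals (`PosDef.det_pos`), so
`logdet (glue gm β') x = log (h.det.re) + logdet β' (bas x)`.  Hence `dzbar (inl j) (logdet glue) y = dzbar j (logdet β') (bas y)` and `dzbar (inr k) (logdet glue) y = 0` on the open set `tot κ D`,
then `dz (inl i) (...) x = dz i (dzbar j (logdet β')) (bas x)`, `dz (inr k) (...) = 0`.  The sum over `(ι ⊕ κ)²` reduces to the sum over `ι²` and `(glue⁻¹) (inl j) (inl i) = (β'⁻¹) j i` (`inv_glue`).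
Smoothness of `logdet β'` on `D`: `det` is a polynomial in the entries (`Matrix.det_apply`), `Real.log` is smooth at positive reals, `Complex.ofReal`, `re` are real-linear.
-/

namespace YV

open Complex Matrix MeasureTheory
open scoped ContDiff ComplexConjugate ComplexOrder

variable {ι κ : Type} [Fintype ι] [DecidableEq ι] [Fintype κ] [DecidableEq κ] {D : Set (ι → ℂ)} {G : Type}
  {T : TorusData ι κ D G} {gm : (ι ⊕ κ → ℂ) → Matrix (ι ⊕ κ) (ι ⊕ κ) ℂ} {β' : (ι → ℂ) → Matrix ι ι ℂ}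

/-- The determinant of a positive definite matrix is a positive real number. -/
theorem scalm_det {M : Matrix ι ι ℂ} (hM : M.PosDef) : 0 < M.det.re ∧ M.det.im = 0 := by
  have h := Complex.lt_def.1 hM.det_pos
  exact ⟨by simpa using h.1, by simpa using h.2.symm⟩

theorem logdet_smooth {U : Set (ι → ℂ)} {S : Set (LMap ι)} {g : (ι → ℂ) → Matrix ι ι ℂ} (hg : IsKahler U S g) :
    ContDiffOn ℝ ∞ (logdet g) U := by
  have h1 : ContDiffOn ℝ ∞ (fun x => (g x).det) U := by
    simp only [Matrix.det_apply']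
    exact ContDiffOn.sum fun σ _ => contDiffOn_const.mul (contDiffOn_prod fun i _ => hg.smooth _ _)
  have h2 : ContDiffOn ℝ ∞ (fun x => (g x).det.re) U := Complex.reCLM.contDiff.comp_contDiffOn h1
  have h3 : ContDiffOn ℝ ∞ (fun x => Real.log (g x).det.re) U := h2.log fun x hx => (scalm_det (hg.pos x hx)).1.ne'
  exact Complex.ofRealCLM.contDiff.comp_contDiffOn h3

theorem logdet_glue (hD : IsOpen D) (hg : IsKahler (tot κ D) T.total gm) (hc : FibreConst D gm)
    (hβ : IsKahler D T.base β') {b : ι → ℂ} (hb : b ∈ D) : ∃ V : Set (ι → ℂ), IsOpen V ∧ b ∈ V ∧ V ⊆ D ∧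
      ∃ c : ℂ, ∀ x ∈ tot κ V, logdet (glue gm β') x = c + logdet β' (bas x) := by
  obtain ⟨V, hV, hbV, hVD, hcon⟩ := vert_loc hD hg hc hb
  have hh := vert_pos hg hb
  obtain ⟨h, hdef⟩ : ∃ h, h = (gm (pt b 0)).toBlocks₂₂ := ⟨_, rfl⟩
  rw [← hdef] at hcon hh
  refine ⟨V, hV, hbV, hVD, ((Real.log h.det.re : ℝ) : ℂ), fun x hx => ?_⟩
  have hb : bas x ∈ D := hVD hx
  have e1 : (gm (pt (bas x) 0)).toBlocks₂₂ = h := hcon _ hx
  have e2 : (glue gm β' x).det = h.det * (β' (bas x)).det := by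
    unfold glue
    rw [e1]
    exact det_glue hh
  obtain ⟨p1, p2⟩ := scalm_det hh
  obtain ⟨q1, q2⟩ := scalm_det (hβ.pos _ hb)
  unfold logdet
  rw [e2, Complex.mul_re, p2, q2, mul_zero, sub_zero, Real.log_mul p1.ne' q1.ne', Complex.ofReal_add]

theorem scal_glue (hD : IsOpen D) (hg : IsKahler (tot κ D) T.total gm) (hc : FibreConst D gm)
    (hβ : IsKahler D T.base β') {x : ι ⊕ κ → ℂ} (hx : x ∈ tot κ D) : scal (glue gm β') x = scal β' (bas x) := by
  have hb : bas x ∈ D := hx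
  have hU : IsOpen (tot κ D) := isOpen_tot hD
  have hs : ContDiffOn ℝ ∞ (logdet β') D := logdet_smooth hβ
  have hd : ∀ b ∈ D, DifferentiableAt ℝ (logdet β') b := fun b hb => asm_diff hD hs hb
  have hdc : ∀ c : ℂ, ∀ b ∈ D, DifferentiableAt ℝ (fun b => c + logdet β' b) b := fun c b hb => (hd b hb).const_add c
  have hd2 : ∀ j, DifferentiableAt ℝ (fun b => dzbar j (logdet β') b) (bas x) := fun j =>
    asm_diff hD (dzbar_contDiffOn hD hs j) hb
  have a1 : ∀ c : ℂ, ∀ j : ι, ∀ b ∈ D, dzbar j (fun b => c + logdet β' b) b = dzbar j (logdet β') b := by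
    intro c j b hb
    rw [dzbar_add j (differentiableAt_const c) (hd b hb), dzbar_const, zero_add]
  have b1 : ∀ j : ι, ∀ y ∈ tot κ D, dzbar (Sum.inl j) (logdet (glue gm β')) y = (fun b => dzbar j (logdet β') b) (bas y) := by
    intro j y hy
    obtain ⟨V, hV, hyV, hVD, c, hlog⟩ := logdet_glue hD hg hc hβ (b := bas y) hy
    rw [dzbar_congr_on (isOpen_tot hV) (h := fun y => (fun b => c + logdet β' b) (bas y)) hlog hyV, dzbar_bas_inl (hdc c _ hy),
      a1 c j _ hy]
  have b2 : ∀ k : κ, ∀ y ∈ tot κ D, dzbar (Sum.inr k) (logdet (glue gm β')) y = 0 := by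
    intro k y hy
    obtain ⟨V, hV, hyV, hVD, c, hlog⟩ := logdet_glue hD hg hc hβ (b := bas y) hy
    rw [dzbar_congr_on (isOpen_tot hV) (h := fun y => (fun b => c + logdet β' b) (bas y)) hlog hyV, dzbar_bas_inr (hdc c _ hy)]
  have c1 : ∀ i j : ι, dz (Sum.inl i) (fun y => dzbar (Sum.inl j) (logdet (glue gm β')) y) x =
      dz i (fun b => dzbar j (logdet β') b) (bas x) := by
    intro i j
    rw [dz_congr_on hU (b1 j) hx, dz_bas_inl (hd2 j)]
  have c2 : ∀ (k : κ) (j : ι), dz (Sum.inr k) (fun y => dzbar (Sum.inl j) (logdet (glue gm β')) y) x = 0 := by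
    intro k j
    rw [dz_congr_on hU (b1 j) hx, dz_bas_inr (hd2 j)]
  have c3 : ∀ (i : ι ⊕ κ) (k : κ), dz i (fun y => dzbar (Sum.inr k) (logdet (glue gm β')) y) x = 0 := by
    intro i k
    rw [dz_congr_on hU (h := fun _ => 0) (b2 k) hx, dz_const]
  have hh : ((gm (pt (bas x) 0)).toBlocks₂₂).PosDef := vert_posDef (hg.pos _ (pt_mem_tot hb 0))
  have e1 : ∀ i j : ι, (glue gm β' x)⁻¹ (Sum.inl j) (Sum.inl i) = (β' (bas x))⁻¹ j i := by
    intro i j
    have := inv_glue (Q := (gm (pt (bas x) 0)).toBlocks₁₂) (hβ.pos _ hb) hh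
    exact congrFun (congrFun this j) i
  unfold scal
  congr 1
  simp only [Fintype.sum_sum_type, c1, c2, c3, e1, mul_zero, Finset.sum_const_zero, add_zero]

end YV
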