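import Pool.Agent.Lib.MP_464db4_gt.YV.WirtA

/-!
# Smoothness, commutation of Wirtinger derivatives, chain rules

Holomorphic functions of several variables are smooth: the derivative in a fixed direction is given by the Cauchy integral
formula on a small circle in this direction, and can be differentiated under the integral sign.
-/

namespace YV

open Complex Matrix MeasureTheory
open scoped ContDiff ComplexConjugate ComplexOrder

variable {ι κ : Type} [Fintype ι] [DecidableEq ι] [Fintype κ] [DecidableEq κ] {f : (ι → ℂ) → ℂ} {x : ι → ℂ} {U : Set (ι → ℂ)}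

private theorem WirtB_smooth (hU : IsOpen U) (hf : ContDiffOn ℝ ∞ f U) (v : ι → ℂ) :
    ContDiffOn ℝ ∞ (fun y => fderiv ℝ f y v) U :=
  (hf.fderiv_of_isOpen hU (by simp)).clm_apply contDiffOn_const

theorem dz_contDiffOn (hU : IsOpen U) (hf : ContDiffOn ℝ ∞ f U) (i : ι) : ContDiffOn ℝ ∞ (fun y => dz i f y) U := by
  unfold dz
  exact ((WirtB_smooth hU hf _).sub (contDiffOn_const.mul (WirtB_smooth hU hf _))).div_const 2

theorem dzbar_contDiffOn (hU : IsOpen U) (hf : ContDiffOn ℝ ∞ f U) (i : ι) : ContDiffOn ℝ ∞ (fun y => dzbar i f y) U := by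
  unfold dzbar
  exact ((WirtB_smooth hU hf _).add (contDiffOn_const.mul (WirtB_smooth hU hf _))).div_const 2

theorem conj_contDiffOn (hf : ContDiffOn ℝ ∞ f U) : ContDiffOn ℝ ∞ (fun y => conj (f y)) U :=
  Complex.conjCLE.contDiff.comp_contDiffOn hf

private theorem WirtB_second (hU : IsOpen U) (hf : ContDiffOn ℝ ∞ f U) (hx : x ∈ U) :
    DifferentiableAt ℝ (fderiv ℝ f) x ∧ IsSymmSndFDerivAt ℝ f x := by
  constructor
  · exact ((hf.fderiv_of_isOpen hU (m := ∞) (by simp)).contDiffAt (hU.mem_nhds hx)).differentiableAt (by simp)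
  · exact (hf.contDiffAt (hU.mem_nhds hx)).isSymmSndFDerivAt (by
      rw [minSmoothness_of_isRCLikeNormedField]
      exact WithTop.coe_le_coe.2 (le_top : (2 : ℕ∞) ≤ ⊤))

private theorem WirtB_apply (hd : DifferentiableAt ℝ (fderiv ℝ f) x) (v : ι → ℂ) :
    HasFDerivAt (fun y => fderiv ℝ f y v) ((fderiv ℝ (fderiv ℝ f) x).flip v) x := by
  have h := hd.hasFDerivAt.clm_apply (hasFDerivAt_const v x)
  simpa using h

private theorem WirtB_dz (hd : DifferentiableAt ℝ (fderiv ℝ f) x) (i : ι) (w : ι → ℂ) :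
    fderiv ℝ (fun y => dz i f y) x w =
      (fderiv ℝ (fderiv ℝ f) x w (Pi.single i 1) - I * fderiv ℝ (fderiv ℝ f) x w (Pi.single i I)) / 2 := by
  have h := ((WirtB_apply hd (Pi.single i 1)).sub ((WirtB_apply hd (Pi.single i I)).const_mul I)).mul_const (2 : ℂ)⁻¹
  have e : (fun y => dz i f y) = fun y => (fderiv ℝ f y (Pi.single i 1) - I * fderiv ℝ f y (Pi.single i I)) * (2 : ℂ)⁻¹ := by
    funext y
    rw [dz, div_eq_mul_inv]
  have h' := h.fderiv
  rw [e]
  refine (congrArg (fun L : (ι → ℂ) →L[ℝ] ℂ => L w) h').trans ?_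
  simp only [_root_.smul_apply, _root_.sub_apply, ContinuousLinearMap.flip_apply, smul_eq_mul]
  ring

private theorem WirtB_dzbar (hd : DifferentiableAt ℝ (fderiv ℝ f) x) (i : ι) (w : ι → ℂ) :
    fderiv ℝ (fun y => dzbar i f y) x w =
      (fderiv ℝ (fderiv ℝ f) x w (Pi.single i 1) + I * fderiv ℝ (fderiv ℝ f) x w (Pi.single i I)) / 2 := by
  have h := ((WirtB_apply hd (Pi.single i 1)).add ((WirtB_apply hd (Pi.single i I)).const_mul I)).mul_const (2 : ℂ)⁻¹
  have e : (fun y => dzbar i f y) = fun y => (fderiv ℝ f y (Pi.single i 1) + I * fderiv ℝ f y (Pi.single i I)) * (2 : ℂ)⁻¹ := by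
    funext y
    rw [dzbar, div_eq_mul_inv]
  have h' := h.fderiv
  rw [e]
  refine (congrArg (fun L : (ι → ℂ) →L[ℝ] ℂ => L w) h').trans ?_
  simp only [_root_.smul_apply, _root_.add_apply, ContinuousLinearMap.flip_apply, smul_eq_mul]
  ring

theorem dz_dzbar_comm (hU : IsOpen U) (hf : ContDiffOn ℝ ∞ f U) (hx : x ∈ U) (i j : ι) :
    dz i (fun y => dzbar j f y) x = dzbar j (fun y => dz i f y) x := by
  obtain ⟨hd, hs⟩ := WirtB_second hU hf hx
  rw [dz, dzbar, WirtB_dzbar hd, WirtB_dzbar hd, WirtB_dz hd, WirtB_dz hd]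
  rw [hs (Pi.single j 1) (Pi.single i 1), hs (Pi.single j 1) (Pi.single i I), hs (Pi.single j I) (Pi.single i 1),
    hs (Pi.single j I) (Pi.single i I)]
  ring

theorem dz_dz_comm (hU : IsOpen U) (hf : ContDiffOn ℝ ∞ f U) (hx : x ∈ U) (i j : ι) :
    dz i (fun y => dz j f y) x = dz j (fun y => dz i f y) x := by
  obtain ⟨hd, hs⟩ := WirtB_second hU hf hx
  rw [dz, dz, WirtB_dz hd, WirtB_dz hd, WirtB_dz hd, WirtB_dz hd]
  rw [hs (Pi.single j 1) (Pi.single i 1), hs (Pi.single j 1) (Pi.single i I), hs (Pi.single j I) (Pi.single i 1),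
    hs (Pi.single j I) (Pi.single i I)]
  ring

/-- Cauchy estimate for the derivative. -/
private theorem WirtB_est {w : ι → ℂ} {R M : ℝ} (hR : 0 < R) (hU : IsOpen U) (hf : DifferentiableOn ℂ f U)
    (hb : Metric.closedBall w R ⊆ U) (hM : ∀ y ∈ Metric.closedBall w R, ‖f y‖ ≤ M) : ‖fderiv ℂ f w‖ ≤ M / R := by
  have hM0 : 0 ≤ M := (norm_nonneg _).trans (hM w (Metric.mem_closedBall_self hR.le))
  refine ContinuousLinearMap.opNorm_le_bound _ (by positivity) fun u => ?_
  rcases eq_or_ne u 0 with rfl | hu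
  · simp
  have hu' : 0 < ‖u‖ := norm_pos_iff.2 hu
  have hmem : ∀ z ∈ Metric.closedBall (0 : ℂ) (R / ‖u‖), w + z • u ∈ Metric.closedBall w R := by
    intro z hz
    rw [mem_closedBall_zero_iff] at hz
    rw [mem_closedBall_iff_norm, add_sub_cancel_left, norm_smul]
    calc ‖z‖ * ‖u‖ ≤ R / ‖u‖ * ‖u‖ := by gcongr
      _ = R := div_mul_cancel₀ _ hu'.ne'
  have hline : ∀ z : ℂ, HasDerivAt (fun z : ℂ => w + z • u) u z := by
    intro z
    simpa using ((hasDerivAt_id z).smul_const u).const_add w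
  have hdf : ∀ y ∈ U, HasFDerivAt f (fderiv ℂ f y) y := fun y hy =>
    ((hf y hy).differentiableAt (hU.mem_nhds hy)).hasFDerivAt
  have hg : ∀ z ∈ Metric.closedBall (0 : ℂ) (R / ‖u‖),
      HasDerivAt (fun z : ℂ => f (w + z • u)) (fderiv ℂ f (w + z • u) u) z := fun z hz =>
    (hdf _ (hb (hmem z hz))).comp_hasDerivAt z (hline z)
  have hpos : 0 < R / ‖u‖ := by positivity
  have hd : DiffContOnCl ℂ (fun z : ℂ => f (w + z • u)) (Metric.ball 0 (R / ‖u‖)) := by
    refine DifferentiableOn.diffContOnCl ?_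
    rw [closure_ball _ hpos.ne']
    exact fun z hz => (hg z hz).differentiableAt.differentiableWithinAt
  have h2 := Complex.norm_deriv_le_of_forall_mem_sphere_norm_le hpos hd
    (fun z hz => hM _ (hmem z (Metric.sphere_subset_closedBall hz)))
  have h3 := (hg 0 (Metric.mem_closedBall_self hpos.le)).deriv
  rw [zero_smul, add_zero] at h3
  rw [h3] at h2
  calc ‖fderiv ℂ f w u‖ ≤ M / (R / ‖u‖) := h2
    _ = M / R * ‖u‖ := by field_simp

/-- The derivative in a fixed direction of a holomorphic function is holomorphic. -/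
private theorem WirtB_dir (hU : IsOpen U) (hf : DifferentiableOn ℂ f U) (v : ι → ℂ) :
    DifferentiableOn ℂ (fun y => fderiv ℂ f y v) U := by
  intro x0 hx0
  obtain ⟨ε, hε, hball⟩ := Metric.isOpen_iff.1 hU x0 hx0
  obtain ⟨R, hRdef⟩ : ∃ R, R = ε / 4 := ⟨_, rfl⟩
  have hR : 0 < R := by rw [hRdef]; positivity
  have hsub : Metric.closedBall x0 (3 * R) ⊆ U :=
    (Metric.closedBall_subset_ball (by linarith)).trans hball
  obtain ⟨M, hM⟩ := (isCompact_closedBall x0 (3 * R)).exists_bound_of_continuousOn (hf.continuousOn.mono hsub)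
  obtain ⟨ρ, hρdef⟩ : ∃ ρ, ρ = R / (‖v‖ + 1) := ⟨_, rfl⟩
  have hρ : 0 < ρ := by rw [hρdef]; positivity
  have hρv : ∀ z : ℂ, ‖z‖ ≤ ρ → ‖z • v‖ ≤ R := by
    intro z hz
    rw [norm_smul]
    calc ‖z‖ * ‖v‖ ≤ ρ * (‖v‖ + 1) := by gcongr; linarith
      _ = R := by rw [hρdef]; exact div_mul_cancel₀ _ (by positivity)
  have hin : ∀ y ∈ Metric.ball x0 R, ∀ z : ℂ, ‖z‖ ≤ ρ → Metric.closedBall (y + z • v) R ⊆ Metric.closedBall x0 (3 * R) := by
    intro y hy z hz
    refine Metric.closedBall_subset_closedBall' ?_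
    have h1 : dist (y + z • v) x0 ≤ dist (y + z • v) y + dist y x0 := dist_triangle _ _ _
    have h2 : dist (y + z • v) y ≤ R := by
      rw [dist_eq_norm, add_sub_cancel_left]
      exact hρv z hz
    have h3 := Metric.mem_ball.1 hy
    linarith
  have hin' : ∀ y ∈ Metric.ball x0 R, ∀ z : ℂ, ‖z‖ ≤ ρ → y + z • v ∈ U := fun y hy z hz =>
    hsub (hin y hy z hz (Metric.mem_closedBall_self hR.le))
  have hcm : ∀ θ : ℝ, ‖circleMap 0 ρ θ‖ ≤ ρ := by
    intro θ
    rw [norm_circleMap_zero, abs_of_pos hρ]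
  have hline : ∀ (y : ι → ℂ) (z : ℂ), HasDerivAt (fun z : ℂ => y + z • v) v z := by
    intro y z
    simpa using ((hasDerivAt_id z).smul_const v).const_add y
  have hdf : ∀ y ∈ U, HasFDerivAt f (fderiv ℂ f y) y := fun y hy =>
    ((hf y hy).differentiableAt (hU.mem_nhds hy)).hasFDerivAt
  -- the kernel
  obtain ⟨c, hc⟩ : ∃ c : ℝ → ℂ, c = fun θ => deriv (circleMap 0 ρ) θ * ((circleMap 0 ρ θ - 0) ^ 2)⁻¹ := ⟨_, rfl⟩
  have hcont : Continuous c := by
    rw [hc]
    have h1 : Continuous (deriv (circleMap 0 ρ)) := by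
      have e : deriv (circleMap 0 ρ) = fun θ => circleMap 0 ρ θ * I := by
        funext θ
        exact deriv_circleMap 0 ρ θ
      rw [e]
      fun_prop
    refine h1.mul (Continuous.inv₀ (by fun_prop) fun θ => ?_)
    rw [sub_zero]
    exact pow_ne_zero 2 (circleMap_ne_center hρ.ne')
  have hcn : ∀ θ, ‖c θ‖ ≤ ρ⁻¹ := by
    intro θ
    rw [hc]
    simp only [deriv_circleMap, sub_zero, norm_mul, norm_I, mul_one, norm_inv, norm_pow, norm_circleMap_zero, abs_of_pos hρ]
    refine le_of_eq ?_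
    field_simp
  -- the Cauchy formula
  have hform : ∀ y ∈ Metric.ball x0 R, fderiv ℂ f y v =
      (2 * Real.pi * I : ℂ)⁻¹ * ∫ θ : ℝ in (0)..(2 * Real.pi), c θ * f (y + circleMap 0 ρ θ • v) := by
    intro y hy
    have hV : IsOpen {z : ℂ | y + z • v ∈ U} := hU.preimage (by fun_prop)
    have hgd : DifferentiableOn ℂ (fun z : ℂ => f (y + z • v)) {z : ℂ | y + z • v ∈ U} := fun z hz =>
      ((hdf _ hz).comp_hasDerivAt z (hline y z)).differentiableAt.differentiableWithinAt
    have hcb : Metric.closedBall (0 : ℂ) ρ ⊆ {z : ℂ | y + z • v ∈ U} := fun z hz =>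
      hin' y hy z (mem_closedBall_zero_iff.1 hz)
    have h1 := Complex.two_pi_I_inv_smul_circleIntegral_sub_sq_inv_smul_of_differentiable hV hcb hgd
      (Metric.mem_ball_self hρ)
    have hyU : y ∈ U := by
      have h := hin' y hy 0 (by rw [norm_zero]; exact hρ.le)
      rwa [zero_smul, add_zero] at h
    have h2 : deriv (fun z : ℂ => f (y + z • v)) 0 = fderiv ℂ f y v := by
      have h3 : HasFDerivAt f (fderiv ℂ f y) (y + (0 : ℂ) • v) := by
        rw [zero_smul, add_zero]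
        exact hdf y hyU
      exact (h3.comp_hasDerivAt 0 (hline y 0)).deriv
    rw [← h2, ← h1, smul_eq_mul, circleIntegral]
    congr 1
    refine intervalIntegral.integral_congr fun θ _ => ?_
    rw [hc]
    simp only [smul_eq_mul]
    ring
  have hcontF : ∀ y ∈ Metric.ball x0 R, Continuous fun θ : ℝ => c θ * f (y + circleMap 0 ρ θ • v) := by
    intro y hy
    refine hcont.mul (hf.continuousOn.comp_continuous (by fun_prop) fun θ => hin' y hy _ (hcm θ))
  have hmeas : Measurable fun θ : ℝ => c θ • fderiv ℂ f (x0 + circleMap 0 ρ θ • v) := by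
    have h1 : Measurable (fderiv ℂ f) := measurable_fderiv ℂ f
    have h2 : Continuous fun θ : ℝ => x0 + circleMap 0 ρ θ • v := by fun_prop
    exact hcont.measurable.smul (h1.comp h2.measurable)
  have hmain := intervalIntegral.hasFDerivAt_integral_of_dominated_of_fderiv_le (𝕜 := ℂ) (μ := volume)
    (a := 0) (b := 2 * Real.pi) (s := Metric.ball x0 R) (x₀ := x0)
    (F := fun y θ => c θ * f (y + circleMap 0 ρ θ • v))
    (F' := fun y θ => c θ • fderiv ℂ f (y + circleMap 0 ρ θ • v)) (bound := fun _ => ρ⁻¹ * (M / R))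
    (Metric.ball_mem_nhds x0 hR)
    (by
      filter_upwards [Metric.ball_mem_nhds x0 hR] with y hy
      exact (hcontF y hy).aestronglyMeasurable)
    ((hcontF x0 (Metric.mem_ball_self hR)).intervalIntegrable _ _)
    hmeas.aestronglyMeasurable
    (by
      refine Filter.Eventually.of_forall fun θ _ y hy => ?_
      rw [norm_smul]
      have h1 : ‖fderiv ℂ f (y + circleMap 0 ρ θ • v)‖ ≤ M / R :=
        WirtB_est hR hU hf ((hin y hy _ (hcm θ)).trans hsub) fun w hw => hM w (hin y hy _ (hcm θ) hw)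
      exact mul_le_mul (hcn θ) h1 (norm_nonneg _) (inv_nonneg.2 hρ.le))
    (by simp)
    (by
      refine Filter.Eventually.of_forall fun θ _ y hy => ?_
      have h1 : HasFDerivAt (fun y => f (y + circleMap 0 ρ θ • v)) (fderiv ℂ f (y + circleMap 0 ρ θ • v)) y := by
        have h2 := (hdf _ (hin' y hy _ (hcm θ))).comp y ((hasFDerivAt_id y).add_const (circleMap 0 ρ θ • v))
        simpa using! h2
      exact h1.const_mul (c θ))
  have hdiff : DifferentiableAt ℂ (fun y => (2 * Real.pi * I : ℂ)⁻¹ *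
      ∫ θ : ℝ in (0)..(2 * Real.pi), c θ * f (y + circleMap 0 ρ θ • v)) x0 :=
    (hmain.const_mul _).differentiableAt
  refine (hdiff.congr_of_eventuallyEq ?_).differentiableWithinAt
  filter_upwards [Metric.ball_mem_nhds x0 hR] with y hy
  exact hform y hy

private theorem WirtB_holN (hU : IsOpen U) (n : ℕ) : ∀ f : (ι → ℂ) → ℂ, DifferentiableOn ℂ f U → ContDiffOn ℂ n f U := by
  induction n with
  | zero =>
    intro f hf
    exact contDiffOn_zero.2 hf.continuousOn
  | succ n ih =>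
    intro f hf
    have h := (contDiffOn_succ_iff_fderiv_of_isOpen (𝕜 := ℂ) (n := (n : ℕ∞ω)) (f := f) hU).2
      ⟨hf, fun h => absurd h (by simp), contDiffOn_clm_apply.2 fun v => ih _ (WirtB_dir hU hf v)⟩
    exact_mod_cast h

/-- A holomorphic map is real-smooth. -/
theorem hol_contDiffOn {F : (ι → ℂ) → (κ → ℂ)} (hU : IsOpen U) (hF : DifferentiableOn ℂ F U) : ContDiffOn ℝ ∞ F U := by
  refine contDiffOn_pi.2 fun k => ?_
  have h1 : DifferentiableOn ℂ (fun y => F y k) U := fun y hy => differentiableWithinAt_pi.1 (hF y hy) k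
  have h2 : ContDiffOn ℂ ∞ (fun y => F y k) U := contDiffOn_infty.2 fun n => WirtB_holN hU n _ h1
  exact h2.restrict_scalars ℝ

/-- The derivative of a holomorphic map is given by the Jacobian matrix. -/
theorem fderiv_hol {F : (ι → ℂ) → (κ → ℂ)} (hF : DifferentiableAt ℂ F x) (v : ι → ℂ) :
    fderiv ℝ F x v = jac F x *ᵥ v := by
  funext k
  have h1 : DifferentiableAt ℂ (fun y => F y k) x := differentiableAt_pi.1 hF k
  have h2 : fderiv ℝ (fun y => F y k) x v = fderiv ℝ F x v k := by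
    have h3 := hasFDerivAt_pi'.1 (hF.restrictScalars ℝ).hasFDerivAt k
    rw [h3.fderiv]
    rfl
  rw [← h2, fderiv_eq_sum, mulVec, dotProduct]
  refine Finset.sum_congr rfl fun i _ => ?_
  rw [dzbar_hol i h1, mul_zero, add_zero, jac, of_apply, mul_comm]

private theorem WirtB_mulVec (A : Matrix κ ι ℂ) (i : ι) (w : ℂ) (k : κ) :
    (A *ᵥ Pi.single i w) k = A k i * w := by
  rw [mulVec_single]
  simp

private theorem WirtB_comp {f : (κ → ℂ) → ℂ} {F : (ι → ℂ) → (κ → ℂ)} (hF : DifferentiableAt ℂ F x)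
    (hf : DifferentiableAt ℝ f (F x)) (v : ι → ℂ) :
    fderiv ℝ (fun y => f (F y)) x v =
      ∑ k, ((jac F x *ᵥ v) k * dz k f (F x) + conj ((jac F x *ᵥ v) k) * dzbar k f (F x)) := by
  have h := hf.hasFDerivAt.comp x (hF.restrictScalars ℝ).hasFDerivAt
  have h' : fderiv ℝ (fun y => f (F y)) x = (fderiv ℝ f (F x)).comp (fderiv ℝ F x) := h.fderiv
  rw [h', ContinuousLinearMap.comp_apply, fderiv_hol hF, fderiv_eq_sum]

theorem dz_comp {f : (κ → ℂ) → ℂ} {F : (ι → ℂ) → (κ → ℂ)} (hF : DifferentiableAt ℂ F x) (hf : DifferentiableAt ℝ f (F x)) (i : ι) :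
    dz i (fun y => f (F y)) x = ∑ k, dz k f (F x) * jac F x k i := by
  rw [dz, WirtB_comp hF hf, WirtB_comp hF hf, Finset.mul_sum, ← Finset.sum_sub_distrib, Finset.sum_div]
  refine Finset.sum_congr rfl fun k _ => ?_
  rw [WirtB_mulVec, WirtB_mulVec]
  simp only [map_mul, map_one, conj_I, mul_one]
  linear_combination (-(1 / 2 : ℂ)) * (jac F x k i * dz k f (F x) - conj (jac F x k i) * dzbar k f (F x)) * I_mul_I

theorem dzbar_comp {f : (κ → ℂ) → ℂ} {F : (ι → ℂ) → (κ → ℂ)} (hF : DifferentiableAt ℂ F x) (hf : DifferentiableAt ℝ f (F x))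
    (i : ι) : dzbar i (fun y => f (F y)) x = ∑ k, dzbar k f (F x) * conj (jac F x k i) := by
  rw [dzbar, WirtB_comp hF hf, WirtB_comp hF hf, Finset.mul_sum, ← Finset.sum_add_distrib, Finset.sum_div]
  refine Finset.sum_congr rfl fun k _ => ?_
  rw [WirtB_mulVec, WirtB_mulVec]
  simp only [map_mul, map_one, conj_I, mul_one]
  linear_combination (1 / 2 : ℂ) * (jac F x k i * dz k f (F x) - conj (jac F x k i) * dzbar k f (F x)) * I_mul_I

/-- The entries of the Jacobian of a holomorphic map are holomorphic, hence smooth. -/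
theorem jac_hol {F : (ι → ℂ) → (κ → ℂ)} (hU : IsOpen U) (hF : DifferentiableOn ℂ F U) (k : κ) (i : ι) :
    DifferentiableOn ℂ (fun y => jac F y k i) U := by
  have h1 : DifferentiableOn ℂ (fun y => F y k) U := fun y hy => differentiableWithinAt_pi.1 (hF y hy) k
  refine (WirtB_dir hU h1 (Pi.single i 1)).congr fun y hy => ?_
  rw [jac, of_apply]
  exact dz_hol i ((h1 y hy).differentiableAt (hU.mem_nhds hy))

private theorem WirtB_comp_apply {ν : Type} {H : (κ → ℂ) → (ν → ℂ)} {y : κ → ℂ} (hH : DifferentiableAt ℂ H y) (n : ν) :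
    DifferentiableAt ℂ (fun w => H w n) y := by
  obtain ⟨H', h⟩ := hH
  refine ⟨(ContinuousLinearMap.proj n).comp H', HasFDerivAt.of_isLittleOTVS ?_⟩
  have h1 := ((ContinuousLinearMap.proj (R := ℂ) (φ := fun _ : ν => ℂ) n).isBigOTVS_comp).trans_isLittleOTVS h.isLittleOTVS
  exact h1

/-- The chain rule for Jacobians. -/
theorem jac_comp {ν : Type} {H : (κ → ℂ) → (ν → ℂ)} {F : (ι → ℂ) → (κ → ℂ)} (hF : DifferentiableAt ℂ F x)
    (hH : DifferentiableAt ℂ H (F x)) : jac (fun y => H (F y)) x = jac H (F x) * jac F x := by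
  ext n i
  have h1 : DifferentiableAt ℂ (fun w => H w n) (F x) := WirtB_comp_apply hH n
  rw [mul_apply, jac, of_apply, dz_comp hF (h1.restrictScalars ℝ)]
  refine Finset.sum_congr rfl fun k _ => ?_
  simp only [jac, of_apply]

end YV
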